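import Pool.Agent.Lib.MP_2d4659_gt.EX85.GRing

/-!
# The representation `a ↦ diag(1, Z)`, `b ↦ [[0, 1], [1, X]]`
-/

set_option autoImplicit false

open Polynomial

namespace ExoticGen

open FP

variable {J : Type} {m : J → ℕ} {S : Type*} [Ring S]

/-- `[[0, 1], [1, X]]` as a unit -/
def ub (X : S) : (Matrix (Fin 2) (Fin 2) S)ˣ where
  val := !![0, 1; 1, X]
  inv := !![-X, 1; 1, 0]
  val_inv := by
    ext i j; fin_cases i <;> fin_cases j <;> simp [Matrix.mul_apply, Fin.sum_univ_two]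
  inv_val := by
    ext i j; fin_cases i <;> fin_cases j <;> simp [Matrix.mul_apply, Fin.sum_univ_two]

/-- `diag (1, Z)` as a unit -/
def ua (Z : Sˣ) : (Matrix (Fin 2) (Fin 2) S)ˣ where
  val := !![1, 0; 0, (Z : S)]
  inv := !![1, 0; 0, ((Z⁻¹ : Sˣ) : S)]
  val_inv := by
    ext i j; fin_cases i <;> fin_cases j <;> simp [Matrix.mul_apply, Fin.sum_univ_two]
  inv_val := by
    ext i j; fin_cases i <;> fin_cases j <;> simp [Matrix.mul_apply, Fin.sum_univ_two]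

theorem ua_pow (Z : Sˣ) (n : ℕ) : ((ua Z ^ n : (Matrix (Fin 2) (Fin 2) S)ˣ) :
    Matrix (Fin 2) (Fin 2) S) = !![1, 0; 0, (Z : S) ^ n] := by
  induction n with
  | zero =>
    rw [pow_zero, pow_zero, Units.val_one]
    ext i j; fin_cases i <;> fin_cases j <;> simp
  | succ n ih =>
    rw [pow_succ, Units.val_mul, ih, pow_succ]
    ext i j; fin_cases i <;> fin_cases j <;> simp [Matrix.mul_apply, Fin.sum_univ_two, ua]

open Classical in
/-- the images of the generators -/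
noncomputable def im (j0 j1 : J) (X : S) (Z : Sˣ) (j : J) : (Matrix (Fin 2) (Fin 2) S)ˣ :=
  if j = j1 then ua Z else if j = j0 then ub X else 1

theorem im_pow (j0 j1 : J) (X : S) (Z : Sˣ) (h0 : m j0 = 0) (h1 : (Z : S) ^ m j1 = 1) (j : J) :
    im j0 j1 X Z j ^ m j = 1 := by
  unfold im
  by_cases h : j = j1
  · rw [if_pos h]
    subst h
    apply Units.ext
    rw [ua_pow, h1, Units.val_one]
    ext i j; fin_cases i <;> fin_cases j <;> simp
  · rw [if_neg h]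
    by_cases h' : j = j0
    · subst h'
      rw [h0, pow_zero]
    · rw [if_neg h', one_pow]

variable (j0 j1 : J) (X : S) (Z : Sˣ) (h0 : m j0 = 0) (h1 : (Z : S) ^ m j1 = 1)

/-- the representation of the group -/
noncomputable def rhoG : Gp m →* Matrix (Fin 2) (Fin 2) S :=
  (Units.coeHom _).comp (ghom (im j0 j1 X Z) (im_pow j0 j1 X Z h0 h1))

/-- the representation of the group ring -/
noncomputable def rho : KG ℤ m →ₐ[ℤ] Matrix (Fin 2) (Fin 2) S :=
  MonoidAlgebra.lift ℤ _ (Gp m) (rhoG j0 j1 X Z h0 h1)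

theorem rho_ga (j : J) : rho j0 j1 X Z h0 h1 (ga ℤ m j) = (im j0 j1 X Z j : Matrix (Fin 2) (Fin 2) S) := by
  unfold rho ga
  rw [MonoidAlgebra.lift_single, one_smul]
  unfold rhoG
  rw [MonoidHom.comp_apply, ghom_gen]
  rfl

theorem rho_a : rho j0 j1 X Z h0 h1 (ga ℤ m j1) = !![1, 0; 0, (Z : S)] := by
  rw [rho_ga, im, if_pos rfl]; rfl

theorem rho_b (h01 : j0 ≠ j1) : rho j0 j1 X Z h0 h1 (ga ℤ m j0) = !![0, 1; 1, X] := by
  rw [rho_ga, im, if_neg h01, if_pos rfl]; rfl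

theorem rho_other {j : J} (hj0 : j ≠ j0) (hj1 : j ≠ j1) : rho j0 j1 X Z h0 h1 (ga ℤ m j) = 1 := by
  rw [rho_ga, im, if_neg hj1, if_neg hj0]; rfl

theorem diag_pow (z : S) (n : ℕ) : (!![1, 0; 0, z] : Matrix (Fin 2) (Fin 2) S) ^ n =
    !![1, 0; 0, z ^ n] := by
  induction n with
  | zero =>
    rw [pow_zero, pow_zero]
    ext i j; fin_cases i <;> fin_cases j <;> simp
  | succ n ih =>
    rw [pow_succ, ih, pow_succ]
    ext i j; fin_cases i <;> fin_cases j <;> simp [Matrix.mul_apply, Fin.sum_univ_two]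

theorem aeval_diag (z : S) (f : ℤ[X]) : aeval (!![1, 0; 0, z] : Matrix (Fin 2) (Fin 2) S) f =
    !![aeval (1 : S) f, 0; 0, aeval z f] := by
  induction f using Polynomial.induction_on' with
  | add p q hp hq =>
    rw [map_add, hp, hq]
    ext i j; fin_cases i <;> fin_cases j <;> simp
  | monomial n c =>
    rw [aeval_monomial, diag_pow, Algebra.algebraMap_eq_smul_one, smul_mul_assoc, one_mul]
    ext i j; fin_cases i <;> fin_cases j <;> simp [aeval_monomial]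

/-- evaluation of integral polynomials -/
noncomputable def ev {A : Type*} [Ring A] (a : A) (f : ℤ[X]) : A := aeval a f

theorem hom_ev {A B : Type*} [Ring A] [Ring B] (φ : A →+* B) (a : A) (f : ℤ[X]) :
    φ (ev a f) = ev (φ a) f := by
  unfold ev
  induction f using Polynomial.induction_on' with
  | add p q hp hq => rw [map_add, map_add, hp, hq, map_add]
  | monomial n c =>
    rw [aeval_monomial, aeval_monomial, map_mul, map_pow]
    simp

theorem cc_ev {A : Type*} [Ring A] (M : ℕ) (k : ℤ) (a : A) : cc M k a = ev a (cP M k) := rfl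

theorem ee_ev {A : Type*} [Ring A] (k : ℤ) (a : A) : ee k a = ev a (etaP k) := ee_eq k a

theorem nn_ev {A : Type*} [Ring A] (M : ℕ) (a : A) :
    nn M a = ev a (∑ i ∈ Finset.range M, (Polynomial.X : ℤ[X]) ^ i) := aeval_nn M a

theorem rho_ev (f : ℤ[X]) : rho j0 j1 X Z h0 h1 (ev (ga ℤ m j1) f) =
    !![ev (1 : S) f, 0; 0, ev (Z : S) f] := by
  have h := hom_ev (rho j0 j1 X Z h0 h1 : KG ℤ m →+* Matrix (Fin 2) (Fin 2) S) (ga ℤ m j1) f
  have h2 : (rho j0 j1 X Z h0 h1 : KG ℤ m →+* Matrix (Fin 2) (Fin 2) S) (ga ℤ m j1) =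
    !![1, 0; 0, (Z : S)] := rho_a j0 j1 X Z h0 h1
  rw [h2] at h
  exact h.trans (aeval_diag _ f)

theorem rho_int (n : ℤ) : rho j0 j1 X Z h0 h1 (n : KG ℤ m) = !![(n : S), 0; 0, (n : S)] := by
  rw [map_intCast]
  ext i j; fin_cases i <;> fin_cases j <;> simp [Matrix.intCast_apply]

theorem rho_am1 : rho j0 j1 X Z h0 h1 (ga ℤ m j1 - 1) = !![0, 0; 0, (Z : S) - 1] := by
  rw [map_sub, rho_a, map_one]
  ext i j; fin_cases i <;> fin_cases j <;> simp

theorem rho_ee (k : ℤ) : rho j0 j1 X Z h0 h1 (ee k (ga ℤ m j1)) = !![1, 0; 0, ee k (Z : S)] := by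
  rw [ee_ev, rho_ev, ← ee_ev, ← ee_ev]
  have : ee k (1 : S) = 1 := by simp [ee]
  rw [this]

theorem rho_nn (hZ : nn (m j1) (Z : S) = 0) :
    rho j0 j1 X Z h0 h1 (nn (m j1) (ga ℤ m j1)) = !![(m j1 : S), 0; 0, 0] := by
  rw [nn_ev, rho_ev, ← nn_ev, ← nn_ev, hZ]
  congr
  simp [nn]

theorem rho_nn_other {j : J} (hj : m j ≠ 0) (hj1 : j ≠ j1) :
    rho j0 j1 X Z h0 h1 (nn (m j) (ga ℤ m j)) = !![(m j : S), 0; 0, (m j : S)] := by
  have hj0 : j ≠ j0 := by rintro rfl; exact hj h0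
  unfold nn
  rw [map_sum]
  simp only [map_pow, rho_other j0 j1 X Z h0 h1 hj0 hj1, one_pow]
  ext i j; fin_cases i <;> fin_cases j <;> simp [Matrix.sum_apply]

theorem rho_T0 (f : ℤ[X]) : rho j0 j1 X Z h0 h1 (ev (ga ℤ m j1) f) 1 0 = 0 := by
  rw [rho_ev]; rfl

theorem rho_xx (h01 : j0 ≠ j1) (k : ℤ) :
    rho j0 j1 X Z h0 h1 (xx k (ga ℤ m j1) (ga ℤ m j0)) =
      !![1, 1; ee k (Z : S), 1 + ee k (Z : S) * X] := by
  unfold xx
  rw [map_add, map_mul, rho_ee, rho_b j0 j1 X Z h0 h1 h01, map_one]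
  ext i j; fin_cases i <;> fin_cases j <;> simp [Matrix.mul_apply, Fin.sum_univ_two]

theorem rho_p0 (h01 : j0 ≠ j1) (k V : ℤ) :
    rho j0 j1 X Z h0 h1 (p0 (m j1) k V (ga ℤ m j1) (ga ℤ m j0)) 1 1 =
      ((Z : S) - 1) * ee k (Z : S) -
        (V : S) * ((Z : S) - 1) * ee k (Z : S) ^ 2 * X * ((Z : S) - 1) * cc (m j1) k (Z : S) := by
  unfold p0
  rw [cc_ev, map_sub, map_mul, map_mul, map_mul, map_mul, map_mul, map_mul, map_pow,
    rho_ee, rho_b j0 j1 X Z h0 h1 h01, rho_int, rho_ev, rho_am1, pow_two, pow_two]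
  simp [Matrix.mul_apply, Fin.sum_univ_two, cc_ev]

end ExoticGen
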