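import Pool.Agent.Lib.MP_2d4659_gt.EX85.Skew
import Pool.Agent.Lib.MP_2d4659_gt.EX85.Rep

/-!
# The contradiction in the skew ring, and the choice of the parameters
-/

set_option autoImplicit false

open Polynomial

namespace ExoticGen

section
variable (M : ℕ) [hM : NeZero M]

/-- `ζ` in the skew ring, as an element -/
noncomputable abbrev ZZ : SS M := ((ZS M : (SS M)ˣ) : SS M)

theorem coe_ev (f : ℤ[X]) : ((ev (ZZ M) f : SS M) : Mt M) = dg M (ev (zeta M) f) := by
  have h1 := hom_ev (SS M).subtype (ZZ M) f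
  have h2 := hom_ev (dgH M) (zeta M) f
  exact h1.trans h2.symm

theorem coe_ee (k : ℤ) : ((ee k (ZZ M) : SS M) : Mt M) = dg M (ee k (zeta M)) := by
  rw [ee_ev, coe_ev, ← ee_ev]

theorem coe_am1 : ((ZZ M - 1 : SS M) : Mt M) = dg M (zeta M - 1) := by
  have h : dgH M (zeta M - 1) = dgH M (zeta M) - 1 := by rw [map_sub, map_one]
  exact h.symm

theorem dg_int (n : ℤ) : ((n : SS M) : Mt M) = dg M (n : OO M) := by
  have h : dgH M (n : OO M) = (n : Mt M) := map_intCast _ _
  exact (map_intCast (SS M).subtype n).trans h.symm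

theorem hom_ee {A B : Type*} [Ring A] [Ring B] (φ : A →+* B) (k : ℤ) (a : A) :
    φ (ee k a) = ee k (φ a) := by
  rw [ee_ev, ee_ev, hom_ev]

variable {F : Type*} [Field F] [NeZero (M : F)]

theorem contra (hM3 : 3 ≤ M) (μ : F) (hμ : IsPrimitiveRoot μ M) (k V Q : ℤ)
    (hk : ((k : F) + 1) * μ = (k : F)) (hQ : Q ≠ 0) (ω r c t : SS M)
    (h1 : r * ω = (Q : SS M) * (ZZ M - 1))
    (h2 : ω * (1 + ee k (ZZ M) * XS M) = c * ee k (ZZ M))
    (h3 : (ZZ M - 1) * ee k (ZZ M) -
      (V : SS M) * (ZZ M - 1) * ee k (ZZ M) ^ 2 * XS M * (ZZ M - 1) * cc M k (ZZ M) = t * ω) :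
    False := by
  -- the reduction
  set θ := red M μ hμ with hθ
  have hθz : θ (zeta M) = μ := red_zeta M μ hμ
  have hθz' : μ * θ (zeta' M) = 1 := by rw [← hθz, ← map_mul, zeta_mul, map_one]
  have hμ1 : μ ≠ 1 := hμ.ne_one (by omega)
  have hμ2 : μ ^ 2 ≠ 1 := hμ.pow_ne_one_of_pos_of_lt (by norm_num) (by omega)
  have hμ0 : μ ≠ 0 := hμ.ne_zero (by omega)
  have hk1 : (k : F) + 1 ≠ 0 := by
    intro h
    rw [h, zero_mul] at hk
    rw [← hk, zero_add] at h
    exact one_ne_zero h
  have hπ : θ (ee k (zeta M)) ≠ 0 := by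
    have e : θ (ee k (zeta M)) = ((k : F) + 1) * (1 - μ ^ 2) := by
      rw [hom_ee, hθz, ee]
      push_cast
      linear_combination μ * hk
    rw [e]
    exact mul_ne_zero hk1 (sub_ne_zero.2 hμ2.symm)
  have hπ' : θ (conj M (ee k (zeta M))) = 0 := by
    rw [hom_ee, hom_ee, conj_zeta, ee]
    push_cast
    linear_combination θ (zeta' M) * hk - ((k : F) + 1) * hθz'
  -- the degree
  have hz1 : (zeta M - 1 : OO M) ≠ 0 := sub_ne_zero.2 ((zeta_prim M).ne_one (by omega))
  have hdet : ((r : Mt M) * (ω : Mt M)).det =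
      C (((Q : OO M) * (zeta M - 1)) * (conj M ((Q : OO M) * (zeta M - 1)))) := by
    have e : ((r : Mt M) * (ω : Mt M)) = dg M ((Q : OO M) * (zeta M - 1)) := by
      have := congrArg (fun x : SS M => (x : Mt M)) h1
      simp only [Subring.coe_mul] at this
      rw [this, dg_int, coe_am1, dg_mul]
    rw [e, dg, Matrix.det_fin_two]
    simp
  obtain ⟨hγ, α, hα⟩ := deg_zero M ω.2 (by
    have h4 : ((Q : OO M) * (zeta M - 1)) ≠ 0 := mul_ne_zero (by exact_mod_cast hQ) hz1
    exact mul_ne_zero h4 ((map_ne_zero_iff _ (conj_inj M)).2 h4)) hdet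
  have hω : (ω : Mt M) = dg M α := by
    have e01 := SS_01 ω.2
    have e11 := SS_11 ω.2
    rw [hγ] at e01
    rw [hα] at e11
    unfold dg
    ext i j
    fin_cases i <;> fin_cases j
    · simp [hα]
    · simp [e01]
    · simp [hγ]
    · simp [e11]
  -- second equation
  have hα0 : θ α = 0 := by
    have e := congrArg (fun x : SS M => (x : Mt M) 0 1) h2
    simp only [Subring.coe_mul, Subring.coe_add, Subring.coe_one, coe_ee, hω] at e
    have hX : ((XS M : SS M) : Mt M) = X0 M := rfl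
    rw [hX] at e
    have hc := SS_01 c.2
    simp [dg, X0, Matrix.mul_apply, Fin.sum_univ_two, hc] at e
    have e' := congrArg (fun p => p.coeff 1) e
    have e1 : (C α * (C (ee k (zeta M)) * X) : (OO M)[X]).coeff 1 = α * ee k (zeta M) := by
      rw [coeff_C_mul, coeff_C_mul, coeff_X_one, mul_one]
    have e2 : (X * (((c : Mt M) 1 0).map (conj M)) * C (conj M (ee k (zeta M))) : (OO M)[X]).coeff 1
        = conj M (((c : Mt M) 1 0).coeff 0) * conj M (ee k (zeta M)) := by
      rw [coeff_mul_C, coeff_X_mul, coeff_map]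
    simp only [e1, e2] at e'
    have e'' := congrArg θ e'
    rw [map_mul, map_mul, hπ', mul_zero] at e''
    exact (mul_eq_zero.1 e'').resolve_right hπ
  -- third equation
  have e := congrArg (SS M).subtype h3
  rw [map_sub] at e
  simp only [map_mul, map_pow] at e
  have f1 : (SS M).subtype (ZZ M - 1) = dg M (zeta M - 1) := coe_am1 M
  have f2 : (SS M).subtype (ee k (ZZ M)) = dg M (ee k (zeta M)) := coe_ee M k
  have f3 : (SS M).subtype (XS M) = X0 M := rfl
  have f4 : (SS M).subtype (V : SS M) = dg M (V : OO M) := dg_int M V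
  have f5 : (SS M).subtype (cc M k (ZZ M)) = dg M (ev (zeta M) (cP M k)) := coe_ev M _
  have f6 : (SS M).subtype ω = dg M α := hω
  rw [f1, f2, f3, f4, f5, f6, pow_two, dg_mul, dg_mul, dg_mul, dg_mul, mul_assoc _ (dg M _) (dg M _),
    dg_mul] at e
  have e0 := congrFun (congrFun e 0) 0
  simp [dg, X0, Matrix.mul_apply, Fin.sum_univ_two] at e0
  have e' := congrArg (fun p => θ (p.coeff 0)) e0
  simp only [mul_coeff_zero, coeff_sub, coeff_C_zero, coeff_one_zero] at e'
  rw [map_mul, map_sub, hθz, map_one, map_mul, hα0, mul_zero] at e'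
  exact mul_ne_zero (sub_ne_zero.2 hμ1) hπ e'

end

end ExoticGen
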