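import Pool.Agent.Lib.MP_2d4659_gt.EX85.Poly

/-!
# The ring `ℤ[ζ]` and its reductions
-/

set_option autoImplicit false

open Polynomial

namespace ExoticGen

/-- `ℤ[ζ]` -/
abbrev OO (M : ℕ) : Type := AdjoinRoot (cyclotomic M ℤ)

section
variable (M : ℕ) [hM : NeZero M]

instance OO_domain : IsDomain (OO M) :=
  AdjoinRoot.isDomain_of_prime (cyclotomic.irreducible (Nat.pos_of_ne_zero hM.out)).prime

theorem of_inj : Function.Injective (AdjoinRoot.of (cyclotomic M ℤ)) := by
  apply AdjoinRoot.of.injective_of_degree_ne_zero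
  have h := degree_cyclotomic_pos M ℤ (Nat.pos_of_ne_zero hM.out)
  exact h.ne'

instance OO_charZero : CharZero (OO M) := by
  refine ⟨fun a b h => ?_⟩
  have h1 : AdjoinRoot.of (cyclotomic M ℤ) (a : ℤ) = AdjoinRoot.of (cyclotomic M ℤ) (b : ℤ) := by
    rw [map_natCast, map_natCast]; exact h
  exact_mod_cast of_inj M h1

/-- `ζ` -/
noncomputable def zeta : OO M := AdjoinRoot.root (cyclotomic M ℤ)

theorem zeta_prim : IsPrimitiveRoot (zeta M) M := by
  have : NeZero (M : OO M) := ⟨by exact_mod_cast hM.out⟩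
  rw [← isRoot_cyclotomic_iff, ← map_cyclotomic_int M (OO M), IsRoot, eval_map]
  have h := AdjoinRoot.eval₂_root (cyclotomic M ℤ)
  have e : AdjoinRoot.of (cyclotomic M ℤ) = Int.castRingHom (OO M) := RingHom.ext_int _ _
  rw [e] at h
  exact h

/-- `ζ⁻¹` -/
noncomputable def zeta' : OO M := zeta M ^ (M - 1)

theorem zeta_mul : zeta M * zeta' M = 1 := by
  unfold zeta'
  rw [← pow_succ', Nat.sub_add_cancel (Nat.pos_of_ne_zero hM.out), (zeta_prim M).pow_eq_one]

theorem zeta'_prim : IsPrimitiveRoot (zeta' M) M := by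
  have h := (zeta_prim M).pow_of_coprime (M - 1) (by
    have h1 := Nat.pos_of_ne_zero hM.out
    have h2 : ∀ n : ℕ, Nat.Coprime n (n + 1) := fun n => by simp
    have h3 := h2 (M - 1)
    rwa [Nat.sub_add_cancel h1] at h3)
  exact h

theorem eval_prim {R : Type*} [CommRing R] [IsDomain R] [NeZero (M : R)] (μ : R)
    (hμ : IsPrimitiveRoot μ M) : (cyclotomic M ℤ).eval₂ (Int.castRingHom R) μ = 0 := by
  rw [← eval_map, map_cyclotomic_int]
  exact isRoot_cyclotomic_iff.2 hμ

instance : NeZero (M : OO M) := ⟨by exact_mod_cast hM.out⟩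

/-- complex conjugation -/
noncomputable def conj : OO M →+* OO M :=
  AdjoinRoot.lift (Int.castRingHom (OO M)) (zeta' M) (eval_prim M _ (zeta'_prim M))

theorem conj_zeta : conj M (zeta M) = zeta' M := AdjoinRoot.lift_root _

theorem conj_zeta' : conj M (zeta' M) = zeta M := by
  have h1 : conj M (zeta M) * conj M (zeta' M) = 1 := by
    rw [← map_mul, zeta_mul, map_one]
  rw [conj_zeta] at h1
  calc conj M (zeta' M) = (zeta M * zeta' M) * conj M (zeta' M) := by rw [zeta_mul, one_mul]
    _ = zeta M * (zeta' M * conj M (zeta' M)) := by ring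
    _ = zeta M := by rw [h1, mul_one]

theorem conj_conj : (conj M).comp (conj M) = RingHom.id _ := by
  apply AdjoinRoot.ringHom_ext
  · exact RingHom.ext_int _ _
  · rw [RingHom.comp_apply]
    show conj M (conj M (zeta M)) = zeta M
    rw [conj_zeta, conj_zeta']

theorem conj_inj : Function.Injective (conj M) := by
  intro x y h
  have h1 := congrArg (conj M) h
  rwa [← RingHom.comp_apply, ← RingHom.comp_apply, conj_conj] at h1

/-- a reduction -/
noncomputable def red {F : Type*} [Field F] [NeZero (M : F)] (μ : F) (hμ : IsPrimitiveRoot μ M) :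
    OO M →+* F :=
  AdjoinRoot.lift (Int.castRingHom F) μ (eval_prim M _ hμ)

theorem red_zeta {F : Type*} [Field F] [NeZero (M : F)] (μ : F) (hμ : IsPrimitiveRoot μ M) :
    red M μ hμ (zeta M) = μ := AdjoinRoot.lift_root _

end

end ExoticGen
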