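import Pool.Agent.Lib.MP_2d4659_gt.EX85.Neg

/-!
# The negative theorem
-/

set_option autoImplicit false

open Polynomial

namespace ExoticGen

open FP

variable {J Y : Type} {m : J → ℕ} [Fintype J] [Fintype Y]

/-- a matrix enlarged by a zero row: one more free generator, with boundary zero -/
def zrow {n X R : Type} [Zero R] (D : Matrix n X R) : Matrix (Option n) X R :=
  fun r c => r.elim 0 (fun r => D r c)

omit [Fintype J] in
theorem zrow_apply {n X : Type} [Fintype n] (k : Type) [CommRing k] (D : Matrix n X (RG ℤ m))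
    (v : Option n → RG k m) : bdM k (zrow D) v = bdM k D (v ∘ some) := by
  ext1 c
  rw [bdM_apply, bdM_apply, Fintype.sum_option]
  simp [zrow]

theorem compare {k : Type} [CommRing k] (x y : RG ℤ m) (i1 : FJ m) (y0 : Y)
    (u u' : Co m Y → RG k m)
    (h1 : ∀ i : FJ m, u' (Sum.inl i) * nn (m i.1) (ga k m i.1) =
      u (Sum.inl i) * nn (m i.1) (ga k m i.1))
    (h2 : ∀ z, z ≠ y0 → u' (Sum.inr z) = u (Sum.inr z))
    (h3 : u' (Sum.inr y0) = u (Sum.inl i1) * cf k m x + u (Sum.inr y0) * cf k m y) :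
    bdM k (D0 0 1 i1 y0) u' = bdM k (D0 x y i1 y0) u := by
  ext1 c
  rcases c with j | z
  · by_cases hj : m j = 0
    · rw [D0_inl' _ _ _ _ _ _ hj, D0_inl' _ _ _ _ _ _ hj]
    · have h := fun x y u => D0_inl (k := k) x y i1 y0 u ⟨j, hj⟩
      simp only at h
      rw [h, h]
      exact h1 ⟨j, hj⟩
  · by_cases hz : z = y0
    · subst hz
      rw [D0_inr0, D0_inr0, map_zero, map_one, mul_zero, zero_add, mul_one, h3]
    · rw [D0_inr _ _ _ _ _ _ hz, D0_inr _ _ _ _ _ _ hz, h2 z hz]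

theorem ladder_of_pair {n : Type} [Fintype n] {k : Type} [CommRing k] (e0 : n ≃ Co m Y)
    (c : Y → J → RG ℤ m) (x y : RG ℤ m) (i1 : FJ m) (y0 : Y)
    (e : (RG k m × RG k m) ≃ₗ[RG k m] (RG k m × RG k m))
    (he1 : ∀ v, (e v).1 * nn (m i1.1) (ga k m i1.1) = v.1 * nn (m i1.1) (ga k m i1.1))
    (he2 : ∀ v, (e v).2 = v.1 * cf k m x + v.2 * cf k m y) :
    LadderIso k (bdM k (DD e0 c 0 1 i1 y0)) (bdM k (DD e0 c x y i1 y0)) := by
  classical
  set R := LinearEquiv.funCongrLeft (RG k m) (RG k m) e0.symm with hR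
  have hRa : ∀ v, R v = v ∘ e0.symm := fun v => rfl
  set l := lift2 e (Sum.inl i1 : Co m Y) (Sum.inr y0) Sum.inr_ne_inl with hl
  have hcomp : ∀ u : Co m Y → RG k m,
      bdM k (D0 0 1 i1 y0) (l u) = bdM k (D0 x y i1 y0) u := by
    intro u
    refine compare x y i1 y0 u (l u) (fun i => ?_) (fun z hz => ?_) ?_
    · by_cases hi : i = i1
      · subst hi
        rw [hl, lift2_1, he1]
      · rw [hl, lift2_3 _ _ _ _ _ _ (fun h => hi (Sum.inl.inj h)) Sum.inl_ne_inr]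
    · rw [hl, lift2_3 _ _ _ _ _ _ Sum.inr_ne_inl (fun h => hz (Sum.inr.inj h))]
    · rw [hl, lift2_2, he2]
  refine ⟨(R.trans (l.trans R.symm)).symm, ?_⟩
  refine LinearMap.ext fun v' => ?_
  obtain ⟨v, rfl⟩ : ∃ v, (R.trans (l.trans R.symm)) v = v' :=
    ⟨(R.trans (l.trans R.symm)).symm v', LinearEquiv.apply_symm_apply _ _⟩
  rw [LinearMap.comp_apply, LinearEquiv.coe_coe, LinearEquiv.symm_apply_apply, DD_apply, DD_apply,
    ← hRa, ← hRa]
  congr 1
  rw [← hcomp]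
  congr 1
  show R (R.symm (l (R v))) = l (R v)
  rw [LinearEquiv.apply_symm_apply]

theorem ladder_stable {n : Type} [Fintype n] {k : Type} [CommRing k] (e0 : n ≃ Co m Y)
    (c : Y → J → RG ℤ m) (x y : RG ℤ m) (i1 : FJ m) (y0 : Y)
    (e : ((RG k m × RG k m) × RG k m) ≃ₗ[RG k m] ((RG k m × RG k m) × RG k m))
    (he1 : ∀ v, (e v).1.1 * nn (m i1.1) (ga k m i1.1) = v.1.1 * nn (m i1.1) (ga k m i1.1))
    (he2 : ∀ v, (e v).1.2 = v.1.1 * cf k m x + v.1.2 * cf k m y) :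
    LadderIso k (bdM k (zrow (DD e0 c 0 1 i1 y0))) (bdM k (zrow (DD e0 c x y i1 y0))) := by
  classical
  have h12 : e0.symm (Sum.inr y0) ≠ e0.symm (Sum.inl i1) :=
    fun h => Sum.inr_ne_inl (e0.symm.injective h)
  set l := lift3 e (e0.symm (Sum.inl i1)) (e0.symm (Sum.inr y0)) h12 with hl
  refine ⟨l.symm, ?_⟩
  refine LinearMap.ext fun v' => ?_
  obtain ⟨v, rfl⟩ : ∃ v, l v = v' := ⟨l.symm v', LinearEquiv.apply_symm_apply _ _⟩
  rw [LinearMap.comp_apply, LinearEquiv.coe_coe, LinearEquiv.symm_apply_apply, zrow_apply,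
    zrow_apply, DD_apply, DD_apply]
  congr 1
  refine compare x y i1 y0 _ _ (fun i => ?_) (fun z hz => ?_) ?_
  · show l v (some (e0.symm (Sum.inl i))) * _ = v (some (e0.symm (Sum.inl i))) * _
    by_cases hi : i = i1
    · subst hi
      rw [hl, lift3_1, he1]
    · rw [hl, lift3_3 _ _ _ _ _ _ (fun h => hi (Sum.inl.inj (e0.symm.injective h)))
        (fun h => Sum.inl_ne_inr (e0.symm.injective h))]
  · show l v (some (e0.symm (Sum.inr z))) = v (some (e0.symm (Sum.inr z)))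
    rw [hl, lift3_3 _ _ _ _ _ _ (fun h => Sum.inr_ne_inl (e0.symm.injective h))
        (fun h => hz (Sum.inr.inj (e0.symm.injective h)))]
  · show l v (some (e0.symm (Sum.inr y0))) = v (some (e0.symm (Sum.inl i1))) * _ +
      v (some (e0.symm (Sum.inr y0))) * _
    rw [hl, lift3_2, he2]

theorem mem_K0_iff (i1 : FJ m) (y0 : Y) (u : Co m Y → RG ℤ m) :
    u ∈ K0 ℤ m Y ↔ bdM ℤ (D0 0 1 i1 y0) u = 0 := by
  constructor
  · rintro ⟨h1, h2⟩
    ext1 c
    rw [Pi.zero_apply]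
    rcases c with j | z
    · by_cases hj : m j = 0
      · rw [D0_inl' _ _ _ _ _ _ hj]
      · have h := D0_inl (k := ℤ) 0 1 i1 y0 u ⟨j, hj⟩
        simp only at h
        rw [h]
        exact h1 ⟨j, hj⟩
    · by_cases hz : z = y0
      · subst hz
        rw [D0_inr0, map_zero, map_one, mul_zero, zero_add, mul_one, h2]
      · rw [D0_inr _ _ _ _ _ _ hz, h2]
  · intro h
    refine ⟨fun i => ?_, fun z => ?_⟩
    · rw [← D0_inl (k := ℤ) 0 1 i1 y0 u i, h]; rfl
    · have h' := congrFun h (Sum.inr z)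
      by_cases hz : z = y0
      · subst hz
        rw [D0_inr0, map_zero, map_one, mul_zero, zero_add, mul_one] at h'
        exact h'
      · rw [D0_inr _ _ _ _ _ _ hz] at h'
        exact h'

theorem mem_K1_iff (i1 : FJ m) (y0 : Y) (j0 : J) (κ : ℤ) (u : Co m Y → RG ℤ m) :
    u ∈ K1 (xx κ (ga ℤ m i1.1) (ga ℤ m j0)) (ee κ (ga ℤ m i1.1)) i1 y0 ↔
      bdM ℤ (D0 (xx κ (ga ℤ m i1.1) (ga ℤ m j0)) (ee κ (ga ℤ m i1.1)) i1 y0) u = 0 := by
  constructor
  · rintro ⟨h1, h2, h3⟩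
    ext1 c
    rw [Pi.zero_apply]
    rcases c with j | z
    · by_cases hj : m j = 0
      · rw [D0_inl' _ _ _ _ _ _ hj]
      · have h := fun x y => D0_inl (k := ℤ) x y i1 y0 u ⟨j, hj⟩
        simp only at h
        rw [h]
        exact h1 ⟨j, hj⟩
    · by_cases hz : z = y0
      · subst hz
        rw [D0_inr0, cf_xx, cf_ee, h3]
      · rw [D0_inr _ _ _ _ _ _ hz, h2 z hz]
  · intro h
    refine ⟨fun i => ?_, fun z hz => ?_, ?_⟩
    · rw [← D0_inl (k := ℤ) (xx κ (ga ℤ m i1.1) (ga ℤ m j0)) (ee κ (ga ℤ m i1.1)) i1 y0 u i, h]; rfl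
    · have h' := congrFun h (Sum.inr z)
      rw [D0_inr _ _ _ _ _ _ hz] at h'
      exact h'
    · have h' := congrFun h (Sum.inr y0)
      rw [D0_inr0, cf_xx, cf_ee] at h'
      exact h'

open Classical in
/-- the matrix of the standard complex: the row of the relator `a_i ^ m_i` is `N_i e_i`, the row of a further
generator `z`, which is equal to `w z` in `G`, is `e_z - ∑ c z j e_j`, where
`w z - 1 = ∑ c z j (a_j - 1)` -/
noncomputable def stdM (c : Y → J → RG ℤ m) : Matrix (FJ m ⊕ Y) (J ⊕ Y) (RG ℤ m) :=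
  fun r s => match r, s with
    | Sum.inl i, Sum.inl j =>
      if i.1 = j then ∑ t ∈ Finset.range (m j), MonoidAlgebra.single (gen m j) 1 ^ t else 0
    | Sum.inl _, Sum.inr _ => 0
    | Sum.inr z, Sum.inl j => -(c z j)
    | Sum.inr z', Sum.inr z => if z' = z then 1 else 0

theorem stdM_eq (c : Y → J → RG ℤ m) (i1 : FJ m) (y0 : Y) : stdM c = D0 0 1 i1 y0 * Tm c := by
  classical
  refine Matrix.ext fun r s => ?_
  rw [Matrix.mul_apply, Fintype.sum_sum_type]
  rcases r with i | z <;> rcases s with j | z'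
  · simp only [stdM, D0, Tm, mul_neg, Finset.sum_neg_distrib]
    have e1 : ∑ x : J, (if i.1 = x then nn (m x) (ga ℤ m x) else 0) * (if x = j then 1 else 0) =
        if i.1 = j then nn (m j) (ga ℤ m j) else 0 := by
      rw [Finset.sum_eq_single j]
      · rw [if_pos rfl, mul_one]
      · intro x _ hx
        rw [if_neg hx, mul_zero]
      · intro h; exact absurd (Finset.mem_univ j) h
    have e2 : ∑ x : Y, (if i = i1 ∧ x = y0 then (0 : RG ℤ m) else 0) * c x j = 0 := by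
      refine Finset.sum_eq_zero fun x _ => ?_
      split_ifs <;> rw [zero_mul]
    rw [e1, e2, neg_zero, add_zero]
    rfl
  · simp only [stdM, D0, Tm, mul_zero, Finset.sum_const_zero, zero_add]
    have e3 : ∑ x : Y, (if i = i1 ∧ x = y0 then (0 : RG ℤ m) else 0) *
        (if x = z' then 1 else 0) = 0 := by
      refine Finset.sum_eq_zero fun x _ => ?_
      split_ifs <;> rw [zero_mul]
    exact e3.symm
  · simp only [stdM, D0, Tm, zero_mul, Finset.sum_const_zero, zero_add]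
    rw [Finset.sum_eq_single z]
    · rw [if_pos rfl]
      split_ifs <;> simp
    · intro x _ hx
      rw [if_neg hx.symm, zero_mul]
    · intro h; exact absurd (Finset.mem_univ z) h
  · simp only [stdM, D0, Tm, mul_zero, Finset.sum_const_zero, zero_add]
    rw [Finset.sum_eq_single z]
    · rw [if_pos rfl]
      split_ifs <;> simp
    · intro x _ hx
      rw [if_neg hx.symm, zero_mul]
    · intro h; exact absurd (Finset.mem_univ z) h

theorem stdM_eq' (c : Y → J → RG ℤ m) (i1 : FJ m) (y0 : Y) :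
    stdM c = DD (Equiv.refl _) c 0 1 i1 y0 := by
  rw [stdM_eq c i1 y0]; rfl

/-- The negative theorem, relative to the standard complex. -/
theorem negative (m : J → ℕ) [Nonempty Y] (w : Y → Gp m) (c : Y → J → RG ℤ m)
    (hc : ∀ z, MonoidAlgebra.single (w z) 1 - 1 =
      ∑ j, c z j * (MonoidAlgebra.single (gen m j) 1 - 1))
    (j0 j1 : J) (h0 : m j0 = 0) (h1 : 3 ≤ m j1) :
    ∃ D : Matrix (FJ m ⊕ Y) (J ⊕ Y) (RG ℤ m),
      (∀ (k : Type) [CommRing k],
        IsBd2 k (gX m w) (bdM k (stdM c)) ∧ IsBd2 k (gX m w) (bdM k D)) ∧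
      (∀ (F : Type) [Field F], LadderIso F (bdM F (stdM c)) (bdM F D)) ∧
      LadderIso ℤ (bdM ℤ (zrow (stdM c))) (bdM ℤ (zrow D)) ∧
      IsEmpty (LinearMap.ker (bdM ℤ (stdM c)) ≃ₗ[RG ℤ m] LinearMap.ker (bdM ℤ D)) := by
  classical
  obtain ⟨y0⟩ := ‹Nonempty Y›
  obtain ⟨i1, hi1⟩ : ∃ i1 : FJ m, i1.1 = j1 := ⟨⟨j1, by omega⟩, rfl⟩
  subst hi1
  obtain ⟨p, hp, μ, κ, hμ, hk, hMp, hQ, hcop⟩ := exists_params (m i1.1) h1
  obtain ⟨V, T0, E, hT⟩ := exists_T0 (m i1.1) κ hcop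
  set e0 : FJ m ⊕ Y ≃ Co m Y := Equiv.refl _ with he0
  rw [stdM_eq' c i1 y0, ← he0]
  set x := xx κ (ga ℤ m i1.1) (ga ℤ m j0) with hx
  set y := ee κ (ga ℤ m i1.1) with hy
  refine ⟨DD e0 c x y i1 y0, ?_, ?_, ?_, ?_⟩
  · intro k _
    exact ⟨isBd2_of k e0 w c hc 0 1 i1 y0 (range_std_iff i1 y0),
      isBd2_of k e0 w c hc x y i1 y0
        (fun v => (range_exotic_iff i1 y0 j0 hT v).trans (range_std_iff i1 y0 v))⟩
  · intro F _
    have ha := ga_pow (m := m) F i1.1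
    have hex : ∃ e : (RG F m × RG F m) ≃ₗ[RG F m] (RG F m × RG F m),
        (∀ v, (e v).1 * nn (m i1.1) (ga F m i1.1) = v.1 * nn (m i1.1) (ga F m i1.1)) ∧
        ∀ v, (e v).2 = v.1 * xx κ (ga F m i1.1) (ga F m j0) + v.2 * ee κ (ga F m i1.1) := by
      by_cases hQF : ((QQ (m i1.1) κ : ℤ) : F) = 0
      · refine pair_zero ha hT _ ?_
        rw [← map_intCast (algebraMap F (RG F m)), hQF, map_zero]
      · refine pair_unit ha _ (algebraMap F (RG F m) ((QQ (m i1.1) κ : ℤ) : F)⁻¹) ?_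
        rw [← map_intCast (algebraMap F (RG F m)), ← map_mul, inv_mul_cancel₀ hQF, map_one]
    obtain ⟨e, he1, he2⟩ := hex
    refine ladder_of_pair e0 c x y i1 y0 e he1 ?_
    rw [hx, hy, cf_xx, cf_ee]
    exact he2
  · obtain ⟨e, he1, he2⟩ := pair_stable (ga_pow (m := m) ℤ i1.1) hT (ga ℤ m j0)
    refine ladder_stable e0 c x y i1 y0 e he1 ?_
    rw [hx, hy, cf_xx, cf_ee]
    exact he2
  · refine ⟨fun θ => ?_⟩
    set R := LinearEquiv.funCongrLeft (RG ℤ m) (RG ℤ m) e0.symm with hR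
    have hRa : ∀ v, R v = v ∘ e0.symm := fun v => rfl
    have hker : ∀ x' y' : RG ℤ m, ∀ v, v ∈ LinearMap.ker (bdM ℤ (DD e0 c x' y' i1 y0)) ↔
        bdM ℤ (D0 x' y' i1 y0) (R v) = 0 := by
      intro x' y' v
      rw [LinearMap.mem_ker, DD_apply, ← hRa, LinearEquiv.map_eq_zero_iff]
    have hm0 : (LinearMap.ker (bdM ℤ (DD e0 c 0 1 i1 y0))).map
        (R : (Co m Y → RG ℤ m) →ₗ[RG ℤ m] (Co m Y → RG ℤ m)) = K0 ℤ m Y := by
      ext u
      rw [Submodule.mem_map, mem_K0_iff i1 y0]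
      constructor
      · rintro ⟨v, hv, rfl⟩
        exact (hker _ _ _).1 hv
      · intro hu
        refine ⟨R.symm u, ?_, LinearEquiv.apply_symm_apply R u⟩
        rw [hker, LinearEquiv.apply_symm_apply]; exact hu
    have hm1 : (LinearMap.ker (bdM ℤ (DD e0 c x y i1 y0))).map
        (R : (Co m Y → RG ℤ m) →ₗ[RG ℤ m] (Co m Y → RG ℤ m)) = K1 x y i1 y0 := by
      ext u
      rw [Submodule.mem_map, hx, hy, mem_K1_iff i1 y0 j0, ← hx, ← hy]
      constructor
      · rintro ⟨v, hv, rfl⟩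
        exact (hker _ _ _).1 hv
      · intro hu
        refine ⟨R.symm u, ?_, LinearEquiv.apply_symm_apply R u⟩
        rw [hker, LinearEquiv.apply_symm_apply]; exact hu
    refine (no_kernel_iso j0 h0 i1 h1 y0 μ hμ κ V T0 E hk hMp hQ hT).false ?_
    exact ((R.ofSubmodules _ _ hm0).symm.trans θ).trans (R.ofSubmodules _ _ hm1)

end ExoticGen
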