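import Pool.Agent.Lib.MP_2d4659_gt.FP.Gdefs

/-!
# Homomorphisms from a free product of cyclic groups, induction
-/

set_option autoImplicit false

namespace ExoticGen

open FP

/-- the homomorphism from a cyclic group given by an element -/
def cychom {H : Type*} [Group H] (n : ℕ) (u : H) (hu : u ^ n = 1) :
    Multiplicative (ZMod n) →* H :=
  AddMonoidHom.toMultiplicativeLeft (ZMod.lift n ⟨zmultiplesHom (Additive H) (Additive.ofMul u), by
    rw [zmultiplesHom_apply]
    show Additive.ofMul (u ^ (n : ℤ)) = 0
    rw [zpow_natCast, hu]; rfl⟩)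

theorem cychom_int {H : Type*} [Group H] (n : ℕ) (u : H) (hu : u ^ n = 1) (c : ℤ) :
    cychom n u hu (Multiplicative.ofAdd (c : ZMod n)) = u ^ c := by
  unfold cychom
  show Additive.toMul (ZMod.lift n _ (c : ZMod n)) = u ^ c
  rw [ZMod.lift_coe]
  rfl

theorem cychom_one {H : Type*} [Group H] (n : ℕ) (u : H) (hu : u ^ n = 1) :
    cychom n u hu (Multiplicative.ofAdd 1) = u := by
  have h := cychom_int n u hu 1
  rwa [Int.cast_one, zpow_one] at h

variable {J : Type} {m : J → ℕ}

/-- the homomorphism from `G` given by the images of the generators -/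
def ghom {H : Type*} [Group H] (u : J → H) (hu : ∀ j, u j ^ m j = 1) : Gp m →* H :=
  Monoid.CoprodI.lift (fun j => cychom (m j) (u j) (hu j))

theorem ghom_gen {H : Type*} [Group H] (u : J → H) (hu : ∀ j, u j ^ m j = 1) (j : J) :
    ghom u hu (gen m j) = u j := by
  unfold ghom gen
  rw [Monoid.CoprodI.lift_of, cychom_one]

theorem of_eq (j : J) (c : ℤ) :
    (Monoid.CoprodI.of (M := fun j => Multiplicative (ZMod (m j))) (i := j)
      (Multiplicative.ofAdd (c : ZMod (m j))) : Gp m) = gen m j ^ c := by
  unfold gen
  rw [← map_zpow, ← ofAdd_zsmul]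
  simp

theorem Gp_induction {motive : Gp m → Prop} (one : motive 1)
    (ma : ∀ g j, motive g → motive (g * gen m j))
    (mb : ∀ g j, motive g → motive (g * (gen m j)⁻¹)) (g : Gp m) : motive g := by
  have key : ∀ g h : Gp m, motive h → motive (h * g) := by
    intro g
    induction g using Monoid.CoprodI.induction_on with
    | one => intro h hh; rwa [mul_one]
    | of j x =>
      intro h hh
      obtain ⟨c, hc⟩ : ∃ c : ℤ, x = Multiplicative.ofAdd (c : ZMod (m j)) :=
        ⟨(Multiplicative.toAdd x).cast, by simp⟩
      rw [hc, of_eq]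
      clear hc
      induction c using Int.induction_on with
      | zero => simpa using hh
      | succ n ih => rw [zpow_add_one, ← mul_assoc]; exact ma _ _ ih
      | pred n ih => rw [zpow_sub_one, ← mul_assoc]; exact mb _ _ ih
    | mul x y hx hy =>
      intro h hh
      rw [← mul_assoc]; exact hy _ (hx _ hh)
  simpa using key g 1 one

end ExoticGen
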