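import Pool.Agent.Lib.MP_2d4659_gt.EX85.Poly
import Pool.Agent.Lib.MP_2d4659_gt.EX85.Grp

/-!
# The group ring of a free product of cyclic groups: kernels, Fox derivatives
-/

set_option autoImplicit false

namespace ExoticGen

open FP

variable {J : Type}

/-- The group ring. -/
abbrev KG (k : Type*) [CommRing k] (m : J → ℕ) : Type _ := MonoidAlgebra k (Gp m)

variable {m : J → ℕ}

/-- the generator `a_j` in the group ring -/
noncomputable def ga (k : Type*) [CommRing k] (m : J → ℕ) (j : J) : KG k m :=
  MonoidAlgebra.single (gen m j) 1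

section
variable (k : Type*) [CommRing k]

theorem ga_pow (j : J) : ga k m j ^ m j = 1 := by
  unfold ga
  rw [MonoidAlgebra.single_pow, gen_pow_card, one_pow]; rfl

/-- The augmentation. -/
noncomputable def aug (m : J → ℕ) : KG k m →ₐ[k] k := MonoidAlgebra.lift k k (Gp m) 1

theorem aug_single (g : Gp m) (r : k) : aug k m (MonoidAlgebra.single g r) = r := by
  unfold aug
  rw [MonoidAlgebra.lift_single]
  simp

end

/-! ### The part of degree zero -/

section
variable {k : Type*} [CommRing k]

/-- the projection of `G` to the `j`-th factor -/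
noncomputable def chi (m : J → ℕ) (j : J) : Gp m →* Multiplicative (ZMod (m j)) :=
  open Classical in
  ghom (m := m) (fun i => if i = j then Multiplicative.ofAdd 1 else 1) (by
    intro i
    by_cases h : i = j
    · subst h
      simp only [if_true]
      rw [← ofAdd_nsmul, nsmul_one, ZMod.natCast_self, ofAdd_zero]
    · simp only [if_neg h, one_pow])

theorem chi_gen (j : J) : chi m j (gen m j) = Multiplicative.ofAdd 1 := by
  unfold chi
  rw [ghom_gen, if_pos rfl]

open Classical in
/-- homogeneous component -/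
noncomputable def part (j : J) (c : ZMod (m j)) (p : KG k m) : KG k m :=
  MonoidAlgebra.ofCoeff (p.coeff.filter (fun g => (chi m j g).toAdd = c))

theorem part_coeff (j : J) (c : ZMod (m j)) (p : KG k m) (g : Gp m) [Decidable ((chi m j g).toAdd = c)] :
    (part j c p).coeff g = if (chi m j g).toAdd = c then p.coeff g else 0 := by
  classical
  unfold part
  rw [MonoidAlgebra.coeff_ofCoeff, Finsupp.filter_apply]
  congr

theorem mul_ga_coeff (j : J) (p : KG k m) (g : Gp m) :
    (p * ga k m j).coeff g = p.coeff (g * (gen m j)⁻¹) := by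
  unfold ga
  rw [MonoidAlgebra.coeff_mul_single_apply, mul_one]

theorem mul_ga_pow_coeff (j : J) (p : KG k m) (c : ℕ) (g : Gp m) :
    (p * ga k m j ^ c).coeff g = p.coeff (g * (gen m j ^ c)⁻¹) := by
  unfold ga
  rw [MonoidAlgebra.single_pow, one_pow, MonoidAlgebra.coeff_mul_single_apply, mul_one]

theorem chi_pow_inv (j : J) (g : Gp m) (c : ℕ) :
    (chi m j (g * (gen m j ^ c)⁻¹)).toAdd = (chi m j g).toAdd - c := by
  rw [map_mul, map_inv, map_pow, chi_gen, toAdd_mul, toAdd_inv, toAdd_pow, toAdd_ofAdd, nsmul_one,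
    sub_eq_add_neg]

/-- an element with `p a = p` is a multiple of the norm element -/
theorem ker_am1 (j : J) (hj : m j ≠ 0) (p : KG k m) (h : p * (ga k m j - 1) = 0) :
    ∃ v, p = v * nn (m j) (ga k m j) := by
  classical
  have : NeZero (m j) := ⟨hj⟩
  refine ⟨part j 0 p, ?_⟩
  have h' : p * ga k m j = p := by
    have : p * ga k m j - p = 0 := by rw [← h]; noncomm_ring
    exact sub_eq_zero.1 this
  have h1 : ∀ c : ℕ, p * ga k m j ^ c = p := by
    intro c
    induction c with
    | zero => simp
    | succ c ih => rw [pow_succ, ← mul_assoc, ih, h']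
  have h2 : ∀ (c : ℕ) (g : Gp m), p.coeff (g * (gen m j ^ c)⁻¹) = p.coeff g := by
    intro c g
    rw [← mul_ga_pow_coeff, h1]
  ext g
  unfold nn
  rw [Finset.mul_sum, MonoidAlgebra.coeff_sum, Finsupp.finsetSum_apply]
  simp only [mul_ga_pow_coeff, part_coeff, chi_pow_inv, h2]
  rw [Finset.sum_ite]
  simp only [Finset.sum_const_zero, add_zero, Finset.sum_const]
  have hcard : (Finset.filter (fun c : ℕ => (chi m j g).toAdd - (c : ZMod (m j)) = 0)
      (Finset.range (m j))).card = 1 := by
    rw [Finset.card_eq_one]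
    refine ⟨(chi m j g).toAdd.val, ?_⟩
    ext c
    rw [Finset.mem_filter, Finset.mem_range, Finset.mem_singleton, sub_eq_zero]
    constructor
    · rintro ⟨hc, h⟩
      rw [h, ZMod.val_natCast, Nat.mod_eq_of_lt hc]
    · rintro rfl
      exact ⟨ZMod.val_lt _, by rw [ZMod.natCast_zmod_val]⟩
  rw [hcard, one_smul]

/-- for an infinite factor `a - 1` is not a right zero divisor -/
theorem ker_am1_inf (j : J) (hj : m j = 0) (p : KG k m) (h : p * (ga k m j - 1) = 0) : p = 0 := by
  classical
  have h' : p * ga k m j = p := by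
    have : p * ga k m j - p = 0 := by rw [← h]; noncomm_ring
    exact sub_eq_zero.1 this
  have h1 : ∀ c : ℕ, p * ga k m j ^ c = p := by
    intro c
    induction c with
    | zero => simp
    | succ c ih => rw [pow_succ, ← mul_assoc, ih, h']
  have h2 : ∀ (c : ℕ) (g : Gp m), p.coeff (g * (gen m j ^ c)⁻¹) = p.coeff g := by
    intro c g
    rw [← mul_ga_pow_coeff, h1]
  ext g
  rw [MonoidAlgebra.coeff_zero, Finsupp.zero_apply]
  by_contra hg
  have hinj : Function.Injective (fun c : ℕ => g * (gen m j ^ c)⁻¹) := by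
    intro c c' hc
    have h3 := congrArg (fun g => (chi m j g).toAdd) hc
    simp only [chi_pow_inv] at h3
    have h4 : ((c : ZMod (m j)) = (c' : ZMod (m j))) := sub_right_injective h3
    rw [ZMod.natCast_eq_natCast_iff, hj] at h4
    exact Nat.modEq_zero_iff.1 h4
  have hsub : Set.range (fun c : ℕ => g * (gen m j ^ c)⁻¹) ⊆ (p.coeff.support : Set (Gp m)) := by
    rintro _ ⟨c, rfl⟩
    rw [Finset.mem_coe, Finsupp.mem_support_iff, h2]
    exact hg
  exact (Set.infinite_range_of_injective hinj) ((Finset.finite_toSet _).subset hsub)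

/-- an element with `p N = 0` is a multiple of `a - 1` -/
theorem kerN (j : J) (hj : m j ≠ 0) (p : KG k m) (h : p * nn (m j) (ga k m j) = 0) :
    ∃ v, p = v * (ga k m j - 1) := by
  classical
  have : NeZero (m j) := ⟨hj⟩
  refine ⟨∑ i ∈ Finset.range (m j), part j (-(i : ZMod (m j))) p * ga k m j ^ i *
    ∑ l ∈ Finset.range (m j - i), ga k m j ^ l, ?_⟩
  have hA : ∑ i ∈ Finset.range (m j), part j (-(i : ZMod (m j))) p = p := by
    ext g
    rw [MonoidAlgebra.coeff_sum, Finsupp.finsetSum_apply]
    simp only [part_coeff]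
    rw [Finset.sum_ite]
    simp only [Finset.sum_const_zero, add_zero, Finset.sum_const]
    have hcard : (Finset.filter (fun i : ℕ => (chi m j g).toAdd = -(i : ZMod (m j)))
        (Finset.range (m j))).card = 1 := by
      rw [Finset.card_eq_one]
      refine ⟨(-(chi m j g).toAdd).val, ?_⟩
      ext c
      rw [Finset.mem_filter, Finset.mem_range, Finset.mem_singleton]
      constructor
      · rintro ⟨hc, h⟩
        rw [h, neg_neg, ZMod.val_natCast, Nat.mod_eq_of_lt hc]
      · rintro rfl
        exact ⟨ZMod.val_lt _, by rw [ZMod.natCast_zmod_val, neg_neg]⟩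
    rw [hcard, one_smul]
  have hB : ∑ i ∈ Finset.range (m j), part j (-(i : ZMod (m j))) p * ga k m j ^ i = 0 := by
    ext g
    rw [MonoidAlgebra.coeff_sum, Finsupp.finsetSum_apply]
    simp only [mul_ga_pow_coeff, part_coeff, chi_pow_inv]
    have h5 := congrArg (fun q : KG k m => q.coeff g) h
    simp only [nn, Finset.mul_sum, MonoidAlgebra.coeff_sum, Finsupp.finsetSum_apply,
      mul_ga_pow_coeff, MonoidAlgebra.coeff_zero, Finsupp.zero_apply] at h5
    rw [MonoidAlgebra.coeff_zero, Finsupp.zero_apply]
    by_cases hg : (chi m j g).toAdd = 0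
    · rw [← h5]
      refine Finset.sum_congr rfl fun i _ => ?_
      rw [if_pos (by rw [hg, zero_sub])]
    · refine Finset.sum_eq_zero fun i _ => ?_
      rw [if_neg]
      intro h6
      apply hg
      rwa [sub_eq_neg_self] at h6
  have hC : ∀ i ∈ Finset.range (m j), part j (-(i : ZMod (m j))) p * ga k m j ^ i *
      (∑ l ∈ Finset.range (m j - i), ga k m j ^ l) * (ga k m j - 1) =
      part j (-(i : ZMod (m j))) p - part j (-(i : ZMod (m j))) p * ga k m j ^ i := by
    intro i hi
    rw [mul_assoc _ _ (ga k m j - 1), geom_sum_mul, mul_sub, mul_one, mul_assoc, ← pow_add,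
      Nat.add_sub_cancel' (Finset.mem_range.1 hi).le, ga_pow, mul_one]
  rw [Finset.sum_mul, Finset.sum_congr rfl hC, Finset.sum_sub_distrib, hA, hB, sub_zero]

end

/-! ### Fox derivatives and the augmentation ideal -/

section
variable {k : Type*} [CommRing k]

/-- `g ↦ [[g, g - 1], [0, 1]]` -/
noncomputable def foxU (k : Type*) [CommRing k] (m : J → ℕ) :
    Gp m →* Matrix (Fin 2) (Fin 2) (KG k m) where
  toFun g := !![MonoidAlgebra.single g 1, MonoidAlgebra.single g 1 - 1; 0, 1]
  map_one' := by
    rw [← MonoidAlgebra.one_def]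
    ext i j; fin_cases i <;> fin_cases j <;> simp
  map_mul' g h := by
    have e : (MonoidAlgebra.single (g * h) (1 : k) : KG k m) =
      MonoidAlgebra.single g 1 * MonoidAlgebra.single h 1 := by
      rw [MonoidAlgebra.single_mul_single, mul_one]
    rw [e]
    ext i j
    fin_cases i <;> fin_cases j <;> simp [Matrix.mul_apply, Fin.sum_univ_two, mul_sub]

/-- `g ↦ [[g, 0], [0, 1]]` -/
noncomputable def foxD (k : Type*) [CommRing k] (m : J → ℕ) :
    Gp m →* Matrix (Fin 2) (Fin 2) (KG k m) where
  toFun g := !![MonoidAlgebra.single g 1, 0; 0, 1]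
  map_one' := by
    rw [← MonoidAlgebra.one_def]
    ext i j; fin_cases i <;> fin_cases j <;> simp
  map_mul' g h := by
    have e : (MonoidAlgebra.single (g * h) (1 : k) : KG k m) =
      MonoidAlgebra.single g 1 * MonoidAlgebra.single h 1 := by
      rw [MonoidAlgebra.single_mul_single, mul_one]
    rw [e]
    ext i j
    fin_cases i <;> fin_cases j <;> simp [Matrix.mul_apply, Fin.sum_univ_two]

open Classical in
/-- the Fox derivative, as a representation -/
noncomputable def foxHom (k : Type*) [CommRing k] (m : J → ℕ) (j : J) :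
    Gp m →* Matrix (Fin 2) (Fin 2) (KG k m) :=
  Monoid.CoprodI.lift (fun i => (if i = j then foxU k m else foxD k m).comp
    (Monoid.CoprodI.of (M := fun j => Multiplicative (ZMod (m j))) (i := i)))

theorem foxHom_gen_self (j : J) : foxHom k m j (gen m j) = !![ga k m j, ga k m j - 1; 0, 1] := by
  unfold foxHom gen
  rw [Monoid.CoprodI.lift_of, if_pos rfl]
  rfl

theorem foxHom_gen_ne {i j : J} (h : i ≠ j) : foxHom k m j (gen m i) = !![ga k m i, 0; 0, 1] := by
  unfold foxHom gen
  rw [Monoid.CoprodI.lift_of, if_neg h]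
  rfl

theorem foxHom_struct (j : J) (g : Gp m) : foxHom k m j g 0 0 = MonoidAlgebra.single g 1 ∧
    foxHom k m j g 1 0 = 0 ∧ foxHom k m j g 1 1 = 1 := by
  classical
  induction g using Monoid.CoprodI.induction_on with
  | one => rw [map_one]; exact ⟨rfl, rfl, rfl⟩
  | of i x =>
    have e : foxHom k m j (Monoid.CoprodI.of x) =
        (if i = j then foxU k m else foxD k m) (Monoid.CoprodI.of x) :=
      Monoid.CoprodI.lift_of _ _
    rw [e]
    by_cases h : i = j
    · rw [if_pos h]; exact ⟨rfl, rfl, rfl⟩
    · rw [if_neg h]; exact ⟨rfl, rfl, rfl⟩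
  | mul x y hx hy =>
    obtain ⟨a1, a2, a3⟩ := hx
    obtain ⟨b1, b2, b3⟩ := hy
    rw [map_mul]
    simp [Matrix.mul_apply, Fin.sum_univ_two, a1, a2, a3, b1, b2, b3,
      MonoidAlgebra.single_mul_single]

/-- linear extension -/
noncomputable def fox (k : Type*) [CommRing k] (m : J → ℕ) (j : J) :
    KG k m →ₐ[k] Matrix (Fin 2) (Fin 2) (KG k m) := MonoidAlgebra.lift k _ (Gp m) (foxHom k m j)

theorem fox_self (j : J) : fox k m j (ga k m j) = !![ga k m j, ga k m j - 1; 0, 1] := by
  unfold fox
  conv_lhs => rw [ga]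
  rw [MonoidAlgebra.lift_single, one_smul, foxHom_gen_self]

theorem fox_ne {i j : J} (h : i ≠ j) : fox k m j (ga k m i) = !![ga k m i, 0; 0, 1] := by
  unfold fox
  conv_lhs => rw [ga]
  rw [MonoidAlgebra.lift_single, one_smul, foxHom_gen_ne h]

theorem fox_zero_zero (j : J) (p : KG k m) : fox k m j p 0 0 = p := by
  induction p using MonoidAlgebra.induction_linear with
  | zero => simp
  | add x y hx hy => rw [map_add, Matrix.add_apply, hx, hy]
  | single g r =>
    unfold fox
    rw [MonoidAlgebra.lift_single, Matrix.smul_apply, (foxHom_struct j g).1,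
      MonoidAlgebra.smul_single, smul_eq_mul, mul_one]

theorem fox_mul_am1_self (j : J) (p : KG k m) :
    fox k m j (p * (ga k m j - 1)) 0 1 = p * (ga k m j - 1) := by
  rw [map_mul, map_sub, fox_self, map_one]
  simp [Matrix.mul_apply, Fin.sum_univ_two, fox_zero_zero]

theorem fox_mul_am1_ne {i j : J} (h : i ≠ j) (p : KG k m) :
    fox k m j (p * (ga k m i - 1)) 0 1 = 0 := by
  rw [map_mul, map_sub, fox_ne h, map_one]
  simp [Matrix.mul_apply, Fin.sum_univ_two]

/-- the augmentation ideal is the direct sum of the left ideals generated by `a_j - 1` -/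
theorem fox_kernel [Fintype J] (v : J → KG k m) (h : ∑ j, v j * (ga k m j - 1) = 0) (j : J) :
    v j * (ga k m j - 1) = 0 := by
  classical
  have h1 := congrArg (fun q => fox k m j q 0 1) h
  simp only [map_sum, Matrix.sum_apply, map_zero, Matrix.zero_apply] at h1
  rw [Finset.sum_eq_single j (fun i _ hi => fox_mul_am1_ne hi _)
    (fun h => absurd (Finset.mem_univ j) h), fox_mul_am1_self] at h1
  exact h1

theorem single_sub_one [Fintype J] (g : Gp m) : ∃ v : J → KG k m,
    MonoidAlgebra.single g (1 : k) - 1 = ∑ j, v j * (ga k m j - 1) := by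
  classical
  induction g using Gp_induction with
  | one => exact ⟨0, by rw [← MonoidAlgebra.one_def]; simp⟩
  | ma g j ih =>
    obtain ⟨v, h⟩ := ih
    refine ⟨v + Pi.single j (MonoidAlgebra.single g 1), ?_⟩
    have e : MonoidAlgebra.single (g * gen m j) (1 : k) = MonoidAlgebra.single g 1 * ga k m j := by
      unfold ga; rw [MonoidAlgebra.single_mul_single, mul_one]
    simp only [Pi.add_apply, add_mul, Finset.sum_add_distrib]
    rw [← h, Finset.sum_eq_single (s := Finset.univ) j
      (f := fun i => (Pi.single j (MonoidAlgebra.single g (1 : k)) : J → KG k m) i * (ga k m i - 1))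
      (fun i _ hi => by rw [Pi.single_eq_of_ne hi, zero_mul])
      (fun h => absurd (Finset.mem_univ j) h), Pi.single_eq_same, e]
    noncomm_ring
  | mb g j ih =>
    obtain ⟨v, h⟩ := ih
    refine ⟨v - Pi.single j (MonoidAlgebra.single (g * (gen m j)⁻¹) 1), ?_⟩
    have e : MonoidAlgebra.single g (1 : k) =
        MonoidAlgebra.single (g * (gen m j)⁻¹) 1 * ga k m j := by
      unfold ga; rw [MonoidAlgebra.single_mul_single, mul_one, inv_mul_cancel_right]
    simp only [Pi.sub_apply, sub_mul, Finset.sum_sub_distrib]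
    rw [← h, Finset.sum_eq_single (s := Finset.univ) j
      (f := fun i => (Pi.single j (MonoidAlgebra.single (g * (gen m j)⁻¹) (1 : k)) : J → KG k m) i *
        (ga k m i - 1))
      (fun i _ hi => by rw [Pi.single_eq_of_ne hi, zero_mul])
      (fun h => absurd (Finset.mem_univ j) h), Pi.single_eq_same]
    nth_rewrite 1 [e]
    noncomm_ring

theorem aug_decomp [Fintype J] (x : KG k m) : ∃ v : J → KG k m,
    x = algebraMap k (KG k m) (aug k m x) + ∑ j, v j * (ga k m j - 1) := by
  induction x using MonoidAlgebra.induction_linear with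
  | zero => exact ⟨0, by simp⟩
  | add x y hx hy =>
    obtain ⟨p, h⟩ := hx
    obtain ⟨p', h'⟩ := hy
    refine ⟨p + p', ?_⟩
    simp only [Pi.add_apply, add_mul, Finset.sum_add_distrib]
    rw [map_add, map_add]
    nth_rewrite 1 [h, h']
    abel
  | single g r =>
    obtain ⟨v, h⟩ := single_sub_one (k := k) g
    refine ⟨fun j => r • v j, ?_⟩
    simp only [smul_mul_assoc]
    rw [aug_single, ← Finset.smul_sum, ← h, Algebra.algebraMap_eq_smul_one,
      ← smul_add, add_sub_cancel, MonoidAlgebra.smul_single, smul_eq_mul, mul_one]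

end

end ExoticGen
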