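import Pool.Agent.Lib.MP_2d4659_gt.EX85.Contra

/-!
# Infinitely many exotic complexes: computations in the skew ring
-/

set_option autoImplicit false

open Polynomial

namespace ExoticGen

section
variable (M : ℕ) [hM : NeZero M]

/-- `[[0, T g], [g, 0]]` -/
noncomputable def Hm (g : ℤ[X]) : Mt M :=
  !![0, X * g.map (Int.castRingHom (OO M)); g.map (Int.castRingHom (OO M)), 0]

/-- `diag (z, conj z)` in the skew ring -/
noncomputable def dS (z : OO M) : SS M := ⟨dg M z, dg_mem M z⟩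

theorem zeta_ne_one (hM3 : 3 ≤ M) : (zeta M - 1 : OO M) ≠ 0 :=
  sub_ne_zero.2 ((zeta_prim M).ne_one (by omega))

theorem cc_ee_zeta (k : ℤ) : cc M k (zeta M) * ee k (zeta M) = ((QQ M k : ℤ) : OO M) :=
  cc_ee (zeta_prim M).pow_eq_one

theorem coe_cc (k : ℤ) : ((cc M k (ZZ M) : SS M) : Mt M) = dg M (cc M k (zeta M)) := coe_ev M _

theorem eq_dS {w : SS M} (h1 : (w : Mt M) 1 0 = 0) {α : OO M} (h2 : (w : Mt M) 0 0 = C α) :
    w = dS M α := by
  have e01 := SS_01 w.2
  have e11 := SS_11 w.2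
  rw [h1] at e01
  rw [h2] at e11
  apply Subtype.ext
  show (w : Mt M) = dg M α
  unfold dg
  ext i j
  fin_cases i <;> fin_cases j
  · simp [h2]
  · simp [e01]
  · simp [h1]
  · simp [e11]

theorem const_of_mul {r w : SS M} {q : OO M} (hq : q ≠ 0) (h : r * w = dS M q) :
    ∃ α, w = dS M α := by
  have hdet : ((r : Mt M) * (w : Mt M)).det = C (q * conj M q) := by
    have e : ((r : Mt M) * (w : Mt M)) = dg M q := congrArg (fun x : SS M => (x : Mt M)) h
    rw [e, dg, Matrix.det_fin_two]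
    simp
  obtain ⟨h1, α, h2⟩ := deg_zero M w.2
    (mul_ne_zero hq ((map_ne_zero_iff _ (conj_inj M)).2 hq)) hdet
  exact ⟨α, eq_dS M h1 h2⟩

theorem dS_mul (z z' : OO M) : dS M z * dS M z' = dS M (z * z') := Subtype.ext (dg_mul M z z')

theorem dS_inj {z z' : OO M} (h : dS M z = dS M z') : z = z' := by
  have h1 : dg M z = dg M z' := congrArg (fun x : SS M => (x : Mt M)) h
  have h2 := congrFun (congrFun h1 0) 0
  simpa [dg] using h2

theorem am1_dS : ZZ M - 1 = dS M (zeta M - 1) := Subtype.ext (coe_am1 M)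

theorem int_dS (n : ℤ) : (n : SS M) = dS M (n : OO M) := Subtype.ext (dg_int M n)

/-- Lemma B -/
theorem lemB (hM3 : 3 ≤ M) {Q : ℤ} (hQ : Q ≠ 0) {A B r r' : SS M}
    (h1 : r * (ZZ M - 1) = A) (h2 : r * B = (Q : SS M) * (Q : SS M) * (ZZ M - 1))
    (h3 : r' * A = (Q : SS M) * (Q : SS M) * (ZZ M - 1)) :
    ∃ α β : OO M, A = dS M α ∧ B = dS M β ∧
      α * β = (Q : OO M) * (Q : OO M) * ((zeta M - 1) * (zeta M - 1)) := by
  have hz := zeta_ne_one M hM3
  have hq : (Q : OO M) * (Q : OO M) * (zeta M - 1) ≠ 0 :=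
    mul_ne_zero (mul_ne_zero (by exact_mod_cast hQ) (by exact_mod_cast hQ)) hz
  rw [am1_dS, int_dS, dS_mul, dS_mul] at h2 h3
  obtain ⟨α, hα⟩ := const_of_mul M hq h3
  obtain ⟨β, hβ⟩ := const_of_mul M hq h2
  refine ⟨α, β, hα, hβ, ?_⟩
  apply dS_inj M
  rw [am1_dS] at h1
  calc dS M (α * β) = (r * dS M (zeta M - 1)) * dS M β := by rw [← dS_mul, ← hα, h1]
    _ = r * dS M β * dS M (zeta M - 1) := by
        rw [mul_assoc, dS_mul, mul_comm, ← dS_mul, mul_assoc]
    _ = _ := by rw [← hβ, h2, dS_mul, mul_assoc]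

variable {F : Type*} [Field F] [NeZero (M : F)]

/-- Lemma D -/
theorem lemD (hM3 : 3 ≤ M) (μ : F) (hμ : IsPrimitiveRoot μ M) (k V : ℤ)
    (hk : ((k : F) + 1) * μ = (k : F)) (hQ : QQ M k ≠ 0) (α : OO M) (H H' e f : SS M)
    (g g' : ℤ[X]) (hH : (H : Mt M) = Hm M g) (hH' : (H' : Mt M) = Hm M g')
    (h1 : cc M k (ZZ M) * e =
      (1 - (V : SS M) * (ZZ M - 1) * ee k (ZZ M) * H * cc M k (ZZ M)) * dS M α)
    (h2 : e * (1 + ee k (ZZ M) * H') = f * ee k (ZZ M)) :
    ∃ ε : OO M, α = (QQ M k : ℤ) * ε ∧ ∀ j, red M μ hμ ε * (g'.coeff j : F) =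
      (V : F) * (μ - 1) * red M μ hμ (conj M (cc M k (zeta M))) * red M μ hμ (conj M ε) *
        (g.coeff j : F) := by
  set θ := red M μ hμ with hθ
  have hθz : θ (zeta M) = μ := red_zeta M μ hμ
  have hθz' : μ * θ (zeta' M) = 1 := by rw [← hθz, ← map_mul, zeta_mul, map_one]
  have hμ2 : μ ^ 2 ≠ 1 := hμ.pow_ne_one_of_pos_of_lt (by norm_num) (by omega)
  have hk1 : (k : F) + 1 ≠ 0 := by
    intro h
    rw [h, zero_mul] at hk
    rw [← hk, zero_add] at h
    exact one_ne_zero h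
  have hπ : θ (ee k (zeta M)) ≠ 0 := by
    have e : θ (ee k (zeta M)) = ((k : F) + 1) * (1 - μ ^ 2) := by
      rw [hom_ee, hθz, ee]
      push_cast
      linear_combination μ * hk
    rw [e]
    exact mul_ne_zero hk1 (sub_ne_zero.2 hμ2.symm)
  have hπ' : θ (conj M (ee k (zeta M))) = 0 := by
    rw [hom_ee, hom_ee, conj_zeta, ee]
    push_cast
    linear_combination θ (zeta' M) * hk - ((k : F) + 1) * hθz'
  have hce := cc_ee_zeta M k
  have hce' : conj M (cc M k (zeta M)) * conj M (ee k (zeta M)) = ((QQ M k : ℤ) : OO M) := by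
    rw [← map_mul, hce, map_intCast]
  have hQ' : ((QQ M k : ℤ) : OO M) ≠ 0 := by exact_mod_cast hQ
  have hc0 : cc M k (zeta M) ≠ 0 := by
    intro h; rw [h, zero_mul] at hce; exact hQ' hce.symm
  have hc0' : conj M (cc M k (zeta M)) ≠ 0 := by
    intro h; rw [h, zero_mul] at hce'; exact hQ' hce'.symm
  -- the equations for matrices
  have E1 := congrArg (SS M).subtype h1
  rw [map_mul, map_mul, map_sub, map_one] at E1
  simp only [map_mul] at E1
  have f1 : (SS M).subtype (ZZ M - 1) = dg M (zeta M - 1) := coe_am1 M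
  have f2 : (SS M).subtype (ee k (ZZ M)) = dg M (ee k (zeta M)) := coe_ee M k
  have f4 : (SS M).subtype (V : SS M) = dg M (V : OO M) := dg_int M V
  have f5 : (SS M).subtype (cc M k (ZZ M)) = dg M (cc M k (zeta M)) := coe_cc M k
  have f6 : (SS M).subtype (dS M α) = dg M α := rfl
  have f7 : (SS M).subtype H = Hm M g := hH
  have f8 : (SS M).subtype H' = Hm M g' := hH'
  rw [f1, f2, f4, f5, f6, f7, dg_mul, dg_mul] at E1
  have E2 := congrArg (SS M).subtype h2
  rw [map_mul, map_mul, map_add, map_one, map_mul, f2, f8] at E2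
  have e01 : (SS M).subtype e 0 1 = X * ((SS M).subtype e 1 0).map (conj M) := SS_01 e.2
  have e11 : (SS M).subtype e 1 1 = ((SS M).subtype e 0 0).map (conj M) := SS_11 e.2
  set em := (SS M).subtype e with hem
  set fm := (SS M).subtype f with hfm
  set cz := cc M k (zeta M) with hcz
  set ez := ee k (zeta M) with hez
  clear_value em fm
  have A00 := congrFun (congrFun E1 0) 0
  have A10 := congrFun (congrFun E1 1) 0
  have B00 := congrFun (congrFun E2 0) 0
  have B10 := congrFun (congrFun E2 1) 0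
  simp [dg, Hm, Matrix.mul_apply, Fin.sum_univ_two] at A00 A10 B00 B10
  rw [e01] at B00
  rw [e11] at B10
  -- constant coefficients
  have c0 := congrArg (fun p => p.coeff 0) A00
  have c1 := congrArg (fun p => p.coeff 0) B00
  simp only [coeff_C_zero, coeff_add, mul_coeff_zero, coeff_X_zero, zero_mul, add_zero] at c0 c1
  have hE00 : em 0 0 = C ((em 0 0).coeff 0) := by
    have h3 : C cz * em 0 0 = C cz * C ((em 0 0).coeff 0) := by
      rw [A00, ← C_mul, c0]
    exact mul_left_cancel₀ (C_ne_zero.2 hc0) h3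
  have hα : α = ((QQ M k : ℤ) : OO M) * (fm 0 0).coeff 0 := by
    rw [← c0, c1, ← hce]; ring
  refine ⟨(fm 0 0).coeff 0, hα, fun j => ?_⟩
  set ε := (fm 0 0).coeff 0 with hε
  have A10' : C (conj M cz) * em 1 0 =
      C (-((V : OO M) * (conj M (zeta M) - 1) * conj M ez * cz * α)) *
        g.map (Int.castRingHom (OO M)) := by
    rw [A10]
    simp only [C_neg, C_mul, C_sub, C_1, map_intCast]
    ring
  have d0 := congrArg (fun p => p.coeff j) A10'
  have B10' : em 1 0 + C (conj M ((em 0 0).coeff 0) * conj M ez) *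
      g'.map (Int.castRingHom (OO M)) = fm 1 0 * C ez := by
    rw [← B10]
    nth_rewrite 2 [hE00]
    rw [map_C, C_mul, mul_assoc]
  have d1 := congrArg (fun p => p.coeff j) B10'
  simp only [coeff_C_mul, coeff_add, coeff_mul_C, coeff_map, eq_intCast] at d0 d1
  rw [c1, map_mul] at d1
  -- the coefficient of the other entry
  have d2 : (em 1 0).coeff j = -((V : OO M) * (conj M (zeta M) - 1) * conj M ez * conj M ez *
      cz * ε) * ((g.coeff j : ℤ) : OO M) := by
    apply mul_left_cancel₀ hc0'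
    rw [d0, hα, ← hce']
    ring
  rw [d2] at d1
  have d3 := congrArg (fun z => θ (conj M z)) d1
  simp only [map_add, map_mul, map_neg, map_sub, map_one, map_intCast, conj_conj', hπ', hθz,
    mul_zero] at d3
  have d4 : θ ez * θ ez * (θ ε * (g'.coeff j : F)) = θ ez * θ ez * ((V : F) * (μ - 1) *
      θ (conj M cz) * θ (conj M ε) * (g.coeff j : F)) := by
    linear_combination d3
  exact mul_left_cancel₀ (mul_ne_zero hπ hπ) d4

/-- the final contradiction -/
theorem lemE (hM3 : 3 ≤ M) (μ : F) (hμ : IsPrimitiveRoot μ M) (k V : ℤ)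
    (hk : ((k : F) + 1) * μ = (k : F)) (hQ : QQ M k ≠ 0) (A B r r' H H' e f e' f' : SS M)
    (g g' : ℤ[X]) (hH : (H : Mt M) = Hm M g) (hH' : (H' : Mt M) = Hm M g')
    (h1 : r * (ZZ M - 1) = A)
    (h2 : r * B = ((QQ M k : ℤ) : SS M) * ((QQ M k : ℤ) : SS M) * (ZZ M - 1))
    (h3 : r' * A = ((QQ M k : ℤ) : SS M) * ((QQ M k : ℤ) : SS M) * (ZZ M - 1))
    (h4 : cc M k (ZZ M) * e =
      (1 - (V : SS M) * (ZZ M - 1) * ee k (ZZ M) * H * cc M k (ZZ M)) * A)
    (h5 : e * (1 + ee k (ZZ M) * H') = f * ee k (ZZ M))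
    (h6 : cc M k (ZZ M) * e' =
      (1 - (V : SS M) * (ZZ M - 1) * ee k (ZZ M) * H' * cc M k (ZZ M)) * B)
    (h7 : e' * (1 + ee k (ZZ M) * H) = f' * ee k (ZZ M))
    (j : ℕ) (hj : (g'.coeff j : F) ≠ 0) (hj' : (g.coeff j : F) = 0) : False := by
  obtain ⟨α, β, hα, hβ, hαβ⟩ := lemB M hM3 hQ h1 h2 h3
  rw [hα] at h4
  rw [hβ] at h6
  obtain ⟨ε, hε, hεj⟩ := lemD M hM3 μ hμ k V hk hQ α H H' e f g g' hH hH' h4 h5
  obtain ⟨δ, hδ, -⟩ := lemD M hM3 μ hμ k V hk hQ β H' H e' f' g' g hH' hH h6 h7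
  have hQ' : ((QQ M k : ℤ) : OO M) ≠ 0 := by exact_mod_cast hQ
  have h8 : ε * δ = (zeta M - 1) * (zeta M - 1) := by
    apply mul_left_cancel₀ (mul_ne_zero hQ' hQ')
    rw [← hαβ, hε, hδ]
    ring
  have h9 := congrArg (red M μ hμ) h8
  rw [map_mul, map_mul, map_sub, map_one, red_zeta] at h9
  have hμ1 : μ - 1 ≠ 0 := sub_ne_zero.2 (hμ.ne_one (by omega))
  have h10 := hεj j
  rw [hj', mul_zero] at h10
  have h11 : red M μ hμ ε = 0 := (mul_eq_zero.1 h10).resolve_right hj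
  rw [h11, zero_mul] at h9
  exact mul_ne_zero hμ1 hμ1 h9.symm

end

/-! ### The representation of the powers of `b` -/

section
open FP
variable {J : Type} {m : J → ℕ} (M : ℕ) [hM : NeZero M] (j0 j1 : J) (h0 : m j0 = 0)
  (h1 : ((ZS M : (SS M)ˣ) : SS M) ^ m j1 = 1)

omit hM in
theorem Hm_zero : Hm M 0 = 0 := by
  unfold Hm
  ext i j
  fin_cases i <;> fin_cases j <;> simp

/-- the row `(Q(T), X₀ P(T))` of the matrix of `b ^ (2 l + 1)` -/
theorem rho_b_pow (h01 : j0 ≠ j1) (l : ℕ) : ∃ P Q : ℤ[X], P.Monic ∧ P.natDegree = l ∧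
    Q.Monic ∧ Q.natDegree = l ∧
    ((rho j0 j1 (XS M) (ZS M) h0 h1 (ga ℤ m j0 ^ (2 * l + 1)) 1 0 : SS M) : Mt M) =
      !![Q.map (Int.castRingHom (OO M)), 0; 0, Q.map (Int.castRingHom (OO M))] ∧
    ((rho j0 j1 (XS M) (ZS M) h0 h1 (ga ℤ m j0 ^ (2 * l + 1)) 1 1 : SS M) : Mt M) = Hm M P := by
  induction l with
  | zero =>
    refine ⟨1, 1, monic_one, natDegree_one, monic_one, natDegree_one, ?_, ?_⟩
    · rw [mul_zero, zero_add, pow_one, rho_b j0 j1 (XS M) (ZS M) h0 h1 h01]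
      rw [Polynomial.map_one]
      ext i j
      fin_cases i <;> fin_cases j <;> simp
    · rw [mul_zero, zero_add, pow_one, rho_b j0 j1 (XS M) (ZS M) h0 h1 h01]
      show X0 M = _
      unfold Hm X0
      rw [Polynomial.map_one, mul_one]
  | succ l ih =>
    obtain ⟨P, Q, hP, hPd, hQ, hQd, e0, e1⟩ := ih
    have hXQ : (X * P + Q).Monic ∧ (X * P + Q).natDegree = l + 1 := by
      have hd : (X * P).natDegree = l + 1 := by
        rw [natDegree_X_mul hP.ne_zero, hPd]
      have hlt : Q.natDegree < (X * P).natDegree := by rw [hd, hQd]; omega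
      have hlt' : Q.degree < (X * P).degree := degree_lt_degree hlt
      exact ⟨(monic_X.mul hP).add_of_left hlt', by rw [natDegree_add_eq_left_of_natDegree_lt hlt, hd]⟩
    have hXQP : (X * P + Q + P).Monic ∧ (X * P + Q + P).natDegree = l + 1 := by
      have hlt : P.natDegree < (X * P + Q).natDegree := by rw [hXQ.2, hPd]; omega
      have hlt' : P.degree < (X * P + Q).degree := degree_lt_degree hlt
      exact ⟨hXQ.1.add_of_left hlt', by rw [natDegree_add_eq_left_of_natDegree_lt hlt, hXQ.2]⟩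
    refine ⟨X * P + Q + P, X * P + Q, hXQP.1, hXQP.2, hXQ.1, hXQ.2, ?_, ?_⟩
    all_goals
      have hpow : 2 * (l + 1) + 1 = (2 * l + 1) + 1 + 1 := by ring
      rw [hpow, pow_succ, pow_succ, map_mul, map_mul, rho_b j0 j1 (XS M) (ZS M) h0 h1 h01]
      generalize rho j0 j1 (XS M) (ZS M) h0 h1 (ga ℤ m j0 ^ (2 * l + 1)) = R at *
      have hsq : (!![0, 1; 1, XS M] * !![0, 1; 1, XS M] : Matrix (Fin 2) (Fin 2) (SS M)) =
          !![1, XS M; XS M, 1 + XS M * XS M] := by
        ext i j : 1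
        fin_cases i <;> fin_cases j <;> simp [Matrix.mul_apply, Fin.sum_univ_two]
      have hX : ((XS M : SS M) : Mt M) = X0 M := rfl
      rw [mul_assoc, hsq, Matrix.mul_apply, Fin.sum_univ_two]
      simp only [Subring.coe_add, Subring.coe_mul, e0, e1, Matrix.of_apply,
        Matrix.cons_val', Matrix.cons_val_zero, Matrix.cons_val_one, Matrix.cons_val_fin_one, hX,
        mul_one, mul_add, Polynomial.map_add, Polynomial.map_mul, map_X, Hm, X0]
      ext i j : 1
      fin_cases i <;> fin_cases j <;> simp <;> ring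

end

end ExoticGen
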