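import Pool.Agent.Lib.MP_2d4659_gt.EX85.Poly

/-!
# The exotic pair: automorphisms of `A²` and `A³`, choice of the parameters
-/

set_option autoImplicit false

open Polynomial

namespace ExoticGen

section equiv

variable {A : Type*} [Ring A]

/-- `(p, q) ↦ (p, q + p c)` -/
def shR (c : A) : (A × A) ≃ₗ[A] (A × A) where
  toFun x := (x.1, x.2 + x.1 * c)
  invFun x := (x.1, x.2 - x.1 * c)
  map_add' x y := by simp [add_mul]; abel
  map_smul' r x := by simp [mul_add, mul_assoc]
  left_inv x := by simp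
  right_inv x := by simp

/-- `(p, q) ↦ (p + q c, q)` -/
def shL (c : A) : (A × A) ≃ₗ[A] (A × A) where
  toFun x := (x.1 + x.2 * c, x.2)
  invFun x := (x.1 - x.2 * c, x.2)
  map_add' x y := by simp [add_mul]; abel
  map_smul' r x := by simp [mul_add, mul_assoc]
  left_inv x := by simp
  right_inv x := by simp

/-- `(p, q) ↦ (p, q u)` -/
def dgR (u v : A) (h : u * v = 1) (h' : v * u = 1) : (A × A) ≃ₗ[A] (A × A) where
  toFun x := (x.1, x.2 * u)
  invFun x := (x.1, x.2 * v)
  map_add' x y := by simp [add_mul]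
  map_smul' r x := by simp [mul_assoc]
  left_inv x := by simp [mul_assoc, h]
  right_inv x := by simp [mul_assoc, h']

variable {M : ℕ} {k V : ℤ} {T0 E : ℤ[X]} {a : A} (ha : a ^ M = 1)
  (hT : C V * (X - 1) * cP M k + T0 * etaP k = 1 + E * (X ^ M - 1))
include ha hT

theorem pair_zero (b : A) (hQ : ((QQ M k : ℤ) : A) = 0) : ∃ e : (A × A) ≃ₗ[A] (A × A),
    (∀ v, (e v).1 * nn M a = v.1 * nn M a) ∧
    ∀ v, (e v).2 = v.1 * xx k a b + v.2 * ee k a := by
  have h1 := unit_T0 ha hT
  have h2 := cc_ee (k := k) ha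
  have h3 := ee_cc (k := k) ha
  rw [hQ] at h2 h3
  have hs : ss M k V a * nn M a = 0 := ss_nn ha
  set s := ss M k V a with hsdef
  have hsv : s = (V : A) * (a - 1) * cc M k a := rfl
  rw [← hsv] at h1
  set u0 : A := aeval a T0 with hu0
  set η := ee k a with hη
  have hsη : s * η = 0 := by rw [hsv, mul_assoc, h2, mul_zero]
  -- everything is a polynomial in `a`
  have hsP : s = aeval a (C V * (X - 1) * cP M k) := by
    rw [hsv, map_mul, map_mul, map_sub, aeval_X, map_one, aeval_C]; simp [cc]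
  have hηP : η = aeval a (etaP k) := ee_eq k a
  have c1 : η * s = s * η := by rw [hsP, hηP, pc]
  have c2 : u0 * s = s * u0 := by rw [hsP, hu0, pc]
  have c3 : η * u0 = u0 * η := by rw [hηP, hu0, pc]
  have hss : s * s = s := by
    have : s * (s + u0 * η) = s := by rw [h1, mul_one]
    rw [mul_add, ← mul_assoc, ← c2, mul_assoc, hsη, mul_zero, add_zero] at this
    exact this
  have huη : u0 * η = 1 - s := eq_sub_of_add_eq' h1
  have hinv : (η + s) * (u0 * (1 - s) + s) = 1 := by
    have : (η + s) * (u0 * (1 - s) + s) = (η * u0) * (1 - s) + η * s + (s * u0) * (1 - s) + s * s := by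
      noncomm_ring
    rw [this, c3, huη, c1, hsη, ← c2, hss]
    have : (1 - s) * (1 - s) + 0 + u0 * s * (1 - s) + s = 1 - s + (s * s - s) + u0 * (s - s * s) + s := by
      noncomm_ring
    rw [this, hss]; simp
  have hinv' : (u0 * (1 - s) + s) * (η + s) = 1 := by
    have : (u0 * (1 - s) + s) * (η + s) =
      u0 * η - u0 * (s * η) + u0 * (s - s * s) + s * η + s * s := by noncomm_ring
    rw [this, huη, hsη, hss]; simp
  set x := xx k a b with hx
  have hsx : s * x = s := by
    have : s * x = s + (s * η) * b := by rw [hx, xx, mul_add, mul_one, mul_assoc]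
    rw [this, hsη, zero_mul, add_zero]
  refine ⟨(shR x).trans ((shL (-s)).trans ((dgR _ _ hinv hinv').trans (shR (x * (1 - η))))), ?_, ?_⟩
  · rintro ⟨p, q⟩
    show (p + (q + p * x) * -s) * nn M a = p * nn M a
    have : (p + (q + p * x) * -s) * nn M a = p * nn M a - (q + p * x) * (s * nn M a) := by
      noncomm_ring
    rw [this, hs]; simp
  · rintro ⟨p, q⟩
    show (q + p * x) * (η + s) + (p + (q + p * x) * -s) * (x * (1 - η)) = p * x + q * η
    have : (q + p * x) * (η + s) + (p + (q + p * x) * -s) * (x * (1 - η)) =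
      (q + p * x) * (η + s) + p * (x * (1 - η)) - (q + p * x) * ((s * x) * (1 - η)) := by
      noncomm_ring
    rw [this, hsx]
    have : (q + p * x) * (η + s) + p * (x * (1 - η)) - (q + p * x) * (s * (1 - η)) =
      p * x + q * η + (q + p * x) * (s * η) := by noncomm_ring
    rw [this, hsη]; simp

omit hT in
theorem pair_unit (b : A) (q : A) (hq : q * ((QQ M k : ℤ) : A) = 1) :
    ∃ e : (A × A) ≃ₗ[A] (A × A),
    (∀ v, (e v).1 * nn M a = v.1 * nn M a) ∧
    ∀ v, (e v).2 = v.1 * xx k a b + v.2 * ee k a := by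
  have h2 := cc_ee (k := k) ha
  have h3 := ee_cc (k := k) ha
  have hq' : ((QQ M k : ℤ) : A) * q = 1 := by rw [← int_comm, hq]
  have hq'' : ∀ y : A, q * y = y * q := by
    intro y
    calc q * y = q * (y * (((QQ M k : ℤ) : A) * q)) := by rw [hq', mul_one]
      _ = q * ((y * ((QQ M k : ℤ) : A)) * q) := by noncomm_ring
      _ = q * ((((QQ M k : ℤ) : A) * y) * q) := by rw [int_comm]
      _ = (q * ((QQ M k : ℤ) : A)) * (y * q) := by noncomm_ring
      _ = y * q := by rw [hq, one_mul]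
  refine ⟨(dgR (ee k a) (q * cc M k a) (by rw [hq'', ← mul_assoc, h3, hq'])
    (by rw [mul_assoc, h2, hq])).trans (shR (xx k a b)), ?_, ?_⟩
  · rintro ⟨p, q⟩; rfl
  · rintro ⟨p, q⟩
    show q * ee k a + p * xx k a b = p * xx k a b + q * ee k a
    rw [add_comm]

theorem pair_stable (b : A) :
    ∃ e : ((A × A) × A) ≃ₗ[A] ((A × A) × A),
    (∀ v, (e v).1.1 * nn M a = v.1.1 * nn M a) ∧
    ∀ v, (e v).1.2 = v.1.1 * xx k a b + v.1.2 * ee k a := by
  have hu := unimodular ha hT b
  have hs : ss M k V a * nn M a = 0 := ss_nn ha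
  generalize ss M k V a = s at *
  generalize tt M k V T0 a b = t at *
  generalize xx k a b = x at *
  generalize ee k a = y at *
  refine ⟨{ toFun := fun v => ((v.1.1 - v.2 * s, v.1.1 * x + v.1.2 * y), v.1.2 - v.2 * t)
            invFun := fun v => ((v.1.1 + (v.1.2 - v.1.1 * x - v.2 * y) * s,
              v.2 + (v.1.2 - v.1.1 * x - v.2 * y) * t), v.1.2 - v.1.1 * x - v.2 * y)
            map_add' := fun v w => by
              ext <;> simp only [Prod.fst_add, Prod.snd_add] <;> noncomm_ring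
            map_smul' := fun r v => by
              ext <;> simp only [Prod.smul_fst, Prod.smul_snd, smul_eq_mul, RingHom.id_apply] <;>
                noncomm_ring
            left_inv := ?_
            right_inv := ?_ }, ?_, ?_⟩
  · rintro ⟨⟨p, q⟩, r⟩
    have e : p * x + q * y - (p - r * s) * x - (q - r * t) * y = r := by
      have : p * x + q * y - (p - r * s) * x - (q - r * t) * y = r * (s * x + t * y) := by
        noncomm_ring
      rw [this, hu, mul_one]
    simp only [e]
    simp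
  · rintro ⟨⟨p, q⟩, r⟩
    have e : (p + (q - p * x - r * y) * s) * x + (r + (q - p * x - r * y) * t) * y = q := by
      have : (p + (q - p * x - r * y) * s) * x + (r + (q - p * x - r * y) * t) * y
        = p * x + r * y + (q - p * x - r * y) * (s * x + t * y) := by noncomm_ring
      rw [this, hu, mul_one]; abel
    simp only [e]
    simp
  · rintro ⟨⟨p, q⟩, r⟩
    show (p - r * s) * nn M a = p * nn M a
    rw [sub_mul, mul_assoc, hs, mul_zero, sub_zero]
  · rintro ⟨⟨p, q⟩, r⟩
    rfl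

end equiv

/-! ### The parameters -/

theorem exists_params (M : ℕ) (hM : 3 ≤ M) : ∃ (p : ℕ) (_ : Fact p.Prime) (μ : ZMod p) (k : ℤ),
    IsPrimitiveRoot μ M ∧ ((k : ZMod p) + 1) * μ = (k : ZMod p) ∧ (M : ZMod p) ≠ 0 ∧
    QQ M k ≠ 0 ∧ IsCoprime ((M : ℤ) * (k + 1) ^ (M - 1)) (QQ M k) := by
  obtain ⟨p, hp, -, hp1⟩ := Nat.exists_prime_gt_modEq_one (k := M) 1 (by omega)
  have : Fact p.Prime := ⟨hp⟩
  have hdvd : M ∣ p - 1 := (Nat.modEq_iff_dvd' hp.one_lt.le).1 hp1.symm
  have hpos : 0 < p - 1 := by have := hp.one_lt; omega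
  have hcop : Nat.Coprime M p := by
    have h1 : Nat.gcd M p ∣ p - 1 := (Nat.gcd_dvd_left M p).trans hdvd
    have h2 : Nat.gcd M p ∣ p := Nat.gcd_dvd_right M p
    have h3 : Nat.gcd M p ∣ 1 := by
      have h4 := Nat.dvd_sub h2 h1
      rwa [Nat.sub_sub_self hp.one_lt.le] at h4
    exact Nat.dvd_one.1 h3
  -- a primitive root
  obtain ⟨g, hg⟩ := IsCyclic.exists_generator (α := (ZMod p)ˣ)
  have hord : orderOf g = p - 1 := by
    rw [orderOf_eq_card_of_forall_mem_zpowers hg, Nat.card_eq_fintype_card, ZMod.card_units]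
  have hord2 : orderOf (g ^ ((p - 1) / M)) = M := by
    rw [orderOf_pow_of_dvd (Nat.div_pos (Nat.le_of_dvd hpos hdvd) (by omega)).ne'
      (by rw [hord]; exact Nat.div_dvd_of_dvd hdvd), hord, Nat.div_div_self hdvd hpos.ne']
  have hμ : IsPrimitiveRoot (((g ^ ((p - 1) / M) : (ZMod p)ˣ)) : ZMod p) M := by
    rw [IsPrimitiveRoot.coe_units_iff]
    have := IsPrimitiveRoot.orderOf (g ^ ((p - 1) / M))
    rwa [hord2] at this
  set μ : ZMod p := (((g ^ ((p - 1) / M) : (ZMod p)ˣ)) : ZMod p) with hμdef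
  have hμ1 : μ ≠ 1 := hμ.ne_one (by omega)
  have hμ0 : μ ≠ 0 := hμ.ne_zero (by omega)
  obtain ⟨k, hk0, hk1⟩ := Nat.chineseRemainder hcop 0 (μ / (1 - μ)).val
  have hkp : ((k : ℕ) : ZMod p) = μ / (1 - μ) := by
    rw [(ZMod.natCast_eq_natCast_iff _ _ _).2 hk1, ZMod.natCast_zmod_val]
  have h1μ : (1 - μ) ≠ 0 := sub_ne_zero.2 hμ1.symm
  have hk : ((k : ZMod p) + 1) * μ = (k : ZMod p) := by
    rw [hkp]
    field_simp
    ring
  have hkpos : 0 < k := by
    rcases Nat.eq_zero_or_pos k with h | h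
    · exfalso
      rw [h, Nat.cast_zero, zero_add, one_mul] at hk
      exact hμ0 hk
    · exact h
  have hMk : M ∣ k := (Nat.modEq_zero_iff_dvd).1 hk0
  have hMk' : (M : ℤ) ∣ (k : ℤ) := Int.natCast_dvd_natCast.2 hMk
  refine ⟨p, this, μ, (k : ℤ), hμ, by exact_mod_cast hk, ?_, ?_, ?_⟩
  · intro h
    rw [ZMod.natCast_eq_zero_iff] at h
    have h2 : p ∣ 1 := by
      rw [← hcop]
      exact Nat.dvd_gcd h dvd_rfl
    exact hp.one_lt.ne' (Nat.dvd_one.1 h2)
  · unfold QQ
    have h3 : (k : ℤ) ^ M < ((k : ℤ) + 1) ^ M := by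
      apply pow_lt_pow_left₀ (by omega) (by omega) (by omega)
    omega
  · have c1 : IsCoprime (M : ℤ) (QQ M k) := by
      have h4 : (M : ℤ) ∣ ((k : ℤ) + 1) ^ M - 1 := by
        have h5 : ((k : ℤ) + 1 - 1) ∣ ((k : ℤ) + 1) ^ M - 1 ^ M := sub_dvd_pow_sub_pow _ _ _
        rw [one_pow, add_sub_cancel_right] at h5
        exact (hMk').trans h5
      have h6 : (M : ℤ) ∣ (k : ℤ) ^ M := hMk'.trans (dvd_pow_self _ (by omega))
      obtain ⟨c, hc⟩ := h4
      obtain ⟨d, hd⟩ := h6
      refine ⟨-(c - d), 1, ?_⟩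
      unfold QQ
      linear_combination hc - hd
    have c2 : IsCoprime ((k : ℤ) + 1) (QQ M k) := by
      have h7 : IsCoprime ((k : ℤ) + 1) ((k : ℤ) ^ M) := by
        apply IsCoprime.pow_right
        exact ⟨1, -1, by ring⟩
      have h8 : QQ M k = -(k : ℤ) ^ M + ((k : ℤ) + 1) * ((k : ℤ) + 1) ^ (M - 1) := by
        unfold QQ
        rw [← pow_succ', Nat.sub_add_cancel (by omega)]
        ring
      rw [h8]
      exact (h7.neg_right).add_mul_left_right _
    exact c1.mul_left (c2.pow_left)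

end ExoticGen
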