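import Pool.Agent.Lib.MP_2d4659_gt.EX85.Contra
import Pool.Agent.Lib.MP_2d4659_gt.EX85.Pair
import Pool.Agent.Lib.MP_2d4659_gt.FP.CDefs

/-!
# The kernels are not isomorphic
-/

set_option autoImplicit false

open Polynomial

namespace ExoticGen

open FP

variable {J Y : Type} {m : J → ℕ}

/-- the kernel of the standard boundary map -/
def K0 (k : Type*) [CommRing k] (m : J → ℕ) (Y : Type) : Submodule (KG k m) (Co m Y → KG k m) where
  carrier := {v | (∀ i : FJ m, v (Sum.inl i) * nn (m i.1) (ga k m i.1) = 0) ∧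
    ∀ z : Y, v (Sum.inr z) = 0}
  add_mem' := by
    rintro v w ⟨h1, h2⟩ ⟨h3, h4⟩
    refine ⟨fun i => ?_, fun z => ?_⟩
    · rw [Pi.add_apply, add_mul, h1, h3, add_zero]
    · rw [Pi.add_apply, h2, h4, add_zero]
  zero_mem' := ⟨fun i => by rw [Pi.zero_apply, zero_mul], fun z => rfl⟩
  smul_mem' := by
    rintro r v ⟨h1, h2⟩
    refine ⟨fun i => ?_, fun z => ?_⟩
    · rw [Pi.smul_apply, smul_eq_mul, mul_assoc, h1, mul_zero]
    · rw [Pi.smul_apply, h2, smul_zero]

/-- the kernel of the exotic boundary map -/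
def K1 {k : Type*} [CommRing k] (x y : KG k m) (i1 : FJ m) (y0 : Y) :
    Submodule (KG k m) (Co m Y → KG k m) where
  carrier := {v | (∀ i : FJ m, v (Sum.inl i) * nn (m i.1) (ga k m i.1) = 0) ∧
    (∀ z : Y, z ≠ y0 → v (Sum.inr z) = 0) ∧ v (Sum.inl i1) * x + v (Sum.inr y0) * y = 0}
  add_mem' := by
    rintro v w ⟨h1, h2, h5⟩ ⟨h3, h4, h6⟩
    refine ⟨fun i => ?_, fun z hz => ?_, ?_⟩
    · rw [Pi.add_apply, add_mul, h1, h3, add_zero]
    · rw [Pi.add_apply, h2 z hz, h4 z hz, add_zero]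
    · rw [Pi.add_apply, Pi.add_apply, add_mul, add_mul, add_add_add_comm, h5, h6, add_zero]
  zero_mem' := ⟨fun i => by rw [Pi.zero_apply, zero_mul], fun z _ => rfl, by simp⟩
  smul_mem' := by
    rintro r v ⟨h1, h2, h3⟩
    refine ⟨fun i => ?_, fun z hz => ?_, ?_⟩
    · rw [Pi.smul_apply, smul_eq_mul, mul_assoc, h1, mul_zero]
    · rw [Pi.smul_apply, h2 z hz, smul_zero]
    · rw [Pi.smul_apply, Pi.smul_apply, smul_eq_mul, smul_eq_mul, mul_assoc, mul_assoc, ← mul_add,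
        h3, mul_zero]

theorem SS_torsion {M : ℕ} [NeZero M] {n : ℕ} (hn : n ≠ 0) {x : SS M}
    (h : (n : SS M) * x = 0) : x = 0 := by
  have h1 : (n : Mt M) * (x : Mt M) = 0 := by
    have := congrArg (fun y : SS M => (y : Mt M)) h
    simpa using this
  apply Subtype.ext
  show (x : Mt M) = 0
  rw [← nsmul_eq_mul] at h1
  refine Matrix.ext fun i j => ?_
  have h2 := congrFun (congrFun h1 i) j
  rw [Matrix.smul_apply, Matrix.zero_apply, nsmul_eq_mul] at h2
  rw [Matrix.zero_apply]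
  refine (mul_eq_zero.1 h2).resolve_left ?_
  exact_mod_cast hn

theorem SS_torsion' {M : ℕ} [NeZero M] {n : ℕ} (hn : n ≠ 0) {x : SS M}
    (h : x * (n : SS M) = 0) : x = 0 := by
  apply SS_torsion hn
  rw [(Nat.cast_commute n x).eq, h]

open Classical in
theorem no_kernel_iso [Fintype J] (j0 : J) (h0 : m j0 = 0) (i1 : FJ m) (hM3 : 3 ≤ m i1.1) (y0 : Y)
    {p : ℕ} [Fact p.Prime] (μ : ZMod p) (hμ : IsPrimitiveRoot μ (m i1.1)) (k V : ℤ) (T0 E : ℤ[X])
    (hk : ((k : ZMod p) + 1) * μ = (k : ZMod p)) (hMp : (m i1.1 : ZMod p) ≠ 0)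
    (hQ : QQ (m i1.1) k ≠ 0)
    (hT : C V * (X - 1) * cP (m i1.1) k + T0 * etaP k = 1 + E * (X ^ m i1.1 - 1)) :
    IsEmpty (K0 ℤ m Y ≃ₗ[KG ℤ m]
      K1 (xx k (ga ℤ m i1.1) (ga ℤ m j0)) (ee k (ga ℤ m i1.1)) i1 y0) := by
  refine ⟨fun θ => ?_⟩
  set M := m i1.1 with hM
  have hMne : NeZero M := ⟨by omega⟩
  have hMp' : NeZero (M : ZMod p) := ⟨hMp⟩
  set a := ga ℤ m i1.1 with hadef
  set b := ga ℤ m j0 with hbdef
  have ha : a ^ M = 1 := ga_pow ℤ i1.1
  have h01 : j0 ≠ i1.1 := by rintro rfl; exact i1.2 h0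
  have hZ := ZS_pow M
  have hnZ : nn M ((ZS M : (SS M)ˣ) : SS M) = 0 := nn_ZS M (by omega)
  set ρ := rho j0 i1.1 (XS M) (ZS M) h0 hZ with hρ
  -- the generators of the standard kernel
  have hmem : ∀ i : FJ m, (Pi.single (Sum.inl i) (ga ℤ m i.1 - 1) : Co m Y → KG ℤ m) ∈ K0 ℤ m Y := by
    intro i
    refine ⟨fun i' => ?_, fun z => ?_⟩
    · by_cases h : i' = i
      · subst h
        rw [Pi.single_eq_same, am1_nn (ga_pow ℤ i'.1)]
      · rw [Pi.single_eq_of_ne (fun h' => h (Sum.inl.inj h')), zero_mul]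
    · rw [Pi.single_eq_of_ne Sum.inr_ne_inl]
  let κ : FJ m → K0 ℤ m Y := fun i => ⟨_, hmem i⟩
  -- components of their images
  let wv : FJ m → KG ℤ m := fun i => (θ (κ i) : Co m Y → KG ℤ m) (Sum.inl i1)
  have hwN : ∀ i, wv i * nn M a = 0 := fun i => (θ (κ i)).2.1 i1
  have hNw : ∀ i : FJ m, nn (m i.1) (ga ℤ m i.1) * wv i = 0 := by
    intro i
    have h1 : nn (m i.1) (ga ℤ m i.1) • κ i = 0 := by
      apply Subtype.ext
      show nn (m i.1) (ga ℤ m i.1) • (Pi.single (Sum.inl i) (ga ℤ m i.1 - 1) : Co m Y → KG ℤ m) = 0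
      rw [← Pi.single_smul, smul_eq_mul, nn_am1 (ga_pow ℤ i.1), Pi.single_zero]
    have h2 : nn (m i.1) (ga ℤ m i.1) • θ (κ i) = 0 := by rw [← map_smul, h1, map_zero]
    exact congrFun (congrArg Subtype.val h2) (Sum.inl i1)
  have hρother : ∀ i : FJ m, i ≠ i1 → ρ (wv i) = 0 := by
    intro i hi
    have hi' : i.1 ≠ i1.1 := fun h => hi (Subtype.ext h)
    have h1 := congrArg ρ (hNw i)
    rw [map_mul, map_zero, rho_nn_other j0 i1.1 (XS M) (ZS M) h0 hZ i.2 hi'] at h1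
    refine Matrix.ext fun r c => ?_
    have h2 := congrFun (congrFun h1 r) c
    rw [Matrix.zero_apply] at h2 ⊢
    rw [Matrix.mul_apply, Fin.sum_univ_two] at h2
    fin_cases r
    · simp at h2
      exact SS_torsion i.2 h2
    · simp at h2
      exact SS_torsion i.2 h2
  -- every element of the exotic kernel
  have hgen : ∀ v ∈ K1 (xx k a b) (ee k a) i1 y0, ∃ u : KG ℤ m,
      ρ (v (Sum.inl i1)) = ρ u * ρ (wv i1) := by
    intro v hv
    obtain ⟨z, hz⟩ : ∃ z : K0 ℤ m Y, θ z = ⟨v, hv⟩ := ⟨θ.symm ⟨v, hv⟩, by simp⟩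
    have h1 : ∀ i : FJ m, ∃ u, (z : Co m Y → KG ℤ m) (Sum.inl i) = u * (ga ℤ m i.1 - 1) :=
      fun i => kerN i.1 i.2 _ (z.2.1 i)
    choose u hu using h1
    have h2 : z = ∑ i, u i • κ i := by
      apply Subtype.ext
      ext1 c
      rw [AddSubmonoidClass.coe_finsetSum, Finset.sum_apply]
      rcases c with i | y
      · rw [hu, Finset.sum_eq_single i]
        · show _ = u i * (Pi.single (Sum.inl i) (ga ℤ m i.1 - 1) : Co m Y → KG ℤ m) (Sum.inl i)
          rw [Pi.single_eq_same]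
        · intro i' _ hi'
          show u i' * (Pi.single (Sum.inl i') (ga ℤ m i'.1 - 1) : Co m Y → KG ℤ m) (Sum.inl i) = 0
          rw [Pi.single_eq_of_ne (fun h => hi' (Sum.inl.inj h).symm), mul_zero]
        · intro h; exact absurd (Finset.mem_univ i) h
      · rw [z.2.2 y]
        symm
        apply Finset.sum_eq_zero
        intro i _
        show u i * (Pi.single (Sum.inl i) (ga ℤ m i.1 - 1) : Co m Y → KG ℤ m) (Sum.inr y) = 0
        rw [Pi.single_eq_of_ne Sum.inr_ne_inl, mul_zero]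
    refine ⟨u i1, ?_⟩
    have h3 : v (Sum.inl i1) = ∑ i, u i * wv i := by
      have h4 : (θ z : Co m Y → KG ℤ m) (Sum.inl i1) = ∑ i, u i * wv i := by
        rw [h2, map_sum, AddSubmonoidClass.coe_finsetSum, Finset.sum_apply]
        refine Finset.sum_congr rfl fun i _ => ?_
        rw [map_smul]
        rfl
      rw [hz] at h4
      exact h4
    rw [h3, map_sum, Finset.sum_eq_single i1]
    · rw [map_mul]
    · intro i _ hi
      rw [map_mul, hρother i hi, mul_zero]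
    · intro h; exact absurd (Finset.mem_univ i1) h
  set w := wv i1 with hw
  obtain ⟨r, hr⟩ := hgen (fun c => if c = Sum.inl i1 then ((QQ M k : ℤ) : KG ℤ m) * (a - 1) else
      if c = Sum.inr y0 then -((a - 1) * xx k a b * cc M k a) else 0) (by
    refine ⟨fun i => ?_, fun z hz => ?_, ?_⟩
    · beta_reduce
      by_cases h : i = i1
      · subst h
        rw [if_pos rfl]
        exact Q_nn ha
      · rw [if_neg (fun h' => h (Sum.inl.inj h')), if_neg Sum.inl_ne_inr, zero_mul]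
    · beta_reduce
      rw [if_neg Sum.inr_ne_inl, if_neg (fun h' => hz (Sum.inr.inj h'))]
    · beta_reduce
      rw [if_pos rfl, if_neg Sum.inr_ne_inl, if_pos rfl, Q_ker ha]
      noncomm_ring)
  obtain ⟨t, ht⟩ := hgen (fun c => if c = Sum.inl i1 then p0 M k V a b else
      if c = Sum.inr y0 then -(p1 M k V T0 a b) else 0) (by
    refine ⟨fun i => ?_, fun z hz => ?_, ?_⟩
    · beta_reduce
      by_cases h : i = i1
      · subst h
        rw [if_pos rfl]
        exact p0_nn ha b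
      · rw [if_neg (fun h' => h (Sum.inl.inj h')), if_neg Sum.inl_ne_inr, zero_mul]
    · beta_reduce
      rw [if_neg Sum.inr_ne_inl, if_neg (fun h' => hz (Sum.inr.inj h'))]
    · beta_reduce
      rw [if_pos rfl, if_neg Sum.inr_ne_inl, if_pos rfl, p0_p1 ha hT]
      noncomm_ring)
  rw [if_pos rfl] at hr ht
  have hwx : w * xx k a b + (θ (κ i1) : Co m Y → KG ℤ m) (Sum.inr y0) * ee k a = 0 :=
    (θ (κ i1)).2.2.2
  set w' := (θ (κ i1) : Co m Y → KG ℤ m) (Sum.inr y0) with hw'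
  have hrn : ρ (nn M a) = !![(M : SS M), 0; 0, 0] := rho_nn j0 i1.1 (XS M) (ZS M) h0 hZ hnZ
  have hw10 : ρ w 1 0 = 0 := by
    have h := congrArg (fun z => ρ z 1 0) (hwN i1)
    simp only [map_mul, hrn, map_zero] at h
    simp [Matrix.mul_apply, Fin.sum_univ_two] at h
    exact SS_torsion' (by omega) h
  have hw01 : ρ w 0 1 = 0 := by
    have h := congrArg (fun z => ρ z 0 1) (hNw i1)
    simp only [map_mul, map_zero] at h
    rw [show nn (m i1.1) (ga ℤ m i1.1) = nn M a from rfl, hrn] at h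
    simp [Matrix.mul_apply, Fin.sum_univ_two] at h
    exact SS_torsion (by omega) h
  refine contra M hM3 μ hμ k V (QQ M k) hk hQ (ρ w 1 1) (ρ r 1 1) (-(ρ w' 1 1)) (ρ t 1 1) ?_ ?_ ?_
  · have h := congrFun (congrFun hr 1) 1
    rw [map_mul, rho_am1, rho_int] at h
    simp [Matrix.mul_apply, Fin.sum_univ_two, hw01] at h
    exact h.symm
  · have h := congrArg (fun z => ρ z 1 1) hwx
    simp only [map_mul, map_add, map_zero] at h
    rw [rho_xx j0 i1.1 (XS M) (ZS M) h0 hZ h01, rho_ee] at h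
    simp [Matrix.mul_apply, Fin.sum_univ_two, hw10] at h
    rw [neg_mul]
    exact eq_neg_of_add_eq_zero_left h
  · have h := congrFun (congrFun ht 1) 1
    have h5 := rho_p0 j0 i1.1 (XS M) (ZS M) h0 hZ h01 k V
    rw [h5] at h
    simp only [Matrix.mul_apply, Fin.sum_univ_two, hw01, mul_zero, zero_add] at h
    exact h

end ExoticGen
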