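import Pool.Agent.Lib.MP_2d4659_gt.EX85.InfA
import Pool.Agent.Lib.MP_2d4659_gt.EX85.Ker

/-!
# Infinitely many exotic complexes: the kernels
-/

set_option autoImplicit false
set_option linter.unusedSimpArgs false

open Polynomial

namespace ExoticGen

open FP

section ring
variable {A : Type*} [Ring A] {M : ℕ} {k V : ℤ} {T0 E : ℤ[X]} {a : A} (ha : a ^ M = 1)
  (hT : C V * (X - 1) * cP M k + T0 * etaP k = 1 + E * (X ^ M - 1))

theorem cc_am1 : cc M k a * (a - 1) = (a - 1) * cc M k a := by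
  have : a - 1 = aeval a (X - 1 : ℤ[X]) := by simp
  rw [this, cc, pc]

theorem ee_am1 : ee k a * (a - 1) = (a - 1) * ee k a := by
  have : a - 1 = aeval a (X - 1 : ℤ[X]) := by simp
  rw [this, ee_eq, pc]

include ha

theorem rel_fst (h : A) : cc M k a * p0 M k V a h =
    (1 - (V : A) * (a - 1) * ee k a * h * cc M k a) * (((QQ M k : ℤ) : A) * (a - 1)) := by
  have h1 := cc_ee (k := k) ha
  have h2 := cc_am1 (M := M) (k := k) (a := a)
  have h4 : ∀ x : A, x * (V : A) = (V : A) * x := int_comm V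
  have h5 : ∀ x : A, x * ((QQ M k : ℤ) : A) = ((QQ M k : ℤ) : A) * x := int_comm _
  unfold p0
  generalize cc M k a = c at *
  generalize ee k a = e at *
  generalize ((QQ M k : ℤ) : A) = q at *
  generalize (V : A) = v at *
  generalize a - 1 = d at *
  have g1 : ∀ x, c * (e * x) = q * x := fun x => by rw [← mul_assoc, h1]
  have g2 : ∀ x, c * (d * x) = d * (c * x) := fun x => by rw [← mul_assoc, h2, mul_assoc]
  have r1 : ∀ y x, y * (q * x) = q * (y * x) := fun y x => by rw [← mul_assoc, h5, mul_assoc]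
  have r2 : ∀ y x, y * (v * x) = v * (y * x) := fun y x => by rw [← mul_assoc, h4, mul_assoc]
  simp only [mul_sub, sub_mul, one_mul, pow_two, mul_assoc, h1, h2, g1, g2,
    h5 c, h5 d, h5 e, h5 h, h4 c, h4 d, h4 e, h4 h, h5 v,
    r1 c, r1 d, r1 e, r1 h, r2 c, r2 d, r2 e, r2 h, r1 v]

include hT

theorem rel_snd (h : A) : cc M k a * p1 M k V T0 a h =
    (1 - (V : A) * (a - 1) * ee k a * h * cc M k a) * ((a - 1) * xx k a h * cc M k a) := by
  have h1 := cc_ee (k := k) ha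
  have h2 := cc_am1 (M := M) (k := k) (a := a)
  have h3 := unit_T0 ha hT
  have h4 : ∀ x : A, x * (V : A) = (V : A) * x := int_comm V
  have h5 : ∀ x : A, x * ((QQ M k : ℤ) : A) = ((QQ M k : ℤ) : A) * x := int_comm _
  have h6 : cc M k a * aeval a T0 = aeval a T0 * cc M k a := by rw [cc, pc]
  unfold p1 xx
  generalize aeval a T0 = t at *
  generalize cc M k a = c at *
  generalize ee k a = e at *
  generalize ((QQ M k : ℤ) : A) = q at *
  generalize (V : A) = v at *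
  generalize a - 1 = d at *
  have g1 : ∀ x, c * (e * x) = q * x := fun x => by rw [← mul_assoc, h1]
  have g2 : ∀ x, c * (d * x) = d * (c * x) := fun x => by rw [← mul_assoc, h2, mul_assoc]
  have r1 : ∀ y x, y * (q * x) = q * (y * x) := fun y x => by rw [← mul_assoc, h5, mul_assoc]
  have r2 : ∀ y x, y * (v * x) = v * (y * x) := fun y x => by rw [← mul_assoc, h4, mul_assoc]
  have h7 : q * t = c - v * (d * (c * c)) := by
    have h8 : c * (v * d * c + t * e) = c := by rw [h3, mul_one]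
    have h9 : c * (v * d * c + t * e) = v * (d * (c * c)) + q * t := by
      rw [mul_add, ← mul_assoc c t, h6]
      simp only [mul_assoc, r2 c, g2, h1, h5 t]
    rw [h9] at h8
    exact eq_sub_of_add_eq' h8
  have h9 : q * (d * (e * (h * t))) = d * (e * (h * c)) - v * (d * (e * (h * (d * (c * c))))) := by
    have h10 : q * (d * (e * (h * t))) = d * (e * (h * (q * t))) := by
      simp only [r1 d, r1 e, r1 h]
    rw [h10, h7]
    simp only [mul_sub, r2 d, r2 e, r2 h]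
  simp only [mul_sub, sub_mul, mul_add, add_mul, one_mul, mul_one, pow_two, mul_assoc, h1, h2, g1,
    g2, h5 c, h5 d, h5 e, h5 h, h4 c, h4 d, h4 e, h4 h, h5 v,
    r1 c, r1 d, r1 e, r1 h, r2 c, r2 d, r2 e, r2 h, r1 v, h9]
  abel

end ring

variable {J Y : Type} {m : J → ℕ}

open Classical in
/-- an element of the kernel -/
noncomputable def vv (p q : KG ℤ m) (i1 : FJ m) (y0 : Y) : Co m Y → KG ℤ m :=
  fun c => if c = Sum.inl i1 then p else if c = Sum.inr y0 then -q else 0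

theorem vv_inl (p q : KG ℤ m) (i1 : FJ m) (y0 : Y) : vv p q i1 y0 (Sum.inl i1) = p := if_pos rfl

theorem vv_inr (p q : KG ℤ m) (i1 : FJ m) (y0 : Y) : vv p q i1 y0 (Sum.inr y0) = -q :=
  (if_neg Sum.inr_ne_inl).trans (if_pos rfl)

theorem vv_inl' (p q : KG ℤ m) (i1 : FJ m) (y0 : Y) (i : FJ m) (h : i ≠ i1) :
    vv p q i1 y0 (Sum.inl i) = 0 :=
  (if_neg (fun h' => h (Sum.inl.inj h'))).trans (if_neg Sum.inl_ne_inr)

theorem vv_inr' (p q : KG ℤ m) (i1 : FJ m) (y0 : Y) (z : Y) (h : z ≠ y0) :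
    vv p q i1 y0 (Sum.inr z) = 0 :=
  (if_neg Sum.inr_ne_inl).trans (if_neg (fun h' => h (Sum.inr.inj h')))

theorem vv_mem (p q x y : KG ℤ m) (i1 : FJ m) (y0 : Y) (h1 : p * nn (m i1.1) (ga ℤ m i1.1) = 0)
    (h2 : p * x = q * y) : vv p q i1 y0 ∈ K1 x y i1 y0 := by
  refine ⟨fun i => ?_, fun z hz => vv_inr' _ _ _ _ z hz, ?_⟩
  · by_cases h : i = i1
    · subst h
      rw [vv_inl, h1]
    · rw [vv_inl' _ _ _ _ i h, zero_mul]
  · rw [vv_inl, vv_inr, h2]
    noncomm_ring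

theorem vv_smul (r p q : KG ℤ m) (i1 : FJ m) (y0 : Y) :
    r • vv p q i1 y0 = vv (r * p) (r * q) i1 y0 := by
  ext1 c
  rw [Pi.smul_apply, smul_eq_mul]
  unfold vv
  split_ifs
  · rfl
  · rw [mul_neg]
  · rw [mul_zero]

section rows
variable (M : ℕ) [hM : NeZero M] (j0 : J) (h0 : m j0 = 0) (i1 : FJ m) (hi : m i1.1 = M)
  (hZ : ((ZS M : (SS M)ˣ) : SS M) ^ m i1.1 = 1) (hM1 : 1 < M)
include hi hM1

theorem row_zero (w : KG ℤ m) (hw : nn (m i1.1) (ga ℤ m i1.1) * w = 0) :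
    rho j0 i1.1 (XS M) (ZS M) h0 hZ w 0 1 = 0 := by
  have hnZ : nn (m i1.1) ((ZS M : (SS M)ˣ) : SS M) = 0 := by rw [hi]; exact nn_ZS M hM1
  have hrn := rho_nn j0 i1.1 (XS M) (ZS M) h0 hZ hnZ
  have h := congrArg (fun z => rho j0 i1.1 (XS M) (ZS M) h0 hZ z 0 1) hw
  simp only [map_mul, map_zero] at h
  rw [hrn] at h
  simp [Matrix.mul_apply, Fin.sum_univ_two] at h
  exact SS_torsion (by omega) h

theorem col_zero (w : KG ℤ m) (hw : w * nn (m i1.1) (ga ℤ m i1.1) = 0) :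
    rho j0 i1.1 (XS M) (ZS M) h0 hZ w 1 0 = 0 := by
  have hnZ : nn (m i1.1) ((ZS M : (SS M)ˣ) : SS M) = 0 := by rw [hi]; exact nn_ZS M hM1
  have hrn := rho_nn j0 i1.1 (XS M) (ZS M) h0 hZ hnZ
  have h := congrArg (fun z => rho j0 i1.1 (XS M) (ZS M) h0 hZ z 1 0) hw
  simp only [map_mul, map_zero] at h
  rw [hrn] at h
  simp [Matrix.mul_apply, Fin.sum_univ_two] at h
  exact SS_torsion' (by omega) h

end rows

end ExoticGen
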