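import Pool.Agent.Lib.MP_2d4659_gt.EX85.InfB

/-!
# Infinitely many exotic complexes: the kernels are not isomorphic
-/

set_option autoImplicit false

open Polynomial

namespace ExoticGen

open FP

variable {J Y : Type} {m : J → ℕ}

section main
variable (j0 : J) (h0 : m j0 = 0) (i1 : FJ m) [hM : NeZero (m i1.1)] (y0 : Y) (k V : ℤ)
  {T0 E : ℤ[X]}
  (hT : C V * (X - 1) * cP (m i1.1) k + T0 * etaP k = 1 + E * (X ^ m i1.1 - 1))

/-- the kernel of the exotic boundary map -/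
noncomputable abbrev KK (h : KG ℤ m) : Submodule (KG ℤ m) (Co m Y → KG ℤ m) :=
  K1 (xx k (ga ℤ m i1.1) h) (ee k (ga ℤ m i1.1)) i1 y0

/-- the representation -/
noncomputable abbrev rr : KG ℤ m →ₐ[ℤ] Matrix (Fin 2) (Fin 2) (SS (m i1.1)) :=
  rho j0 i1.1 (XS (m i1.1)) (ZS (m i1.1)) h0 (ZS_pow (m i1.1))

/-- the first element of the kernel -/
noncomputable def g1 (h : KG ℤ m) : KK i1 y0 k h :=
  ⟨vv (((QQ (m i1.1) k : ℤ) : KG ℤ m) * (ga ℤ m i1.1 - 1))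
      ((ga ℤ m i1.1 - 1) * xx k (ga ℤ m i1.1) h * cc (m i1.1) k (ga ℤ m i1.1)) i1 y0,
    vv_mem _ _ _ _ i1 y0 (Q_nn (ga_pow ℤ i1.1)) (Q_ker (ga_pow ℤ i1.1) h)⟩

/-- the second element of the kernel -/
noncomputable def g2 (h : KG ℤ m) : KK i1 y0 k h :=
  ⟨vv (p0 (m i1.1) k V (ga ℤ m i1.1) h) (p1 (m i1.1) k V T0 (ga ℤ m i1.1) h) i1 y0,
    vv_mem _ _ _ _ i1 y0 (p0_nn (ga_pow ℤ i1.1) h) (p0_p1 (ga_pow ℤ i1.1) hT h)⟩

omit hM in
theorem rel (h : KG ℤ m) : cc (m i1.1) k (ga ℤ m i1.1) • g2 i1 y0 k V hT h =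
    (1 - (V : KG ℤ m) * (ga ℤ m i1.1 - 1) * ee k (ga ℤ m i1.1) * h *
      cc (m i1.1) k (ga ℤ m i1.1)) • g1 i1 y0 k h := by
  apply Subtype.ext
  show cc (m i1.1) k (ga ℤ m i1.1) • vv _ _ i1 y0 = _ • vv _ _ i1 y0
  rw [vv_smul, vv_smul, rel_fst (ga_pow ℤ i1.1) h, rel_snd (ga_pow ℤ i1.1) hT h]

omit hM in
theorem nn_g1 (h : KG ℤ m) : nn (m i1.1) (ga ℤ m i1.1) • g1 i1 y0 k h = 0 := by
  apply Subtype.ext
  show nn (m i1.1) (ga ℤ m i1.1) • vv _ _ i1 y0 = 0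
  rw [vv_smul]
  have h1 := nn_am1 (ga_pow (m := m) ℤ i1.1)
  have e1 : nn (m i1.1) (ga ℤ m i1.1) * (((QQ (m i1.1) k : ℤ) : KG ℤ m) * (ga ℤ m i1.1 - 1)) = 0 := by
    rw [← int_comm, ← mul_assoc, h1, zero_mul]
  have e2 : nn (m i1.1) (ga ℤ m i1.1) *
      ((ga ℤ m i1.1 - 1) * xx k (ga ℤ m i1.1) h * cc (m i1.1) k (ga ℤ m i1.1)) = 0 := by
    rw [← mul_assoc, ← mul_assoc, h1, zero_mul, zero_mul]
  rw [e1, e2]
  ext1 c
  unfold vv
  split_ifs <;> simp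

open Classical in
/-- the elements belonging to the other relators -/
noncomputable def kap (h : KG ℤ m) (i : FJ m) : KK i1 y0 k h :=
  if hi : i = i1 then 0 else ⟨Pi.single (Sum.inl i) (ga ℤ m i.1 - 1), by
    refine ⟨fun i' => ?_, fun z _ => ?_, ?_⟩
    · by_cases h : i' = i
      · subst h
        rw [Pi.single_eq_same, am1_nn (ga_pow ℤ i'.1)]
      · rw [Pi.single_eq_of_ne (fun h' => h (Sum.inl.inj h')), zero_mul]
    · rw [Pi.single_eq_of_ne Sum.inr_ne_inl]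
    · rw [Pi.single_eq_of_ne (fun h' => hi (Sum.inl.inj h').symm), Pi.single_eq_of_ne Sum.inr_ne_inl,
        zero_mul, zero_mul, add_zero]⟩

omit hM in
theorem nn_kap (h : KG ℤ m) (i : FJ m) : nn (m i.1) (ga ℤ m i.1) • kap i1 y0 k h i = 0 := by
  classical
  unfold kap
  by_cases hi : i = i1
  · rw [dif_pos hi, smul_zero]
  · rw [dif_neg hi]
    apply Subtype.ext
    show nn (m i.1) (ga ℤ m i.1) • (Pi.single (Sum.inl i) (ga ℤ m i.1 - 1) : Co m Y → KG ℤ m) = 0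
    rw [← Pi.single_smul, smul_eq_mul, nn_am1 (ga_pow ℤ i.1), Pi.single_zero]

theorem rr_kap {h h' : KG ℤ m} (φ : KK i1 y0 k h →ₗ[KG ℤ m] KK i1 y0 k h') (i : FJ m) :
    rr j0 h0 i1 ((φ (kap i1 y0 k h i) : Co m Y → KG ℤ m) (Sum.inl i1)) = 0 := by
  by_cases hi : i = i1
  · have : kap i1 y0 k h i = 0 := dif_pos hi
    rw [this, map_zero]
    exact map_zero _
  · have hi' : i.1 ≠ i1.1 := fun h => hi (Subtype.ext h)
    have h2 : nn (m i.1) (ga ℤ m i.1) • φ (kap i1 y0 k h i) = 0 := by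
      rw [← map_smul, nn_kap, map_zero]
    have h3 : nn (m i.1) (ga ℤ m i.1) *
        (φ (kap i1 y0 k h i) : Co m Y → KG ℤ m) (Sum.inl i1) = 0 :=
      congrFun (congrArg Subtype.val h2) (Sum.inl i1)
    have h1 := congrArg (rr j0 h0 i1) h3
    rw [map_mul, map_zero, rho_nn_other j0 i1.1 (XS (m i1.1)) (ZS (m i1.1)) h0
      (ZS_pow (m i1.1)) i.2 hi'] at h1
    refine Matrix.ext fun r c => ?_
    have h2 := congrFun (congrFun h1 r) c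
    rw [Matrix.zero_apply] at h2 ⊢
    rw [Matrix.mul_apply, Fin.sum_univ_two] at h2
    fin_cases r
    · simp at h2
      exact SS_torsion i.2 h2
    · simp at h2
      exact SS_torsion i.2 h2

theorem rr_g1 (hM1 : 1 < m i1.1) {h h' : KG ℤ m} (φ : KK i1 y0 k h →ₗ[KG ℤ m] KK i1 y0 k h') :
    rr j0 h0 i1 ((φ (g1 i1 y0 k h) : Co m Y → KG ℤ m) (Sum.inl i1)) 0 1 = 0 := by
  apply row_zero (m i1.1) j0 h0 i1 rfl _ hM1
  have h2 : nn (m i1.1) (ga ℤ m i1.1) • φ (g1 i1 y0 k h) = 0 := by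
    rw [← map_smul, nn_g1, map_zero]
  exact congrFun (congrArg Subtype.val h2) (Sum.inl i1)

theorem rr_col (hM1 : 1 < m i1.1) {h : KG ℤ m} (w : KK i1 y0 k h) :
    rr j0 h0 i1 ((w : Co m Y → KG ℤ m) (Sum.inl i1)) 1 0 = 0 :=
  col_zero (m i1.1) j0 h0 i1 rfl _ hM1 _ (w.2.1 i1)

omit hM in
theorem decomp [Fintype (FJ m)] (h : KG ℤ m) (w : KK i1 y0 k h) :
    ∃ (p : KG ℤ m) (u : FJ m → KG ℤ m),
      (w : Co m Y → KG ℤ m) (Sum.inl i1) = p * (ga ℤ m i1.1 - 1) ∧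
      ((QQ (m i1.1) k : ℤ) : KG ℤ m) • w = p • g1 i1 y0 k h + ∑ i, u i • kap i1 y0 k h i := by
  classical
  have h1 : ∀ i : FJ m, ∃ u, (w : Co m Y → KG ℤ m) (Sum.inl i) = u * (ga ℤ m i.1 - 1) :=
    fun i => kerN i.1 i.2 _ (w.2.1 i)
  choose u hu using h1
  set q : KG ℤ m := ((QQ (m i1.1) k : ℤ) : KG ℤ m) with hq
  refine ⟨u i1, fun i => q * u i, hu i1, ?_⟩
  apply Subtype.ext
  ext1 c
  rw [Submodule.coe_add, Pi.add_apply, AddSubmonoidClass.coe_finsetSum, Finset.sum_apply]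
  show q * (w : Co m Y → KG ℤ m) c = u i1 * (g1 i1 y0 k h : Co m Y → KG ℤ m) c +
    ∑ i, (q * u i) * (kap i1 y0 k h i : Co m Y → KG ℤ m) c
  have hkap1 : (kap i1 y0 k h i1 : Co m Y → KG ℤ m) = 0 := by
    have : kap i1 y0 k h i1 = 0 := dif_pos rfl
    rw [this]; rfl
  have hkap : ∀ i, i ≠ i1 → (kap i1 y0 k h i : Co m Y → KG ℤ m) =
      Pi.single (Sum.inl i) (ga ℤ m i.1 - 1) := by
    intro i hi
    unfold kap
    rw [dif_neg hi]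
  rcases c with i | z
  · by_cases hi : i = i1
    · subst hi
      have e1 : (g1 i y0 k h : Co m Y → KG ℤ m) (Sum.inl i) = q * (ga ℤ m i.1 - 1) := vv_inl _ _ _ _
      rw [e1, Finset.sum_eq_zero, add_zero, hu]
      · rw [← mul_assoc, ← mul_assoc, int_comm]
      · intro i' _
        by_cases hi' : i' = i
        · subst hi'
          rw [hkap1, Pi.zero_apply, mul_zero]
        · rw [hkap i' hi', Pi.single_eq_of_ne (fun h' => hi' (Sum.inl.inj h').symm), mul_zero]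
    · have e1 : (g1 i1 y0 k h : Co m Y → KG ℤ m) (Sum.inl i) = 0 := vv_inl' _ _ _ _ i hi
      rw [e1, mul_zero, zero_add, Finset.sum_eq_single i]
      · rw [hkap i hi, Pi.single_eq_same, hu, mul_assoc]
      · intro i' _ hi'
        by_cases hi'' : i' = i1
        · subst hi''
          rw [hkap1, Pi.zero_apply, mul_zero]
        · rw [hkap i' hi'', Pi.single_eq_of_ne (fun h' => hi' (Sum.inl.inj h').symm), mul_zero]
      · intro h; exact absurd (Finset.mem_univ i) h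
  · have hs : ∑ i, (q * u i) * (kap i1 y0 k h i : Co m Y → KG ℤ m) (Sum.inr z) = 0 := by
      refine Finset.sum_eq_zero fun i' _ => ?_
      by_cases hi'' : i' = i1
      · subst hi''
        rw [hkap1, Pi.zero_apply, mul_zero]
      · rw [hkap i' hi'', Pi.single_eq_of_ne Sum.inr_ne_inl, mul_zero]
    rw [hs, add_zero]
    by_cases hz : z = y0
    · subst hz
      have e1 : (g1 i1 z k h : Co m Y → KG ℤ m) (Sum.inr z) =
        -((ga ℤ m i1.1 - 1) * xx k (ga ℤ m i1.1) h * cc (m i1.1) k (ga ℤ m i1.1)) :=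
        vv_inr (((QQ (m i1.1) k : ℤ) : KG ℤ m) * (ga ℤ m i1.1 - 1)) _ i1 z
      have h3 := w.2.2.2
      have h4 : (w : Co m Y → KG ℤ m) (Sum.inr z) * ee k (ga ℤ m i1.1) =
          -((w : Co m Y → KG ℤ m) (Sum.inl i1) * xx k (ga ℤ m i1.1) h) :=
        eq_neg_of_add_eq_zero_right h3
      rw [e1, hq, ← int_comm, ← ee_cc (k := k) (ga_pow (m := m) ℤ i1.1), ← mul_assoc, h4, hu]
      noncomm_ring
    · have e1 : (g1 i1 y0 k h : Co m Y → KG ℤ m) (Sum.inr z) = 0 :=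
        vv_inr' (((QQ (m i1.1) k : ℤ) : KG ℤ m) * (ga ℤ m i1.1 - 1)) _ i1 y0 z hz
      rw [w.2.2.1 z hz, e1, mul_zero, mul_zero]

/-- Lemma A -/
theorem lemA [Fintype (FJ m)] (hM1 : 1 < m i1.1) {h h' : KG ℤ m}
    (θ : KK i1 y0 k h ≃ₗ[KG ℤ m] KK i1 y0 k h') :
    ∃ r : SS (m i1.1), r * (ZZ (m i1.1) - 1) =
        rr j0 h0 i1 ((θ (g1 i1 y0 k h) : Co m Y → KG ℤ m) (Sum.inl i1)) 1 1 ∧
      r * rr j0 h0 i1 ((θ.symm (g1 i1 y0 k h') : Co m Y → KG ℤ m) (Sum.inl i1)) 1 1 =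
        ((QQ (m i1.1) k : ℤ) : SS (m i1.1)) * ((QQ (m i1.1) k : ℤ) : SS (m i1.1)) *
          (ZZ (m i1.1) - 1) := by
  obtain ⟨p, u, hp, hpu⟩ := decomp i1 y0 k h' (θ (g1 i1 y0 k h))
  refine ⟨rr j0 h0 i1 p 1 1, ?_, ?_⟩
  · rw [hp, map_mul, rho_am1]
    simp [Matrix.mul_apply, Fin.sum_univ_two]
  · have h1 := congrArg θ.symm hpu
    rw [map_smul, map_add, map_smul, map_sum, LinearEquiv.symm_apply_apply] at h1
    simp only [map_smul] at h1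
    have h2 := congrFun (congrArg Subtype.val h1) (Sum.inl i1)
    rw [Submodule.coe_add, Pi.add_apply, AddSubmonoidClass.coe_finsetSum, Finset.sum_apply] at h2
    have h3 : ((QQ (m i1.1) k : ℤ) : KG ℤ m) * (((QQ (m i1.1) k : ℤ) : KG ℤ m) *
        (ga ℤ m i1.1 - 1)) = p * (θ.symm (g1 i1 y0 k h') : Co m Y → KG ℤ m) (Sum.inl i1) +
        ∑ i, u i * (θ.symm (kap i1 y0 k h' i) : Co m Y → KG ℤ m) (Sum.inl i1) := by
      have e1 : (g1 i1 y0 k h : Co m Y → KG ℤ m) (Sum.inl i1) =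
        ((QQ (m i1.1) k : ℤ) : KG ℤ m) * (ga ℤ m i1.1 - 1) := vv_inl _ _ _ _
      rw [← e1]
      exact h2
    have h4 := congrArg (fun z => rr j0 h0 i1 z 1 1) h3
    simp only [map_add, map_mul, map_sum] at h4
    rw [Finset.sum_eq_zero (fun i _ => by
      rw [show rr j0 h0 i1 ((θ.symm (kap i1 y0 k h' i) : Co m Y → KG ℤ m) (Sum.inl i1)) = 0 from
        rr_kap j0 h0 i1 y0 k (θ.symm : KK i1 y0 k h' →ₗ[KG ℤ m] KK i1 y0 k h) i, mul_zero]), add_zero,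
      rho_int, rho_am1] at h4
    have h5 : rr j0 h0 i1 ((θ.symm (g1 i1 y0 k h') : Co m Y → KG ℤ m) (Sum.inl i1)) 0 1 = 0 :=
      rr_g1 j0 h0 i1 y0 k hM1 (θ.symm : KK i1 y0 k h' →ₗ[KG ℤ m] KK i1 y0 k h)
    simp only [Matrix.mul_apply, Fin.sum_univ_two] at h4
    rw [h5] at h4
    simp at h4
    rw [← h4, mul_assoc]

theorem rr_coef (h : KG ℤ m) : rr j0 h0 i1 ((V : KG ℤ m) * (ga ℤ m i1.1 - 1) *
    ee k (ga ℤ m i1.1) * h * cc (m i1.1) k (ga ℤ m i1.1)) 1 1 =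
    (V : SS (m i1.1)) * (ZZ (m i1.1) - 1) * ee k (ZZ (m i1.1)) * rr j0 h0 i1 h 1 1 *
        cc (m i1.1) k (ZZ (m i1.1)) := by
  rw [map_mul, map_mul, map_mul, map_mul, rho_am1, rho_int, rho_ee, cc_ev, rho_ev, ← cc_ev,
    ← cc_ev]
  generalize rr j0 h0 i1 h = R
  simp only [Matrix.mul_apply, Fin.sum_univ_two]
  simp

theorem rr_xx (h : KG ℤ m) : rr j0 h0 i1 (xx k (ga ℤ m i1.1) h) 1 1 =
    1 + ee k (ZZ (m i1.1)) * rr j0 h0 i1 h 1 1 := by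
  unfold xx
  rw [map_add, map_mul, map_one, rho_ee]
  generalize rr j0 h0 i1 h = R
  simp only [Matrix.add_apply, Matrix.mul_apply, Fin.sum_univ_two]
  simp

/-- Lemma C -/
theorem lemC (hM1 : 1 < m i1.1) {h h' : KG ℤ m} (θ : KK i1 y0 k h ≃ₗ[KG ℤ m] KK i1 y0 k h')
    (hT : C V * (X - 1) * cP (m i1.1) k + T0 * etaP k = 1 + E * (X ^ m i1.1 - 1)) :
    ∃ e f : SS (m i1.1), cc (m i1.1) k (ZZ (m i1.1)) * e =
      (1 - (V : SS (m i1.1)) * (ZZ (m i1.1) - 1) * ee k (ZZ (m i1.1)) * rr j0 h0 i1 h 1 1 *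
        cc (m i1.1) k (ZZ (m i1.1))) *
        rr j0 h0 i1 ((θ (g1 i1 y0 k h) : Co m Y → KG ℤ m) (Sum.inl i1)) 1 1 ∧
      e * (1 + ee k (ZZ (m i1.1)) * rr j0 h0 i1 h' 1 1) = f * ee k (ZZ (m i1.1)) := by
  refine ⟨rr j0 h0 i1 ((θ (g2 i1 y0 k V hT h) : Co m Y → KG ℤ m) (Sum.inl i1)) 1 1,
    -(rr j0 h0 i1 ((θ (g2 i1 y0 k V hT h) : Co m Y → KG ℤ m) (Sum.inr y0)) 1 1), ?_, ?_⟩
  · have h1 := congrArg θ (rel i1 y0 k V hT h)
    rw [map_smul, map_smul] at h1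
    have h2 : cc (m i1.1) k (ga ℤ m i1.1) *
        (θ (g2 i1 y0 k V hT h) : Co m Y → KG ℤ m) (Sum.inl i1) =
        (1 - (V : KG ℤ m) * (ga ℤ m i1.1 - 1) * ee k (ga ℤ m i1.1) * h *
          cc (m i1.1) k (ga ℤ m i1.1)) *
        (θ (g1 i1 y0 k h) : Co m Y → KG ℤ m) (Sum.inl i1) :=
      congrFun (congrArg Subtype.val h1) (Sum.inl i1)
    have h4 := congrArg (fun z => rr j0 h0 i1 z 1 1) h2
    have h5 : rr j0 h0 i1 ((θ (g1 i1 y0 k h) : Co m Y → KG ℤ m) (Sum.inl i1)) 0 1 = 0 :=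
      rr_g1 j0 h0 i1 y0 k hM1 (θ : KK i1 y0 k h →ₗ[KG ℤ m] KK i1 y0 k h')
    have h7 : rr j0 h0 i1 (1 - (V : KG ℤ m) * (ga ℤ m i1.1 - 1) * ee k (ga ℤ m i1.1) * h *
          cc (m i1.1) k (ga ℤ m i1.1)) 1 1 = 1 - (V : SS (m i1.1)) * (ZZ (m i1.1) - 1) *
          ee k (ZZ (m i1.1)) * rr j0 h0 i1 h 1 1 * cc (m i1.1) k (ZZ (m i1.1)) := by
      rw [map_sub, map_one, Matrix.sub_apply, rr_coef, Matrix.one_apply_eq]
    have h8 : rr j0 h0 i1 (cc (m i1.1) k (ga ℤ m i1.1)) 1 0 = 0 ∧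
        rr j0 h0 i1 (cc (m i1.1) k (ga ℤ m i1.1)) 1 1 = cc (m i1.1) k (ZZ (m i1.1)) := by
      rw [cc_ev, rho_ev]
      exact ⟨rfl, rfl⟩
    rw [map_mul, map_mul, Matrix.mul_apply, Matrix.mul_apply, Fin.sum_univ_two, Fin.sum_univ_two,
      h5, h7, h8.1, h8.2, mul_zero, zero_mul, zero_add, zero_add] at h4
    exact h4
  · have h1 := (θ (g2 i1 y0 k V hT h)).2.2.2
    have h4 := congrArg (fun z => rr j0 h0 i1 z 1 1) h1
    have h5 := rr_col j0 h0 i1 y0 k hM1 (θ (g2 i1 y0 k V hT h))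
    have h6 : rr j0 h0 i1 (ee k (ga ℤ m i1.1)) 0 1 = 0 ∧
        rr j0 h0 i1 (ee k (ga ℤ m i1.1)) 1 1 = ee k (ZZ (m i1.1)) := by
      rw [rho_ee]
      exact ⟨rfl, rfl⟩
    generalize (θ (g2 i1 y0 k V hT h) : Co m Y → KG ℤ m) (Sum.inl i1) = w at *
    generalize (θ (g2 i1 y0 k V hT h) : Co m Y → KG ℤ m) (Sum.inr y0) = w' at *
    rw [map_add, map_mul, map_mul, map_zero, Matrix.add_apply, Matrix.mul_apply, Matrix.mul_apply,
      Fin.sum_univ_two, Fin.sum_univ_two, h5, h6.1, h6.2, rr_xx, zero_mul, zero_add, mul_zero,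
      zero_add, Matrix.zero_apply] at h4
    rw [neg_mul]
    exact eq_neg_of_add_eq_zero_left h4

/-- the kernels are not isomorphic -/
theorem no_iso [Fintype (FJ m)] (hM3 : 3 ≤ m i1.1) {p : ℕ} [Fact p.Prime] (μ : ZMod p)
    (hμ : IsPrimitiveRoot μ (m i1.1)) (hk : ((k : ZMod p) + 1) * μ = (k : ZMod p))
    (hMp : (m i1.1 : ZMod p) ≠ 0) (hQ : QQ (m i1.1) k ≠ 0)
    (hT : C V * (X - 1) * cP (m i1.1) k + T0 * etaP k = 1 + E * (X ^ m i1.1 - 1))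
    {h h' : KG ℤ m} (g g' : ℤ[X])
    (hg : ((rr j0 h0 i1 h 1 1 : SS (m i1.1)) : Mt (m i1.1)) = Hm (m i1.1) g)
    (hg' : ((rr j0 h0 i1 h' 1 1 : SS (m i1.1)) : Mt (m i1.1)) = Hm (m i1.1) g')
    (j : ℕ) (hj : (g'.coeff j : ZMod p) ≠ 0) (hj' : (g.coeff j : ZMod p) = 0) :
    IsEmpty (KK i1 y0 k h ≃ₗ[KG ℤ m] KK i1 y0 k h') := by
  refine ⟨fun θ => ?_⟩
  have hMp' : NeZero (m i1.1 : ZMod p) := ⟨hMp⟩
  have hM1 : 1 < m i1.1 := by omega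
  obtain ⟨r, h1, h2⟩ := lemA j0 h0 i1 y0 k hM1 θ
  obtain ⟨r', h1', h3⟩ := lemA j0 h0 i1 y0 k hM1 θ.symm
  rw [LinearEquiv.symm_symm] at h3
  obtain ⟨e, f, h4, h5⟩ := lemC j0 h0 i1 y0 k V hM1 θ hT
  obtain ⟨e', f', h6, h7⟩ := lemC j0 h0 i1 y0 k V hM1 θ.symm hT
  exact lemE (m i1.1) hM3 μ hμ k V hk hQ _ _ r r' _ _ e f e' f' g g' hg hg' h1 h2 h3 h4 h5 h6 h7 j
    hj hj'

end main

end ExoticGen
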