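import Pool.Agent.Lib.MP_2d4659_gt.EX85.InfC
import Pool.Agent.Lib.MP_2d4659_gt.EX85.Final

/-!
# Infinitely many exotic complexes: the theorem
-/

set_option autoImplicit false

open Polynomial

namespace ExoticGen

open FP

variable {J Y : Type} {m : J → ℕ}

theorem cf_xx' (k : Type) [CommRing k] (κ : ℤ) (j : J) (h : KG ℤ m) :
    cf k m (xx κ (ga ℤ m j) h) = xx κ (ga k m j) (cf k m h) := by
  unfold xx
  rw [map_add, map_one, map_mul, cf_ee]

theorem ladder_symm {k : Type} [CommRing k] {X n : Type}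
    {d d' : (n → RG k m) →ₗ[RG k m] (X → RG k m)} (h : LadderIso k d d') : LadderIso k d' d := by
  obtain ⟨h, rfl⟩ := h
  refine ⟨h.symm, ?_⟩
  rw [LinearMap.comp_assoc, LinearEquiv.comp_symm, LinearMap.comp_id]

theorem ladder_trans {k : Type} [CommRing k] {X n : Type}
    {d d' d'' : (n → RG k m) →ₗ[RG k m] (X → RG k m)} (h : LadderIso k d d')
    (h' : LadderIso k d' d'') : LadderIso k d d'' := by
  obtain ⟨h, rfl⟩ := h
  obtain ⟨h', rfl⟩ := h'
  exact ⟨h.trans h', rfl⟩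

section fin
variable [Fintype J] [Fintype Y]

open Classical in
theorem range_exotic_iff' {k : Type} [CommRing k] (i1 : FJ m) (y0 : Y) (h : KG ℤ m) {κ V : ℤ}
    {T0 E : ℤ[X]} (hT : C V * (X - 1) * cP (m i1.1) κ + T0 * etaP κ = 1 + E * (X ^ m i1.1 - 1))
    (v : J ⊕ Y → RG k m) :
    (∃ u : Co m Y → RG k m,
      bdM k (D0 (xx κ (ga ℤ m i1.1) h) (ee κ (ga ℤ m i1.1)) i1 y0) u = v) ↔
    ∃ u : Co m Y → RG k m, bdM k (D0 0 1 i1 y0) u = v := by
  have ha := ga_pow (m := m) k i1.1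
  have hu := unimodular ha hT (cf k m h)
  have hs : ss (m i1.1) κ V (ga k m i1.1) * nn (m i1.1) (ga k m i1.1) = 0 := ss_nn ha
  set s := ss (m i1.1) κ V (ga k m i1.1)
  set t := tt (m i1.1) κ V T0 (ga k m i1.1) (cf k m h)
  constructor
  · rintro ⟨u, rfl⟩
    refine ⟨fun c => if c = Sum.inr y0 then u (Sum.inl i1) * xx κ (ga k m i1.1) (cf k m h) +
      u (Sum.inr y0) * ee κ (ga k m i1.1) else u c, ?_⟩
    ext1 c
    rcases c with j | z
    · by_cases hj : m j = 0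
      · rw [D0_inl' _ _ _ _ _ _ hj, D0_inl' _ _ _ _ _ _ hj]
      · have h := fun x y u => D0_inl (k := k) x y i1 y0 u ⟨j, hj⟩
        simp only at h
        rw [h, h, if_neg Sum.inl_ne_inr]
    · by_cases hz : z = y0
      · subst hz
        rw [D0_inr0, D0_inr0, if_pos rfl, if_neg Sum.inl_ne_inr, map_zero, map_one, mul_zero,
          zero_add, mul_one, cf_xx', cf_ee]
      · rw [D0_inr _ _ _ _ _ _ hz, D0_inr _ _ _ _ _ _ hz,
          if_neg (fun h => hz (Sum.inr.inj h))]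
  · rintro ⟨u, rfl⟩
    refine ⟨fun c => if c = Sum.inl i1 then u (Sum.inl i1) +
        (u (Sum.inr y0) - u (Sum.inl i1) * xx κ (ga k m i1.1) (cf k m h)) * s else
      if c = Sum.inr y0 then (u (Sum.inr y0) -
        u (Sum.inl i1) * xx κ (ga k m i1.1) (cf k m h)) * t else u c, ?_⟩
    ext1 c
    rcases c with j | z
    · by_cases hj : m j = 0
      · rw [D0_inl' _ _ _ _ _ _ hj, D0_inl' _ _ _ _ _ _ hj]
      · have h := fun x y u => D0_inl (k := k) x y i1 y0 u ⟨j, hj⟩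
        simp only at h
        rw [h, h]
        by_cases hi : (⟨j, hj⟩ : FJ m) = i1
        · subst hi
          rw [if_pos rfl, add_mul, mul_assoc _ s, hs, mul_zero, add_zero]
        · rw [if_neg (fun h' => hi (Sum.inl.inj h')), if_neg Sum.inl_ne_inr]
    · by_cases hz : z = y0
      · subst hz
        rw [D0_inr0, D0_inr0, if_pos rfl, if_neg Sum.inr_ne_inl, if_pos rfl, map_zero, map_one,
          mul_zero, zero_add, mul_one, cf_xx', cf_ee]
        set x' := xx κ (ga k m i1.1) (cf k m h)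
        set y' := ee κ (ga k m i1.1)
        have : (u (Sum.inl i1) + (u (Sum.inr z) - u (Sum.inl i1) * x') * s) * x' +
          (u (Sum.inr z) - u (Sum.inl i1) * x') * t * y' =
          u (Sum.inl i1) * x' + (u (Sum.inr z) - u (Sum.inl i1) * x') * (s * x' + t * y') := by
          noncomm_ring
        rw [this, hu, mul_one]
        abel
      · rw [D0_inr _ _ _ _ _ _ hz, D0_inr _ _ _ _ _ _ hz, if_neg Sum.inr_ne_inl,
          if_neg (fun h => hz (Sum.inr.inj h))]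

theorem mem_K1_iff' (i1 : FJ m) (y0 : Y) (h : KG ℤ m) (κ : ℤ) (u : Co m Y → RG ℤ m) :
    u ∈ K1 (xx κ (ga ℤ m i1.1) h) (ee κ (ga ℤ m i1.1)) i1 y0 ↔
      bdM ℤ (D0 (xx κ (ga ℤ m i1.1) h) (ee κ (ga ℤ m i1.1)) i1 y0) u = 0 := by
  have hcf : ∀ z : RG ℤ m, cf ℤ m z = z := by
    intro z
    unfold cf
    ext g
    rw [MonoidAlgebra.coeff_mapRingHom]
    simp
  constructor
  · rintro ⟨h1, h2, h3⟩
    ext1 c
    rw [Pi.zero_apply]
    rcases c with j | z
    · by_cases hj : m j = 0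
      · rw [D0_inl' _ _ _ _ _ _ hj]
      · have h := fun x y => D0_inl (k := ℤ) x y i1 y0 u ⟨j, hj⟩
        simp only at h
        rw [h]
        exact h1 ⟨j, hj⟩
    · by_cases hz : z = y0
      · subst hz
        rw [D0_inr0, hcf, hcf, h3]
      · rw [D0_inr _ _ _ _ _ _ hz, h2 z hz]
  · intro h'
    refine ⟨fun i => ?_, fun z hz => ?_, ?_⟩
    · rw [← D0_inl (k := ℤ) (xx κ (ga ℤ m i1.1) h) (ee κ (ga ℤ m i1.1)) i1 y0 u i, h']; rfl
    · have h'' := congrFun h' (Sum.inr z)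
      rw [D0_inr _ _ _ _ _ _ hz] at h''
      exact h''
    · have h'' := congrFun h' (Sum.inr y0)
      rw [D0_inr0, hcf, hcf] at h''
      exact h''

open Classical in
/-- an auxiliary map -/
noncomputable def phiL (i1 : FJ m) (y0 : Y) (e : KG ℤ m) :
    (Co m Y → KG ℤ m) →ₗ[KG ℤ m] (Co m Y → KG ℤ m) where
  toFun v := fun c => if c = Sum.inl i1 then -(v (Sum.inl i1) * e) else
    if c = Sum.inr y0 then v (Sum.inl i1) else v c
  map_add' v w := by
    ext1 c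
    simp only [Pi.add_apply]
    split_ifs
    · noncomm_ring
    · rfl
    · rfl
  map_smul' r v := by
    ext1 c
    simp only [Pi.smul_apply, smul_eq_mul, RingHom.id_apply]
    split_ifs
    · noncomm_ring
    · rfl
    · rfl

open Classical in
/-- an auxiliary map -/
noncomputable def psiL (i1 : FJ m) (y0 : Y) :
    (Co m Y → KG ℤ m) →ₗ[KG ℤ m] (Co m Y → KG ℤ m) where
  toFun v := fun c => if c = Sum.inl i1 then v (Sum.inr y0) else
    if c = Sum.inr y0 then 0 else v c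
  map_add' v w := by
    ext1 c
    simp only [Pi.add_apply]
    split_ifs
    · rfl
    · rw [add_zero]
    · rfl
  map_smul' r v := by
    ext1 c
    simp only [Pi.smul_apply, smul_eq_mul, RingHom.id_apply]
    split_ifs
    · rfl
    · rw [mul_zero]
    · rfl

omit [Fintype J] [Fintype Y] in
theorem phi_1 (i1 : FJ m) (y0 : Y) (e : KG ℤ m) (v : Co m Y → KG ℤ m) :
    phiL i1 y0 e v (Sum.inl i1) = -(v (Sum.inl i1) * e) := if_pos rfl

omit [Fintype J] [Fintype Y] in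
theorem phi_2 (i1 : FJ m) (y0 : Y) (e : KG ℤ m) (v : Co m Y → KG ℤ m) :
    phiL i1 y0 e v (Sum.inr y0) = v (Sum.inl i1) := by
  unfold phiL
  simp

omit [Fintype J] [Fintype Y] in
theorem phi_3 (i1 : FJ m) (y0 : Y) (e : KG ℤ m) (v : Co m Y → KG ℤ m) (c : Co m Y)
    (h1 : c ≠ Sum.inl i1) (h2 : c ≠ Sum.inr y0) : phiL i1 y0 e v c = v c :=
  (if_neg h1).trans (if_neg h2)

omit [Fintype J] [Fintype Y] in
theorem psi_1 (i1 : FJ m) (y0 : Y) (v : Co m Y → KG ℤ m) :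
    psiL i1 y0 v (Sum.inl i1) = v (Sum.inr y0) := if_pos rfl

omit [Fintype J] [Fintype Y] in
theorem psi_2 (i1 : FJ m) (y0 : Y) (v : Co m Y → KG ℤ m) :
    psiL i1 y0 v (Sum.inr y0) = 0 := by
  unfold psiL
  simp

omit [Fintype J] [Fintype Y] in
theorem psi_3 (i1 : FJ m) (y0 : Y) (v : Co m Y → KG ℤ m) (c : Co m Y)
    (h1 : c ≠ Sum.inl i1) (h2 : c ≠ Sum.inr y0) : psiL i1 y0 v c = v c :=
  (if_neg h1).trans (if_neg h2)

omit [Fintype J] [Fintype Y] in
/-- the kernel of the standard boundary map, in terms of `x = 1`, `y = η` -/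
theorem stdKer (i1 : FJ m) (y0 : Y) (κ : ℤ) :
    Nonempty (K0 ℤ m Y ≃ₗ[KG ℤ m] KK i1 y0 κ (0 : KG ℤ m)) := by
  classical
  have ha := ga_pow (m := m) ℤ i1.1
  set e := ee κ (ga ℤ m i1.1) with he
  have hη : e * nn (m i1.1) (ga ℤ m i1.1) = nn (m i1.1) (ga ℤ m i1.1) := by
    have h1 := am1_nn ha
    have h2 : ga ℤ m i1.1 * nn (m i1.1) (ga ℤ m i1.1) = nn (m i1.1) (ga ℤ m i1.1) := by
      rw [sub_mul, one_mul] at h1
      exact sub_eq_zero.1 h1
    rw [he]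
    unfold ee
    rw [sub_mul, mul_assoc, h2]
    push_cast
    noncomm_ring
  have hx : xx κ (ga ℤ m i1.1) (0 : KG ℤ m) = 1 := by unfold xx; rw [mul_zero, add_zero]
  have hv : ∀ v ∈ KK i1 y0 κ (0 : KG ℤ m), v (Sum.inl i1) = -(v (Sum.inr y0) * e) := by
    intro v hv
    have h2 := hv.2.2
    rw [hx, mul_one] at h2
    exact eq_neg_of_add_eq_zero_left h2
  have h1 : ∀ v ∈ K0 ℤ m Y, phiL i1 y0 e v ∈ KK i1 y0 κ (0 : KG ℤ m) := by
    rintro v ⟨h1, h2⟩
    refine ⟨fun i => ?_, fun z hz => ?_, ?_⟩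
    · by_cases hi : i = i1
      · subst hi
        rw [phi_1, neg_mul, mul_assoc, hη, h1 i, neg_zero]
      · rw [phi_3 _ _ _ _ _ (fun h' => hi (Sum.inl.inj h')) Sum.inl_ne_inr, h1 i]
    · rw [phi_3 _ _ _ _ _ Sum.inr_ne_inl (fun h' => hz (Sum.inr.inj h')), h2 z]
    · rw [phi_1, phi_2, hx]
      noncomm_ring
  have h2 : ∀ v ∈ KK i1 y0 κ (0 : KG ℤ m), psiL i1 y0 v ∈ K0 ℤ m Y := by
    intro v hv'
    have h3 := hv v hv'
    refine ⟨fun i => ?_, fun z => ?_⟩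
    · have h4 := hv'.1 i
      by_cases hi : i = i1
      · subst hi
        rw [h3, neg_mul, mul_assoc, hη, neg_eq_zero] at h4
        rw [psi_1, h4]
      · rw [psi_3 _ _ _ _ (fun h' => hi (Sum.inl.inj h')) Sum.inl_ne_inr, h4]
    · by_cases hz : z = y0
      · subst hz
        rw [psi_2]
      · rw [psi_3 _ _ _ _ Sum.inr_ne_inl (fun h' => hz (Sum.inr.inj h')), hv'.2.1 z hz]
  refine ⟨LinearEquiv.ofLinearMap ((phiL i1 y0 e).restrict h1) ((psiL i1 y0).restrict h2) ?_ ?_⟩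
  · refine LinearMap.ext fun v => Subtype.ext ?_
    show phiL i1 y0 e (psiL i1 y0 (v : Co m Y → KG ℤ m)) = v
    ext1 c
    by_cases c1 : c = Sum.inl i1
    · rw [c1, phi_1, psi_1, hv _ v.2]
    · by_cases c2 : c = Sum.inr y0
      · rw [c2, phi_2, psi_1]
      · rw [phi_3 _ _ _ _ _ c1 c2, psi_3 _ _ _ _ c1 c2]
  · refine LinearMap.ext fun v => Subtype.ext ?_
    show psiL i1 y0 (phiL i1 y0 e (v : Co m Y → KG ℤ m)) = v
    ext1 c
    by_cases c1 : c = Sum.inl i1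
    · rw [c1, psi_1, phi_2]
    · by_cases c2 : c = Sum.inr y0
      · rw [c2, psi_2, v.2.2]
      · rw [psi_3 _ _ _ _ c1 c2, phi_3 _ _ _ _ _ c1 c2]

/-- the boundary map of the exotic complex -/
noncomputable abbrev DE (c : Y → J → RG ℤ m) (i1 : FJ m) (y0 : Y) (κ : ℤ) (h : RG ℤ m) :
    Matrix (FJ m ⊕ Y) (J ⊕ Y) (RG ℤ m) :=
  DD (Equiv.refl _) c (xx κ (ga ℤ m i1.1) h) (ee κ (ga ℤ m i1.1)) i1 y0

theorem ker_DD (c : Y → J → RG ℤ m) (x y : RG ℤ m) (i1 : FJ m) (y0 : Y)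
    (K : Submodule (KG ℤ m) (Co m Y → KG ℤ m))
    (hK : ∀ u, u ∈ K ↔ bdM ℤ (D0 x y i1 y0) u = 0) :
    LinearMap.ker (bdM ℤ (DD (Equiv.refl (FJ m ⊕ Y)) c x y i1 y0)) = K := by
  ext v
  rw [LinearMap.mem_ker, DD_apply, LinearEquiv.map_eq_zero_iff, hK]
  rfl

theorem infinite (m : J → ℕ) [Nonempty Y] (w : Y → Gp m) (c : Y → J → RG ℤ m)
    (hc : ∀ z, MonoidAlgebra.single (w z) 1 - 1 =
      ∑ j, c z j * (MonoidAlgebra.single (gen m j) 1 - 1))
    (j0 j1 : J) (h0 : m j0 = 0) (h1 : 3 ≤ m j1) :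
    ∃ D : ℕ → Matrix (FJ m ⊕ Y) (J ⊕ Y) (RG ℤ m), D 0 = stdM c ∧
      (∀ (k : Type) [CommRing k] (l : ℕ), IsBd2 k (gX m w) (bdM k (D l))) ∧
      (∀ (F : Type) [Field F] (l l' : ℕ), LadderIso F (bdM F (D l)) (bdM F (D l'))) ∧
      (∀ l l' : ℕ, LadderIso ℤ (bdM ℤ (zrow (D l))) (bdM ℤ (zrow (D l')))) ∧
      ∀ l l' : ℕ, l ≠ l' →
        IsEmpty (LinearMap.ker (bdM ℤ (D l)) ≃ₗ[RG ℤ m] LinearMap.ker (bdM ℤ (D l'))) := by
  classical
  obtain ⟨y0⟩ := ‹Nonempty Y›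
  obtain ⟨i1, hi1⟩ : ∃ i1 : FJ m, i1.1 = j1 := ⟨⟨j1, by omega⟩, rfl⟩
  subst hi1
  have hMne : NeZero (m i1.1) := ⟨by omega⟩
  have h01 : j0 ≠ i1.1 := by rintro rfl; exact i1.2 h0
  obtain ⟨p, hp, μ, κ, hμ, hk, hMp, hQ, hcop⟩ := exists_params (m i1.1) h1
  obtain ⟨V, T0, E, hT⟩ := exists_T0 (m i1.1) κ hcop
  -- the exotic complexes
  let hh : ℕ → RG ℤ m := fun l => l.casesOn 0 (fun l => ga ℤ m j0 ^ (2 * l + 1))
  let D : ℕ → Matrix (FJ m ⊕ Y) (J ⊕ Y) (RG ℤ m) := fun l =>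
    l.casesOn (stdM c) (fun l => DE c i1 y0 κ (ga ℤ m j0 ^ (2 * l + 1)))
  have hstd : D 0 = DD (Equiv.refl _) c 0 1 i1 y0 := stdM_eq' c i1 y0
  -- exactness
  have hex : ∀ (k : Type) [CommRing k] (l : ℕ), IsBd2 k (gX m w) (bdM k (D l)) := by
    intro k _ l
    rcases l with _ | l
    · rw [hstd]
      exact isBd2_of k (Equiv.refl _) w c hc 0 1 i1 y0 (range_std_iff i1 y0)
    · exact isBd2_of k (Equiv.refl _) w c hc _ _ i1 y0
        (fun v => (range_exotic_iff' i1 y0 _ hT v).trans (range_std_iff i1 y0 v))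
  -- fields
  have hfield : ∀ (F : Type) [Field F] (l : ℕ), LadderIso F (bdM F (D 0)) (bdM F (D l)) := by
    intro F _ l
    rcases l with _ | l
    · exact ⟨LinearEquiv.refl _ _, rfl⟩
    · have ha := ga_pow (m := m) F i1.1
      set h := ga ℤ m j0 ^ (2 * l + 1) with hh
      have hex : ∃ e : (RG F m × RG F m) ≃ₗ[RG F m] (RG F m × RG F m),
          (∀ v, (e v).1 * nn (m i1.1) (ga F m i1.1) = v.1 * nn (m i1.1) (ga F m i1.1)) ∧
          ∀ v, (e v).2 = v.1 * xx κ (ga F m i1.1) (cf F m h) + v.2 * ee κ (ga F m i1.1) := by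
        by_cases hQF : ((QQ (m i1.1) κ : ℤ) : F) = 0
        · refine pair_zero ha hT _ ?_
          rw [← map_intCast (algebraMap F (RG F m)), hQF, map_zero]
        · refine pair_unit ha _ (algebraMap F (RG F m) ((QQ (m i1.1) κ : ℤ) : F)⁻¹) ?_
          rw [← map_intCast (algebraMap F (RG F m)), ← map_mul, inv_mul_cancel₀ hQF, map_one]
      obtain ⟨e, he1, he2⟩ := hex
      rw [hstd]
      refine ladder_of_pair (Equiv.refl _) c _ _ i1 y0 e he1 ?_
      rw [cf_xx', cf_ee]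
      exact he2
  -- stabilisation
  have hst : ∀ l : ℕ, LadderIso ℤ (bdM ℤ (zrow (D 0))) (bdM ℤ (zrow (D l))) := by
    intro l
    rcases l with _ | l
    · exact ⟨LinearEquiv.refl _ _, rfl⟩
    · obtain ⟨e, he1, he2⟩ := pair_stable (ga_pow (m := m) ℤ i1.1) hT
        (cf ℤ m (ga ℤ m j0 ^ (2 * l + 1)))
      rw [hstd]
      refine ladder_stable (Equiv.refl _) c _ _ i1 y0 e he1 ?_
      rw [cf_xx', cf_ee]
      exact he2
  -- the kernels
  have hker : ∀ l : ℕ, Nonempty (LinearMap.ker (bdM ℤ (D l)) ≃ₗ[RG ℤ m] KK i1 y0 κ (hh l)) := by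
    intro l
    rcases l with _ | l
    · obtain ⟨θ⟩ := stdKer i1 y0 κ (m := m)
      rw [hstd]
      exact ⟨(LinearEquiv.ofEq _ _ (ker_DD c 0 1 i1 y0 _ (mem_K0_iff i1 y0))).trans θ⟩
    · exact ⟨LinearEquiv.ofEq _ _ (ker_DD c _ _ i1 y0 _ (mem_K1_iff' i1 y0 _ κ))⟩
  -- the polynomials
  have hpoly : ∀ l : ℕ, ∃ g : ℤ[X],
      ((rr j0 h0 i1 (hh l) 1 1 : SS (m i1.1)) : Mt (m i1.1)) = Hm (m i1.1) g ∧
      (∀ j, l ≤ j → g.coeff j = 0) ∧ ∀ j, l = j + 1 → g.coeff j = 1 := by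
    intro l
    rcases l with _ | l
    · refine ⟨0, ?_, fun j _ => coeff_zero j, fun j h => absurd h (by omega)⟩
      have : hh 0 = 0 := rfl
      rw [this, map_zero, Hm_zero]; rfl
    · obtain ⟨P, Q, hP, hPd, -, -, -, e1⟩ :=
        rho_b_pow (m i1.1) j0 i1.1 h0 (ZS_pow (m i1.1)) h01 l
      refine ⟨P, e1, fun j hj => coeff_eq_zero_of_natDegree_lt (by omega), fun j hj => ?_⟩
      have : j = P.natDegree := by omega
      rw [this]
      exact hP
  have hlt : ∀ l l' : ℕ, l < l' →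
      IsEmpty (LinearMap.ker (bdM ℤ (D l)) ≃ₗ[RG ℤ m] LinearMap.ker (bdM ℤ (D l'))) := by
    intro l l' hl
    refine ⟨fun θ => ?_⟩
    obtain ⟨θ1⟩ := hker l
    obtain ⟨θ2⟩ := hker l'
    obtain ⟨g, hg, hg1, -⟩ := hpoly l
    obtain ⟨g', hg', -, hg2⟩ := hpoly l'
    refine (no_iso j0 h0 i1 y0 κ V h1 μ hμ hk hMp hQ hT g g' hg hg' (l' - 1) ?_ ?_).false
      ((θ1.symm.trans θ).trans θ2)
    · rw [hg2 (l' - 1) (by omega)]
      simp
    · rw [hg1 (l' - 1) (by omega)]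
      simp
  refine ⟨D, rfl, hex, fun F _ l l' => ladder_trans (ladder_symm (hfield F l)) (hfield F l'),
    fun l l' => ladder_trans (ladder_symm (hst l)) (hst l'), fun l l' hl => ?_⟩
  rcases lt_or_gt_of_ne hl with h | h
  · exact hlt l l' h
  · exact ⟨fun θ => (hlt l' l h).false θ.symm⟩

/-- the image of `bd1` is the augmentation ideal -/
theorem range_bd1 (k : Type) [CommRing k] (w : Y → Gp m) (x : RG k m) :
    x ∈ LinearMap.range (bd1 k (gX m w)) ↔ MonoidAlgebra.lift k k (Gp m) 1 x = 0 := by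
  have haug : ∀ x, MonoidAlgebra.lift k k (Gp m) 1 x = aug k m x := fun x => rfl
  rw [haug, LinearMap.mem_range]
  constructor
  · rintro ⟨v, rfl⟩
    show aug k m (∑ s, v s * (MonoidAlgebra.single (gX m w s) 1 - 1)) = 0
    rw [map_sum]
    refine Finset.sum_eq_zero fun s _ => ?_
    rw [map_mul, map_sub, aug_single, map_one, sub_self, mul_zero]
  · intro hx
    obtain ⟨v, hv⟩ := aug_decomp (k := k) x
    rw [hx, map_zero, zero_add] at hv
    refine ⟨Sum.elim v 0, ?_⟩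
    show ∑ s, Sum.elim v 0 s * (MonoidAlgebra.single (gX m w s) 1 - 1) = x
    rw [Fintype.sum_sum_type, hv]
    simp [gX, ga]

/-- The complexes differ by an automorphism in degree two only if the kernels are isomorphic. -/
theorem ker_of_ladder {k : Type} [CommRing k] {X n : Type}
    {d d' : (n → RG k m) →ₗ[RG k m] (X → RG k m)} (h : LadderIso k d d') :
    Nonempty (LinearMap.ker d ≃ₗ[RG k m] LinearMap.ker d') := by
  obtain ⟨h, rfl⟩ := h
  refine ⟨LinearEquiv.ofSubmodules h _ _ ?_⟩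
  ext x
  rw [Submodule.mem_map]
  constructor
  · rintro ⟨y, hy, rfl⟩
    exact hy
  · intro hx
    refine ⟨h.symm x, ?_, h.apply_symm_apply x⟩
    rw [LinearMap.mem_ker, LinearMap.comp_apply, LinearEquiv.coe_coe, LinearEquiv.apply_symm_apply]
    exact hx

/-- `c z j` are the coefficients of `w z - 1` in terms of `a_j - 1` (for instance the images of the Fox
derivatives of a word for `w z`) -/
def IsFox (w : Y → Gp m) (c : Y → J → RG ℤ m) : Prop :=
  ∀ z, MonoidAlgebra.single (w z) 1 - 1 = ∑ j, c z j * (MonoidAlgebra.single (gen m j) 1 - 1)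

omit [Fintype Y] in
theorem exists_fox (w : Y → Gp m) : ∃ c, IsFox w c := by
  have h : ∀ z, ∃ c : J → RG ℤ m, MonoidAlgebra.single (w z) (1 : ℤ) - 1 =
      ∑ j, c j * (MonoidAlgebra.single (gen m j) 1 - 1) := fun z => single_sub_one (w z)
  choose c hc using h
  exact ⟨c, hc⟩

end fin

end ExoticGen
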