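import Pool.Agent.Lib.MP_2d4659_gt.EX85.InfD
import Pool.Agent.Lib.MP_2d4659_gt.EX.Defs

/-!
# Infinitely many exotic complexes: arbitrary index sets
-/

set_option autoImplicit false

namespace ExoticGen

open FP

variable {J Y : Type} {m : J → ℕ}

theorem matMap_eq (k : Type) [CommRing k] {n X : Type} [Fintype n] (D : Matrix n X (RG ℤ m)) :
    ExoGen.matMap k D = bdM k D := by
  refine LinearMap.ext fun v => ?_
  ext1 c
  rfl

theorem zc_eq {n X : Type} [Fintype n] (D : Matrix n X (RG ℤ m)) :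
    ExoGen.zc (ExoGen.matMap ℤ D) = bdM ℤ (zrow D) := by
  refine LinearMap.ext fun v => ?_
  rw [zrow_apply, ← matMap_eq]
  rfl

theorem sub_ladder {k : Type} [CommRing k] {n r X : Type} [Fintype n] [Fintype r] (e : n ≃ r)
    {D D' : Matrix r X (RG ℤ m)} (h : LadderIso k (bdM k D) (bdM k D')) :
    LadderIso k (bdM k (D.submatrix e id)) (bdM k (D'.submatrix e id)) := by
  obtain ⟨h, hh⟩ := h
  set R := LinearEquiv.funCongrLeft (RG k m) (RG k m) e.symm with hR
  refine ⟨R.trans (h.trans R.symm), ?_⟩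
  refine LinearMap.ext fun v => ?_
  have h1 : bdM k D (R v) = bdM k D' (h (R v)) := by rw [hh]; rfl
  have hRa : ∀ v, R v = v ∘ e.symm := fun v => rfl
  rw [LinearMap.comp_apply, bdM_sub, bdM_sub, ← hRa, ← hRa]
  show bdM k D (R v) = bdM k D' (R (R.symm (h (R v))))
  rw [LinearEquiv.apply_symm_apply, h1]

theorem sub_ker {k : Type} [CommRing k] {n r X : Type} [Fintype n] [Fintype r] (e : n ≃ r)
    (D : Matrix r X (RG ℤ m)) :
    Nonempty (LinearMap.ker (bdM k (D.submatrix e id)) ≃ₗ[RG k m] LinearMap.ker (bdM k D)) := by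
  set R := LinearEquiv.funCongrLeft (RG k m) (RG k m) e.symm with hR
  have hRa : ∀ v, R v = v ∘ e.symm := fun v => rfl
  refine ⟨R.ofSubmodules _ _ ?_⟩
  ext u
  rw [Submodule.mem_map]
  constructor
  · rintro ⟨v, hv, rfl⟩
    rw [LinearMap.mem_ker, bdM_sub] at hv
    exact hv
  · intro hu
    refine ⟨R.symm u, ?_, R.apply_symm_apply u⟩
    rw [LinearMap.mem_ker, bdM_sub, ← hRa, R.apply_symm_apply]
    exact hu

theorem zrow_sub {n r X : Type} (e : n ≃ r) (D : Matrix r X (RG ℤ m)) :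
    zrow (D.submatrix e id) = (zrow D).submatrix (Equiv.optionCongr e) id := by
  refine Matrix.ext fun i j => ?_
  rcases i with _ | i <;> rfl

theorem stdM_sub {n : Type} [Fintype J] [Fintype Y] (e : n ≃ FJ m ⊕ Y) (c : Y → J → RG ℤ m) :
    ExoGen.stdM e c = (stdM c).submatrix e id := by
  classical
  refine Matrix.ext fun r s => ?_
  rw [Matrix.submatrix_apply, id]
  unfold ExoGen.stdM
  generalize e r = r'
  rcases r' with i | y <;> rcases s with j | z
  · show (Pi.single i.1 (ExoGen.nn (m i.1) (ExoGen.ge ℤ m i.1)) : J → RG ℤ m) j =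
      if i.1 = j then ∑ t ∈ Finset.range (m j), MonoidAlgebra.single (gen m j) 1 ^ t else 0
    by_cases h : i.1 = j
    · subst h
      rw [Pi.single_eq_same, if_pos rfl]
      rfl
    · rw [Pi.single_eq_of_ne (fun h' => h h'.symm), if_neg h]
  · rfl
  · rfl
  · show (Pi.single y 1 : Y → RG ℤ m) z = if y = z then 1 else 0
    by_cases h : y = z
    · subst h
      rw [Pi.single_eq_same, if_pos rfl]
    · rw [Pi.single_eq_of_ne (fun h' => h h'.symm), if_neg h]

/-- The theorem for arbitrary index sets of the rows. -/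
theorem infinite' {n : Type} [Fintype J] [Fintype Y] [Fintype n] [Nonempty Y] (m : J → ℕ)
    (h0 : ∃ j, m j = 0) (h3 : ∃ j, 3 ≤ m j) (w : Y → Gp m) (D0 : Matrix n (J ⊕ Y) (RG ℤ m))
    (hD0 : ExoGen.IsStd w D0) :
    ∃ D : ℕ → Matrix n (J ⊕ Y) (RG ℤ m), D 0 = D0 ∧ (∀ l, ExoGen.ExactAll w (D l)) ∧
      (∀ l l', (∀ (F : Type) [Field F], ExoGen.IsoOver F (D l) (D l')) ∧
        ExoGen.StablyIso (D l) (D l')) ∧
      ∀ l l', l ≠ l' → ¬ ExoGen.IsoOver ℤ (D l) (D l') ∧ ¬ ExoGen.KerIso (D l) (D l') := by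
  obtain ⟨e, v, hv, rfl⟩ := hD0
  obtain ⟨j0, h0⟩ := h0
  obtain ⟨j1, h1⟩ := h3
  obtain ⟨D, e0, e1, e2, e3, e4⟩ := infinite m w v (fun z => (hv z).symm) j0 j1 h0 h1
  have hker : ∀ l l', l ≠ l' → ¬ ExoGen.KerIso ((D l).submatrix e id) ((D l').submatrix e id) := by
    rintro l l' hl ⟨θ⟩
    rw [matMap_eq, matMap_eq] at θ
    obtain ⟨θ1⟩ := sub_ker (k := ℤ) e (D l)
    obtain ⟨θ2⟩ := sub_ker (k := ℤ) e (D l')
    exact (e4 l l' hl).false ((θ1.symm.trans θ).trans θ2)
  refine ⟨fun l => (D l).submatrix e id, ?_, fun l k _ => ⟨?_, range_bd1 k w⟩,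
    fun l l' => ⟨fun F _ => ?_, ?_⟩, fun l l' hl => ⟨fun h => ?_, hker l l' hl⟩⟩
  · beta_reduce
    rw [e0, stdM_sub]
  · have h := e1 k l
    unfold IsBd2 at h ⊢
    rw [← h, matMap_eq]
    ext v
    rw [LinearMap.mem_range, LinearMap.mem_range]
    constructor
    · rintro ⟨u, rfl⟩
      exact ⟨u ∘ e.symm, (bdM_sub k e (D l) u).symm⟩
    · rintro ⟨u, rfl⟩
      refine ⟨u ∘ e, ?_⟩
      rw [bdM_sub]
      congr 1
      ext1 r
      simp
  · unfold ExoGen.IsoOver
    rw [matMap_eq, matMap_eq]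
    exact sub_ladder e (e2 F l l')
  · unfold ExoGen.StablyIso
    rw [zc_eq, zc_eq, zrow_sub, zrow_sub]
    exact sub_ladder (Equiv.optionCongr e) (e3 l l')
  · unfold ExoGen.IsoOver at h
    obtain ⟨θ⟩ := ker_of_ladder h
    exact hker l l' hl ⟨θ⟩

/-- Standard matrices exist. -/
theorem exists_std {n : Type} [Fintype J] [Fintype Y] [Fintype n] (m : J → ℕ) (w : Y → Gp m)
    (hn : Fintype.card n + Fintype.card {j : J // m j = 0} = Fintype.card J + Fintype.card Y) :
    ∃ D : Matrix n (J ⊕ Y) (RG ℤ m), ExoGen.IsStd w D := by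
  classical
  have hcard : Fintype.card n = Fintype.card ({j : J // m j ≠ 0} ⊕ Y) := by
    rw [Fintype.card_sum]
    have h2 : Fintype.card {j : J // m j ≠ 0} =
        Fintype.card J - Fintype.card {j : J // m j = 0} := Fintype.card_subtype_compl _
    have h4 : Fintype.card {j : J // m j = 0} ≤ Fintype.card J := Fintype.card_subtype_le _
    omega
  obtain ⟨e⟩ : Nonempty (n ≃ {j : J // m j ≠ 0} ⊕ Y) := Fintype.card_eq.mp hcard
  obtain ⟨c, hc⟩ := exists_fox w
  exact ⟨_, e, c, fun y => (hc y).symm, rfl⟩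

end ExoticGen
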