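import Pool.Agent.Lib.MP_2d4659_gt.EX85.Ker
import Pool.Agent.Lib.MP_2d4659_gt.FP.FinDefs

/-!
# The boundary maps given by matrices over the integral group ring
-/

set_option autoImplicit false

open Polynomial

namespace ExoticGen

open FP

variable {J : Type} {m : J → ℕ}

/-- change of coefficients `ℤ[G] → k[G]` -/
noncomputable def cf (k : Type) [CommRing k] (m : J → ℕ) : RG ℤ m →+* RG k m :=
  MonoidAlgebra.mapRingHom (Gp m) (Int.castRingHom k)

/-- the boundary map `k[G]^n → k[G]^X`, `v ↦ v D`, given by a matrix `D` over `ℤ[G]` -/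
noncomputable def bdM (k : Type) [CommRing k] {n X : Type} [Fintype n] (D : Matrix n X (RG ℤ m)) :
    (n → RG k m) →ₗ[RG k m] (X → RG k m) where
  toFun v := fun c => ∑ r, v r * cf k m (D r c)
  map_add' v w := by ext1 c; simp [add_mul, Finset.sum_add_distrib]
  map_smul' a v := by ext1 c; simp [Finset.mul_sum, mul_assoc]

theorem bdM_apply (k : Type) [CommRing k] {n X : Type} [Fintype n] (D : Matrix n X (RG ℤ m))
    (v : n → RG k m) (c : X) : bdM k D v c = ∑ r, v r * cf k m (D r c) := rfl

theorem cf_ga (k : Type) [CommRing k] (j : J) : cf k m (ga ℤ m j) = ga k m j := by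
  unfold cf ga
  rw [MonoidAlgebra.mapRingHom_single]
  simp

theorem cf_single (k : Type) [CommRing k] (g : Gp m) :
    cf k m (MonoidAlgebra.single g 1) = MonoidAlgebra.single g 1 := by
  unfold cf
  rw [MonoidAlgebra.mapRingHom_single]
  simp

theorem cf_ee (k : Type) [CommRing k] (κ : ℤ) (j : J) :
    cf k m (ee κ (ga ℤ m j)) = ee κ (ga k m j) := by
  unfold ee
  rw [map_sub, map_mul, cf_ga, map_intCast, map_intCast]

theorem cf_xx (k : Type) [CommRing k] (κ : ℤ) (j i : J) :
    cf k m (xx κ (ga ℤ m j) (ga ℤ m i)) = xx κ (ga k m j) (ga k m i) := by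
  unfold xx
  rw [map_add, map_one, map_mul, cf_ga, cf_ee]

theorem cf_nn (k : Type) [CommRing k] (M : ℕ) (j : J) :
    cf k m (nn M (ga ℤ m j)) = nn M (ga k m j) := by
  unfold nn
  rw [map_sum]
  simp only [map_pow, cf_ga]

theorem bdM_mul (k : Type) [CommRing k] {n X Z : Type} [Fintype n] [Fintype X]
    (D : Matrix n X (RG ℤ m)) (T : Matrix X Z (RG ℤ m)) (v : n → RG k m) :
    bdM k (D * T) v = bdM k T (bdM k D v) := by
  ext1 c
  rw [bdM_apply, bdM_apply]
  simp only [Matrix.mul_apply, map_sum, map_mul, Finset.mul_sum, bdM_apply, Finset.sum_mul]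
  rw [Finset.sum_comm]
  refine Finset.sum_congr rfl fun x _ => Finset.sum_congr rfl fun r _ => ?_
  rw [mul_assoc]

theorem bdM_sub (k : Type) [CommRing k] {n r X : Type} [Fintype n] [Fintype r]
    (e : n ≃ r) (D : Matrix r X (RG ℤ m)) (v : n → RG k m) :
    bdM k (D.submatrix e id) v = bdM k D (v ∘ e.symm) := by
  ext1 c
  rw [bdM_apply, bdM_apply]
  refine Fintype.sum_equiv e _ _ fun i => ?_
  simp

section
variable {Y : Type}

open Classical in
/-- the matrix of the standard (`x = 0`, `y = 1`) and of the exotic complex -/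
noncomputable def D0 (x y : RG ℤ m) (i1 : FJ m) (y0 : Y) : Matrix (Co m Y) (J ⊕ Y) (RG ℤ m) :=
  fun r c => match r, c with
    | Sum.inl i, Sum.inl j => if i.1 = j then nn (m j) (ga ℤ m j) else 0
    | Sum.inl i, Sum.inr z => if i = i1 ∧ z = y0 then x else 0
    | Sum.inr _, Sum.inl _ => 0
    | Sum.inr z', Sum.inr z => if z' = z then (if z = y0 then y else 1) else 0

variable [Fintype J] [Fintype Y] {k : Type} [CommRing k] (x y : RG ℤ m) (i1 : FJ m) (y0 : Y)

noncomputable instance : Fintype (FJ m) := Fintype.ofFinite _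

theorem D0_inl (v : Co m Y → RG k m) (i : FJ m) :
    bdM k (D0 x y i1 y0) v (Sum.inl i.1) = v (Sum.inl i) * nn (m i.1) (ga k m i.1) := by
  classical
  rw [bdM_apply, Fintype.sum_sum_type]
  simp only [D0, map_zero, mul_zero, Finset.sum_const_zero, add_zero]
  rw [Finset.sum_eq_single i]
  · rw [if_pos rfl, cf_nn]
  · intro i' _ hi'
    rw [if_neg (fun h => hi' (Subtype.ext h)), map_zero, mul_zero]
  · intro h; exact absurd (Finset.mem_univ i) h

theorem D0_inl' (v : Co m Y → RG k m) (j : J) (hj : m j = 0) :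
    bdM k (D0 x y i1 y0) v (Sum.inl j) = 0 := by
  classical
  rw [bdM_apply, Fintype.sum_sum_type]
  simp only [D0, map_zero, mul_zero, Finset.sum_const_zero, add_zero]
  refine Finset.sum_eq_zero fun i _ => ?_
  rw [if_neg (fun h : i.1 = j => i.2 (by rw [h]; exact hj)), map_zero, mul_zero]

theorem D0_inr (v : Co m Y → RG k m) (z : Y) (hz : z ≠ y0) :
    bdM k (D0 x y i1 y0) v (Sum.inr z) = v (Sum.inr z) := by
  classical
  rw [bdM_apply, Fintype.sum_sum_type]
  simp only [D0, hz, and_false, if_false, map_zero, mul_zero, Finset.sum_const_zero, zero_add]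
  rw [Finset.sum_eq_single z]
  · rw [if_pos rfl, map_one, mul_one]
  · intro i' _ hi'
    rw [if_neg hi', map_zero, mul_zero]
  · intro h; exact absurd (Finset.mem_univ z) h

theorem D0_inr0 (v : Co m Y → RG k m) :
    bdM k (D0 x y i1 y0) v (Sum.inr y0) = v (Sum.inl i1) * cf k m x + v (Sum.inr y0) * cf k m y := by
  classical
  rw [bdM_apply, Fintype.sum_sum_type]
  simp only [D0, and_true, if_true]
  rw [Finset.sum_eq_single i1, Finset.sum_eq_single y0]
  · rw [if_pos rfl, if_pos rfl]
  · intro i' _ hi'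
    rw [if_neg hi', map_zero, mul_zero]
  · intro h; exact absurd (Finset.mem_univ y0) h
  · intro i' _ hi'
    rw [if_neg hi', map_zero, mul_zero]
  · intro h; exact absurd (Finset.mem_univ i1) h

open Classical in
/-- the change of the generators: `e_z ↦ e_z - ∑ c z j e_j` -/
noncomputable def Tm (c : Y → J → RG ℤ m) : Matrix (J ⊕ Y) (J ⊕ Y) (RG ℤ m) :=
  fun r s => match r, s with
    | Sum.inl i, Sum.inl j => if i = j then 1 else 0
    | Sum.inl _, Sum.inr _ => 0
    | Sum.inr z, Sum.inl j => -(c z j)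
    | Sum.inr z', Sum.inr z => if z' = z then 1 else 0

theorem Tm_inl (c : Y → J → RG ℤ m) (v : J ⊕ Y → RG k m) (j : J) :
    bdM k (Tm c) v (Sum.inl j) = v (Sum.inl j) - ∑ z, v (Sum.inr z) * cf k m (c z j) := by
  classical
  rw [bdM_apply, Fintype.sum_sum_type]
  simp only [Tm, map_neg, mul_neg, Finset.sum_neg_distrib, ← sub_eq_add_neg]
  congr 1
  rw [Finset.sum_eq_single j]
  · rw [if_pos rfl, map_one, mul_one]
  · intro i' _ hi'
    rw [if_neg hi', map_zero, mul_zero]
  · intro h; exact absurd (Finset.mem_univ j) h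

theorem Tm_inr (c : Y → J → RG ℤ m) (v : J ⊕ Y → RG k m) (z : Y) :
    bdM k (Tm c) v (Sum.inr z) = v (Sum.inr z) := by
  classical
  rw [bdM_apply, Fintype.sum_sum_type]
  simp only [Tm, map_zero, mul_zero, Finset.sum_const_zero, zero_add]
  rw [Finset.sum_eq_single z]
  · rw [if_pos rfl, map_one, mul_one]
  · intro i' _ hi'
    rw [if_neg hi', map_zero, mul_zero]
  · intro h; exact absurd (Finset.mem_univ z) h

theorem Tm_inv (c : Y → J → RG ℤ m) (v : J ⊕ Y → RG k m) :
    bdM k (Tm (fun z j => -(c z j))) (bdM k (Tm c) v) = v := by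
  ext1 s
  rcases s with j | z
  · rw [Tm_inl, Tm_inl]
    simp only [Tm_inr, map_neg, mul_neg, Finset.sum_neg_distrib, sub_neg_eq_add, sub_add_cancel]
  · rw [Tm_inr, Tm_inr]

/-- the change of the generators, as an automorphism -/
noncomputable def Te (k : Type) [CommRing k] (c : Y → J → RG ℤ m) :
    (J ⊕ Y → RG k m) ≃ₗ[RG k m] (J ⊕ Y → RG k m) where
  __ := bdM k (Tm c)
  invFun := bdM k (Tm (fun z j => -(c z j)))
  left_inv v := Tm_inv c v
  right_inv v := by
    have h := Tm_inv (k := k) (fun z j => -(c z j)) v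
    simp only [neg_neg] at h
    exact h

theorem Te_apply (c : Y → J → RG ℤ m) (v : J ⊕ Y → RG k m) : Te k c v = bdM k (Tm c) v := rfl

end

end ExoticGen
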