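import Pool.Agent.Lib.MP_2d4659_gt.EX85.Mat

/-!
# Exotic boundary maps for every free product of cyclic groups with an infinite factor and a factor of
order at least three
-/

set_option autoImplicit false

open Polynomial

namespace ExoticGen

open FP

section lift

variable {A : Type*} [Ring A] {I : Type}

open Classical in
/-- an automorphism of `A²` acting on two coordinates -/
noncomputable def lift2 (e : (A × A) ≃ₗ[A] (A × A)) (i1 i2 : I) (h : i2 ≠ i1) :
    (I → A) ≃ₗ[A] (I → A) where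
  toFun v := fun i => if i = i1 then (e (v i1, v i2)).1 else if i = i2 then (e (v i1, v i2)).2 else v i
  invFun v := fun i => if i = i1 then (e.symm (v i1, v i2)).1 else
    if i = i2 then (e.symm (v i1, v i2)).2 else v i
  map_add' v w := by
    have h2 : e (v i1 + w i1, v i2 + w i2) = e (v i1, v i2) + e (w i1, w i2) := by
      rw [← map_add]; rfl
    ext1 i
    simp only [Pi.add_apply, h2, Prod.fst_add, Prod.snd_add]
    split_ifs <;> rfl
  map_smul' r v := by
    have h2 : e (r • v i1, r • v i2) = r • e (v i1, v i2) := by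
      rw [← map_smul]; rfl
    ext1 i
    simp only [Pi.smul_apply, h2, Prod.smul_fst, Prod.smul_snd, RingHom.id_apply]
    split_ifs <;> rfl
  left_inv v := by
    ext1 i
    simp only [if_true, if_neg h, Prod.mk.eta, LinearEquiv.symm_apply_apply]
    split_ifs with h1 h2
    · rw [h1]
    · rw [h2]
    · rfl
  right_inv v := by
    ext1 i
    simp only [if_true, if_neg h, Prod.mk.eta, LinearEquiv.apply_symm_apply]
    split_ifs with h1 h2
    · rw [h1]
    · rw [h2]
    · rfl

theorem lift2_1 (e : (A × A) ≃ₗ[A] (A × A)) (i1 i2 : I) (h : i2 ≠ i1) (v : I → A) :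
    lift2 e i1 i2 h v i1 = (e (v i1, v i2)).1 := if_pos rfl

theorem lift2_2 (e : (A × A) ≃ₗ[A] (A × A)) (i1 i2 : I) (h : i2 ≠ i1) (v : I → A) :
    lift2 e i1 i2 h v i2 = (e (v i1, v i2)).2 := (if_neg h).trans (if_pos rfl)

theorem lift2_3 (e : (A × A) ≃ₗ[A] (A × A)) (i1 i2 : I) (h : i2 ≠ i1) (v : I → A) (i : I)
    (h1 : i ≠ i1) (h2 : i ≠ i2) : lift2 e i1 i2 h v i = v i := (if_neg h1).trans (if_neg h2)

open Classical in
/-- an automorphism of `A³` acting on three coordinates -/
noncomputable def lift3 (e : ((A × A) × A) ≃ₗ[A] ((A × A) × A)) (i1 i2 : I) (h : i2 ≠ i1) :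
    (Option I → A) ≃ₗ[A] (Option I → A) where
  toFun v := fun i => if i = some i1 then (e ((v (some i1), v (some i2)), v none)).1.1 else
    if i = some i2 then (e ((v (some i1), v (some i2)), v none)).1.2 else
    if i = none then (e ((v (some i1), v (some i2)), v none)).2 else v i
  invFun v := fun i => if i = some i1 then (e.symm ((v (some i1), v (some i2)), v none)).1.1 else
    if i = some i2 then (e.symm ((v (some i1), v (some i2)), v none)).1.2 else
    if i = none then (e.symm ((v (some i1), v (some i2)), v none)).2 else v i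
  map_add' v w := by
    have h2 : e ((v (some i1) + w (some i1), v (some i2) + w (some i2)), v none + w none) =
      e ((v (some i1), v (some i2)), v none) + e ((w (some i1), w (some i2)), w none) := by
      rw [← map_add]; rfl
    ext1 i
    simp only [Pi.add_apply, h2, Prod.fst_add, Prod.snd_add]
    split_ifs <;> rfl
  map_smul' r v := by
    have h2 : e ((r • v (some i1), r • v (some i2)), r • v none) =
      r • e ((v (some i1), v (some i2)), v none) := by
      rw [← map_smul]; rfl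
    ext1 i
    simp only [Pi.smul_apply, h2, Prod.smul_fst, Prod.smul_snd, RingHom.id_apply]
    split_ifs <;> rfl
  left_inv v := by
    have h' : (some i2 : Option I) ≠ some i1 := fun h2 => h (Option.some.inj h2)
    have h3 : (none : Option I) ≠ some i1 := by simp
    have h4 : (none : Option I) ≠ some i2 := by simp
    ext1 i
    simp only [if_true, if_neg h', if_neg h3, if_neg h4, Prod.mk.eta, LinearEquiv.symm_apply_apply]
    split_ifs with h1 h2 h5
    · rw [h1]
    · rw [h2]
    · rw [h5]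
    · rfl
  right_inv v := by
    have h' : (some i2 : Option I) ≠ some i1 := fun h2 => h (Option.some.inj h2)
    have h3 : (none : Option I) ≠ some i1 := by simp
    have h4 : (none : Option I) ≠ some i2 := by simp
    ext1 i
    simp only [if_true, if_neg h', if_neg h3, if_neg h4, Prod.mk.eta, LinearEquiv.apply_symm_apply]
    split_ifs with h1 h2 h5
    · rw [h1]
    · rw [h2]
    · rw [h5]
    · rfl

theorem lift3_1 (e : ((A × A) × A) ≃ₗ[A] ((A × A) × A)) (i1 i2 : I) (h : i2 ≠ i1)
    (v : Option I → A) :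
    lift3 e i1 i2 h v (some i1) = (e ((v (some i1), v (some i2)), v none)).1.1 := if_pos rfl

theorem lift3_2 (e : ((A × A) × A) ≃ₗ[A] ((A × A) × A)) (i1 i2 : I) (h : i2 ≠ i1)
    (v : Option I → A) :
    lift3 e i1 i2 h v (some i2) = (e ((v (some i1), v (some i2)), v none)).1.2 :=
  (if_neg (fun h2 => h (Option.some.inj h2))).trans (if_pos rfl)

theorem lift3_3 (e : ((A × A) × A) ≃ₗ[A] ((A × A) × A)) (i1 i2 : I) (h : i2 ≠ i1)
    (v : Option I → A) (i : I) (h1 : i ≠ i1) (h2 : i ≠ i2) :
    lift3 e i1 i2 h v (some i) = v (some i) :=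
  (if_neg (fun h3 => h1 (Option.some.inj h3))).trans
    ((if_neg (fun h3 => h2 (Option.some.inj h3))).trans (if_neg (by simp)))

end lift

variable {J Y : Type} {m : J → ℕ} [Fintype J] [Fintype Y]

/-! ### The images -/

section range
variable {k : Type} [CommRing k]

theorem range_std_iff (i1 : FJ m) (y0 : Y) (v : J ⊕ Y → RG k m) :
    (∃ u : Co m Y → RG k m, bdM k (D0 0 1 i1 y0) u = v) ↔
      ∑ j, v (Sum.inl j) * (ga k m j - 1) = 0 := by
  constructor
  · rintro ⟨u, rfl⟩
    refine Finset.sum_eq_zero fun j _ => ?_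
    by_cases hj : m j = 0
    · rw [D0_inl' _ _ _ _ _ _ hj, zero_mul]
    · have h := D0_inl (k := k) 0 1 i1 y0 u ⟨j, hj⟩
      simp only at h
      rw [h, mul_assoc, nn_am1 (ga_pow k j), mul_zero]
  · intro h
    have h1 := fox_kernel (fun j => v (Sum.inl j)) h
    have h2 : ∀ i : FJ m, ∃ p, v (Sum.inl i.1) = p * nn (m i.1) (ga k m i.1) :=
      fun i => ker_am1 i.1 i.2 _ (h1 i.1)
    choose p hp using h2
    refine ⟨Sum.elim p (fun z => v (Sum.inr z)), ?_⟩
    ext1 c
    rcases c with j | z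
    · by_cases hj : m j = 0
      · rw [D0_inl' _ _ _ _ _ _ hj]
        exact (ker_am1_inf j hj _ (h1 j)).symm
      · have h := D0_inl (k := k) 0 1 i1 y0 (Sum.elim p (fun z => v (Sum.inr z))) ⟨j, hj⟩
        simp only [Sum.elim_inl] at h
        rw [h, hp ⟨j, hj⟩]
    · by_cases hz : z = y0
      · subst hz
        rw [D0_inr0, map_zero, map_one]
        simp
      · rw [D0_inr _ _ _ _ _ _ hz]; rfl

open Classical in
theorem range_exotic_iff (i1 : FJ m) (y0 : Y) (j0 : J) {κ V : ℤ} {T0 E : ℤ[X]}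
    (hT : C V * (X - 1) * cP (m i1.1) κ + T0 * etaP κ = 1 + E * (X ^ m i1.1 - 1))
    (v : J ⊕ Y → RG k m) :
    (∃ u : Co m Y → RG k m,
      bdM k (D0 (xx κ (ga ℤ m i1.1) (ga ℤ m j0)) (ee κ (ga ℤ m i1.1)) i1 y0) u = v) ↔
    ∃ u : Co m Y → RG k m, bdM k (D0 0 1 i1 y0) u = v := by
  have ha := ga_pow (m := m) k i1.1
  have hu := unimodular ha hT (ga k m j0)
  have hs : ss (m i1.1) κ V (ga k m i1.1) * nn (m i1.1) (ga k m i1.1) = 0 := ss_nn ha
  set s := ss (m i1.1) κ V (ga k m i1.1)
  set t := tt (m i1.1) κ V T0 (ga k m i1.1) (ga k m j0)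
  constructor
  · rintro ⟨u, rfl⟩
    refine ⟨fun c => if c = Sum.inr y0 then u (Sum.inl i1) * xx κ (ga k m i1.1) (ga k m j0) +
      u (Sum.inr y0) * ee κ (ga k m i1.1) else u c, ?_⟩
    ext1 c
    rcases c with j | z
    · by_cases hj : m j = 0
      · rw [D0_inl' _ _ _ _ _ _ hj, D0_inl' _ _ _ _ _ _ hj]
      · have h := fun x y u => D0_inl (k := k) x y i1 y0 u ⟨j, hj⟩
        simp only at h
        rw [h, h, if_neg Sum.inl_ne_inr]
    · by_cases hz : z = y0
      · subst hz
        rw [D0_inr0, D0_inr0, if_pos rfl, if_neg Sum.inl_ne_inr, map_zero, map_one, mul_zero,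
          zero_add, mul_one, cf_xx, cf_ee]
      · rw [D0_inr _ _ _ _ _ _ hz, D0_inr _ _ _ _ _ _ hz,
          if_neg (fun h => hz (Sum.inr.inj h))]
  · rintro ⟨u, rfl⟩
    refine ⟨fun c => if c = Sum.inl i1 then u (Sum.inl i1) +
        (u (Sum.inr y0) - u (Sum.inl i1) * xx κ (ga k m i1.1) (ga k m j0)) * s else
      if c = Sum.inr y0 then (u (Sum.inr y0) -
        u (Sum.inl i1) * xx κ (ga k m i1.1) (ga k m j0)) * t else u c, ?_⟩
    ext1 c
    rcases c with j | z
    · by_cases hj : m j = 0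
      · rw [D0_inl' _ _ _ _ _ _ hj, D0_inl' _ _ _ _ _ _ hj]
      · have h := fun x y u => D0_inl (k := k) x y i1 y0 u ⟨j, hj⟩
        simp only at h
        rw [h, h]
        by_cases hi : (⟨j, hj⟩ : FJ m) = i1
        · subst hi
          rw [if_pos rfl, add_mul, mul_assoc _ s, hs, mul_zero, add_zero]
        · rw [if_neg (fun h' => hi (Sum.inl.inj h')), if_neg Sum.inl_ne_inr]
    · by_cases hz : z = y0
      · subst hz
        rw [D0_inr0, D0_inr0, if_pos rfl, if_neg Sum.inr_ne_inl, if_pos rfl, map_zero, map_one,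
          mul_zero, zero_add, mul_one, cf_xx, cf_ee]
        set x' := xx κ (ga k m i1.1) (ga k m j0)
        set y' := ee κ (ga k m i1.1)
        have : (u (Sum.inl i1) + (u (Sum.inr z) - u (Sum.inl i1) * x') * s) * x' +
          (u (Sum.inr z) - u (Sum.inl i1) * x') * t * y' =
          u (Sum.inl i1) * x' + (u (Sum.inr z) - u (Sum.inl i1) * x') * (s * x' + t * y') := by
          noncomm_ring
        rw [this, hu, mul_one]
        abel
      · rw [D0_inr _ _ _ _ _ _ hz, D0_inr _ _ _ _ _ _ hz, if_neg Sum.inr_ne_inl,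
          if_neg (fun h => hz (Sum.inr.inj h))]

theorem bd1_Te (w : Y → Gp m) (c : Y → J → RG ℤ m)
    (hc : ∀ z, MonoidAlgebra.single (w z) (1 : ℤ) - 1 = ∑ j, c z j * (ga ℤ m j - 1))
    (v : J ⊕ Y → RG k m) :
    bd1 k (gX m w) (Te k c v) = ∑ j, v (Sum.inl j) * (ga k m j - 1) := by
  show ∑ s, Te k c v s * (MonoidAlgebra.single (gX m w s) 1 - 1) = _
  rw [Fintype.sum_sum_type]
  simp only [Te_apply, Tm_inl, Tm_inr, gX, Sum.elim_inl, Sum.elim_inr]
  have h1 : ∀ z, (MonoidAlgebra.single (w z) (1 : k) - 1 : RG k m) =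
      ∑ j, cf k m (c z j) * (ga k m j - 1) := by
    intro z
    have h2 := congrArg (cf k m) (hc z)
    rw [map_sub, map_one, cf_single, map_sum] at h2
    rw [h2]
    refine Finset.sum_congr rfl fun j _ => ?_
    rw [map_mul, map_sub, map_one, cf_ga]
  have h3 : ∀ j, (MonoidAlgebra.single (gen m j) (1 : k) : RG k m) = ga k m j := fun j => rfl
  simp only [h1, h3, sub_mul, Finset.sum_sub_distrib, Finset.mul_sum, Finset.sum_mul]
  rw [Finset.sum_comm (s := Finset.univ (α := Y))]
  simp only [mul_assoc]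
  abel

end range

/-- the matrix with respect to arbitrary index sets and generators -/
noncomputable def DD {n : Type} (e : n ≃ Co m Y) (c : Y → J → RG ℤ m) (x y : RG ℤ m) (i1 : FJ m)
    (y0 : Y) : Matrix n (J ⊕ Y) (RG ℤ m) := (D0 x y i1 y0 * Tm c).submatrix e id

theorem DD_apply {n : Type} [Fintype n] (k : Type) [CommRing k] (e : n ≃ Co m Y)
    (c : Y → J → RG ℤ m) (x y : RG ℤ m) (i1 : FJ m) (y0 : Y) (v : n → RG k m) :
    bdM k (DD e c x y i1 y0) v = Te k c (bdM k (D0 x y i1 y0) (v ∘ e.symm)) := by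
  unfold DD
  rw [bdM_sub, bdM_mul]
  rfl

theorem isBd2_of {n : Type} [Fintype n] (k : Type) [CommRing k] (e : n ≃ Co m Y)
    (w : Y → Gp m) (c : Y → J → RG ℤ m)
    (hc : ∀ z, MonoidAlgebra.single (w z) (1 : ℤ) - 1 = ∑ j, c z j * (ga ℤ m j - 1))
    (x y : RG ℤ m) (i1 : FJ m) (y0 : Y)
    (h : ∀ v : J ⊕ Y → RG k m, (∃ u : Co m Y → RG k m, bdM k (D0 x y i1 y0) u = v) ↔
      ∑ j, v (Sum.inl j) * (ga k m j - 1) = 0) :
    IsBd2 k (gX m w) (bdM k (DD e c x y i1 y0)) := by
  unfold IsBd2
  ext v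
  rw [LinearMap.mem_range, LinearMap.mem_ker]
  obtain ⟨v', rfl⟩ : ∃ v', Te k c v' = v := ⟨(Te k c).symm v, by simp⟩
  rw [bd1_Te w c hc, ← h]
  constructor
  · rintro ⟨u, hu⟩
    rw [DD_apply] at hu
    exact ⟨_, (Te k c).injective hu⟩
  · rintro ⟨u, hu⟩
    refine ⟨u ∘ e, ?_⟩
    rw [DD_apply]
    have : (u ∘ e) ∘ e.symm = u := by ext1 r; simp
    rw [this, hu]

end ExoticGen
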