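import Mathlib

/-!
# Exotic pairs for all orders: identities in a ring with an element `a`, `a ^ M = 1`

`η = k + 1 - k a`, `c = ∑ (k a)^i (k + 1)^(M - 1 - i)`, `c η = (k + 1)^M - k^M = Q`.
-/

set_option autoImplicit false

open Polynomial

namespace ExoticGen

/-- `c` -/
noncomputable def cP (M : ℕ) (k : ℤ) : ℤ[X] :=
  ∑ i ∈ Finset.range M, (C k * X) ^ i * (C (k + 1)) ^ (M - 1 - i)

/-- `η` -/
noncomputable def etaP (k : ℤ) : ℤ[X] := C (k + 1) - C k * X

/-- `Q` -/
def QQ (M : ℕ) (k : ℤ) : ℤ := (k + 1) ^ M - k ^ M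

theorem cP_eta (M : ℕ) (k : ℤ) :
    cP M k * etaP k = C (QQ M k) - C (k ^ M) * (X ^ M - 1) := by
  have h := (Commute.all (C k * X : ℤ[X]) (C (k + 1))).geom_sum₂_mul M
  have : cP M k * etaP k = - (cP M k * (C k * X - C (k + 1))) := by unfold etaP; ring
  rw [this, cP, h, QQ]
  simp only [map_sub, map_pow, mul_pow]
  ring

theorem eta_dvd (M : ℕ) (k : ℤ) :
    etaP k ∣ cP M k - C ((M : ℤ) * (k + 1) ^ (M - 1)) := by
  have h1 : C ((M : ℤ) * (k + 1) ^ (M - 1)) =
      ∑ i ∈ Finset.range M, (C (k + 1) : ℤ[X]) ^ i * (C (k + 1)) ^ (M - 1 - i) := by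
    rw [Finset.sum_congr rfl (g := fun _ => (C (k + 1) : ℤ[X]) ^ (M - 1))]
    · simp [Finset.sum_const, nsmul_eq_mul]
    · intro i hi
      rw [← pow_add]
      congr 1
      have := Finset.mem_range.1 hi
      omega
  rw [h1, cP, ← Finset.sum_sub_distrib]
  refine Finset.dvd_sum fun i _ => ?_
  rw [← sub_mul]
  refine Dvd.dvd.mul_right ?_ _
  have h2 : (C k * X - C (k + 1) : ℤ[X]) ∣ (C k * X) ^ i - (C (k + 1)) ^ i := sub_dvd_pow_sub_pow _ _ _
  have h3 : etaP k = -(C k * X - C (k + 1)) := by unfold etaP; ring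
  rw [h3, neg_dvd]
  exact h2

theorem exists_T0 (M : ℕ) (k : ℤ) (hc : IsCoprime ((M : ℤ) * (k + 1) ^ (M - 1)) (QQ M k)) :
    ∃ (V : ℤ) (T0 E : ℤ[X]), C V * (X - 1) * cP M k + T0 * etaP k = 1 + E * (X ^ M - 1) := by
  obtain ⟨V1, V2, h12⟩ := hc
  obtain ⟨d, hd⟩ := eta_dvd M k
  have hd' : cP M k = C ((M : ℤ) * (k + 1) ^ (M - 1)) + etaP k * d := by
    rw [← hd]; ring
  have hk : (C k * (X - 1) : ℤ[X]) = 1 - etaP k := by
    unfold etaP
    simp only [map_add, map_one]
    ring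
  have hQ : C (QQ M k) = cP M k * etaP k + C (k ^ M) * (X ^ M - 1) := by
    rw [cP_eta]; ring
  have h12' : (C V1 * C ((M : ℤ) * (k + 1) ^ (M - 1)) + C V2 * C (QQ M k) : ℤ[X]) = 1 := by
    rw [← map_mul, ← map_mul, ← map_add, h12, map_one]
  refine ⟨V1 * k, C V1 * cP M k - C V1 * d + C V2 * cP M k, -(C V2 * C (k ^ M)), ?_⟩
  have e1 : (C (V1 * k) * (X - 1) * cP M k : ℤ[X]) = C V1 * (C k * (X - 1)) * cP M k := by
    rw [map_mul]; ring
  rw [e1, hk]
  have e2 : C V1 * cP M k = 1 - C V2 * C (QQ M k) + C V1 * (etaP k * d) := by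
    rw [hd', mul_add]
    linear_combination h12'
  rw [hQ] at e2
  linear_combination e2

section ring

variable {A : Type*} [Ring A]

/-- `N` -/
def nn (M : ℕ) (a : A) : A := ∑ i ∈ Finset.range M, a ^ i

variable (M : ℕ) (k V : ℤ) (T0 : ℤ[X]) (a b : A)

/-- `c` in the ring -/
noncomputable def cc : A := aeval a (cP M k)

/-- `η` in the ring -/
def ee : A := ((k + 1 : ℤ) : A) - (k : A) * a

theorem ee_eq : ee k a = aeval a (etaP k) := by
  unfold ee etaP
  simp

variable {M k V T0 a}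

theorem pc (p q : ℤ[X]) : aeval a p * aeval a q = aeval a q * aeval a p := by
  rw [← map_mul, mul_comm, map_mul]

theorem aeval_nn (M : ℕ) (a : A) : nn M a = aeval a (∑ i ∈ Finset.range M, (X : ℤ[X]) ^ i) := by
  simp [nn]

variable (ha : a ^ M = 1)
include ha

theorem cc_ee : cc M k a * ee k a = ((QQ M k : ℤ) : A) := by
  rw [ee_eq, cc, ← map_mul, cP_eta]
  simp [ha]

theorem ee_cc : ee k a * cc M k a = ((QQ M k : ℤ) : A) := by
  rw [← cc_ee ha, ee_eq, cc, pc]

theorem am1_nn : (a - 1) * nn M a = 0 := by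
  have h : ((X - 1) * (∑ i ∈ Finset.range M, X ^ i) : ℤ[X]) = X ^ M - 1 := by
    rw [mul_comm]; exact geom_sum_mul X M
  have := congrArg (aeval a) h
  simpa [nn, ha] using this

theorem nn_am1 : nn M a * (a - 1) = 0 := by
  have h : ((∑ i ∈ Finset.range M, X ^ i) * (X - 1) : ℤ[X]) = X ^ M - 1 := geom_sum_mul X M
  have := congrArg (aeval a) h
  simpa [nn, ha] using this

theorem cc_nn_am1 : (a - 1) * cc M k a * nn M a = 0 := by
  have h1 : (a - 1) * cc M k a = cc M k a * (a - 1) := by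
    have : a - 1 = aeval a (X - 1 : ℤ[X]) := by simp
    rw [this, cc, pc]
  rw [h1, mul_assoc, am1_nn ha, mul_zero]

theorem ee_nn_am1 : (a - 1) * ee k a * nn M a = 0 := by
  have h1 : (a - 1) * ee k a = ee k a * (a - 1) := by
    have : a - 1 = aeval a (X - 1 : ℤ[X]) := by simp
    rw [this, ee_eq, pc]
  rw [h1, mul_assoc, am1_nn ha, mul_zero]

omit ha in
theorem int_comm (n : ℤ) (x : A) : x * (n : A) = (n : A) * x := (Int.cast_commute n x).eq.symm

theorem unit_T0 {E : ℤ[X]}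
    (hT : C V * (X - 1) * cP M k + T0 * etaP k = 1 + E * (X ^ M - 1)) :
    (V : A) * (a - 1) * cc M k a + aeval a T0 * ee k a = 1 := by
  have h := congrArg (aeval a) hT
  rw [ee_eq, cc]
  simpa [ha] using h

end ring

/-! ### The exotic pair -/

section pair

variable {A : Type*} [Ring A]

/-- `x = 1 + η b` -/
def xx (k : ℤ) (a b : A) : A := 1 + ee k a * b

/-- `s` -/
noncomputable def ss (M : ℕ) (k V : ℤ) (a : A) : A := (V : A) * (a - 1) * cc M k a

/-- `t` -/
noncomputable def tt (M : ℕ) (k V : ℤ) (T0 : ℤ[X]) (a b : A) : A :=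
  aeval a T0 - (V : A) * (a - 1) * b * cc M k a

/-- first coordinate of an element of the kernel -/
noncomputable def p0 (M : ℕ) (k V : ℤ) (a b : A) : A :=
  (a - 1) * ee k a - (V : A) * (a - 1) * ee k a ^ 2 * b * (a - 1) * cc M k a

/-- second coordinate, up to the sign, of an element of the kernel -/
noncomputable def p1 (M : ℕ) (k V : ℤ) (T0 : ℤ[X]) (a b : A) : A :=
  (a - 1) + (a - 1) * ee k a ^ 2 * b * aeval a T0
    - (V : A) * (a - 1) * ee k a ^ 2 * b * (a - 1) * b * cc M k a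

variable {M : ℕ} {k V : ℤ} {T0 E : ℤ[X]} {a : A} (ha : a ^ M = 1)
  (hT : C V * (X - 1) * cP M k + T0 * etaP k = 1 + E * (X ^ M - 1))
include ha

theorem ss_nn : ss M k V a * nn M a = 0 := by
  unfold ss
  rw [mul_assoc (V : A), mul_assoc (V : A), cc_nn_am1 ha, mul_zero]

theorem p0_nn (b : A) : p0 M k V a b * nn M a = 0 := by
  have h1 := ee_nn_am1 (k := k) ha
  have h2 := cc_nn_am1 (k := k) ha
  have : p0 M k V a b * nn M a = (a - 1) * ee k a * nn M a
      - (V : A) * (a - 1) * ee k a ^ 2 * b * ((a - 1) * cc M k a * nn M a) := by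
    unfold p0; noncomm_ring
  rw [this, h1, h2]; simp

theorem Q_nn : ((QQ M k : ℤ) : A) * (a - 1) * nn M a = 0 := by
  rw [mul_assoc, am1_nn ha, mul_zero]

theorem Q_ker (b : A) :
    ((QQ M k : ℤ) : A) * (a - 1) * xx k a b = (a - 1) * xx k a b * cc M k a * ee k a := by
  rw [mul_assoc _ (cc M k a), cc_ee ha, int_comm, mul_assoc]

include hT

/-- `s x + t η = 1` -/
theorem unimodular (b : A) : ss M k V a * xx k a b + tt M k V T0 a b * ee k a = 1 := by
  have h1 := unit_T0 ha hT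
  have h2 := cc_ee (k := k) ha
  have h3 := int_comm (QQ M k) b
  unfold ss xx tt
  generalize aeval a T0 = t0 at *
  generalize cc M k a = c at *
  generalize ee k a = e at *
  generalize ((QQ M k : ℤ) : A) = q at *
  generalize (V : A) * (a - 1) = v at *
  calc v * c * (1 + e * b) + (t0 - v * b * c) * e
      = (v * c + t0 * e) + v * (c * e) * b - v * b * (c * e) := by noncomm_ring
    _ = 1 := by rw [h1, h2, mul_assoc v b q, h3, ← mul_assoc]; noncomm_ring

theorem p0_p1 (b : A) : p0 M k V a b * xx k a b = p1 M k V T0 a b * ee k a := by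
  have h1 := unit_T0 ha hT
  have h2 := cc_ee (k := k) ha
  have h3 := int_comm (QQ M k) b
  have h4 : (V : A) * (a - 1) = (a - 1) * (V : A) := (int_comm V (a - 1)).symm
  have h5 : ∀ x : A, x * (V : A) = (V : A) * x := int_comm V
  unfold p0 xx p1
  generalize aeval a T0 = t0 at *
  generalize cc M k a = c at *
  generalize ee k a = e at *
  generalize ((QQ M k : ℤ) : A) = q at *
  generalize (V : A) = v at *
  generalize a - 1 = d at *
  have h6 : t0 * e = 1 - v * d * c := by rw [← h1]; abel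
  calc (d * e - v * d * e ^ 2 * b * d * c) * (1 + e * b)
      = d * e + d * e ^ 2 * b - v * (d * e ^ 2 * b) * d * c
        - v * d * e ^ 2 * b * d * (c * e) * b := by noncomm_ring
    _ = d * e + d * e ^ 2 * b - (d * e ^ 2 * b) * v * d * c
        - v * d * e ^ 2 * b * d * (c * e) * b := by rw [h5 (d * e ^ 2 * b)]
    _ = d * e + d * e ^ 2 * b * (1 - v * d * c) - v * d * e ^ 2 * b * d * (q * b) := by
        rw [h2]; noncomm_ring
    _ = d * e + d * e ^ 2 * b * (t0 * e) - v * d * e ^ 2 * b * d * (b * (c * e)) := by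
        rw [h6, h2, h3]
    _ = (d + d * e ^ 2 * b * t0 - v * d * e ^ 2 * b * d * b * c) * e := by noncomm_ring

end pair

end ExoticGen
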