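import Pool.Agent.Lib.MP_2d4659_gt.EX85.Cyc

/-!
# The skew ring

`B = ℤ[ζ][T]`, matrices `A` over `B` of size two with `A X₀ = X₀ conj(A)`, `X₀ = [[0, T], [1, 0]]`.
-/

set_option autoImplicit false

open Polynomial

namespace ExoticGen

/-- matrices over `ℤ[ζ][T]` -/
abbrev Mt (M : ℕ) : Type := Matrix (Fin 2) (Fin 2) (OO M)[X]

section
variable (M : ℕ) [hM : NeZero M]

/-- conjugation of matrices -/
noncomputable def cj : Mt M →+* Mt M := (Polynomial.mapRingHom (conj M)).mapMatrix

/-- `X₀` -/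
noncomputable def X0 : Mt M := !![0, X; 1, 0]

theorem cj_X0 : cj M (X0 M) = X0 M := by
  unfold cj X0
  ext i j
  fin_cases i <;> fin_cases j <;> simp

/-- the skew ring -/
noncomputable def SS : Subring (Mt M) where
  carrier := {A | A * X0 M = X0 M * cj M A}
  mul_mem' := by
    intro a b ha hb
    show a * b * X0 M = X0 M * cj M (a * b)
    have ha' : a * X0 M = X0 M * cj M a := ha
    have hb' : b * X0 M = X0 M * cj M b := hb
    rw [map_mul, mul_assoc, hb', ← mul_assoc, ha', mul_assoc]
  one_mem' := by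
    show 1 * X0 M = X0 M * cj M 1
    rw [map_one, one_mul, mul_one]
  add_mem' := by
    intro a b ha hb
    show (a + b) * X0 M = X0 M * cj M (a + b)
    have ha' : a * X0 M = X0 M * cj M a := ha
    have hb' : b * X0 M = X0 M * cj M b := hb
    rw [map_add, add_mul, mul_add, ha', hb']
  zero_mem' := by
    show 0 * X0 M = X0 M * cj M 0
    rw [map_zero, zero_mul, mul_zero]
  neg_mem' := by
    intro a ha
    have ha' : a * X0 M = X0 M * cj M a := ha
    show -a * X0 M = X0 M * cj M (-a)
    rw [map_neg, neg_mul, mul_neg, ha']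

variable {M}

theorem SS_01 {A : Mt M} (h : A ∈ SS M) : A 0 1 = X * (A 1 0).map (conj M) := by
  have h' : A * X0 M = X0 M * cj M A := h
  have h1 := congrFun (congrFun h' 0) 0
  simp [Matrix.mul_apply, Fin.sum_univ_two, X0, cj] at h1
  exact h1

theorem SS_11 {A : Mt M} (h : A ∈ SS M) : A 1 1 = (A 0 0).map (conj M) := by
  have h' : A * X0 M = X0 M * cj M A := h
  have h1 := congrFun (congrFun h' 1) 0
  simp [Matrix.mul_apply, Fin.sum_univ_two, X0, cj] at h1
  exact h1

variable (M)

theorem X0_mem : X0 M ∈ SS M := by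
  show X0 M * X0 M = X0 M * cj M (X0 M)
  rw [cj_X0]

/-- `diag (z, conj z)` -/
noncomputable def dg (z : OO M) : Mt M := !![C z, 0; 0, C (conj M z)]

theorem conj_conj' (z : OO M) : conj M (conj M z) = z := by
  rw [← RingHom.comp_apply, conj_conj]; rfl

theorem dg_mem (z : OO M) : dg M z ∈ SS M := by
  show dg M z * X0 M = X0 M * cj M (dg M z)
  unfold dg X0 cj
  ext i j
  fin_cases i <;> fin_cases j <;>
    simp [Matrix.mul_apply, Fin.sum_univ_two, conj_conj', Polynomial.X_mul]

theorem dg_mul (z z' : OO M) : dg M z * dg M z' = dg M (z * z') := by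
  unfold dg
  ext i j
  fin_cases i <;> fin_cases j <;> simp [Matrix.mul_apply, Fin.sum_univ_two]

theorem dg_one : dg M 1 = 1 := by
  unfold dg
  ext i j
  fin_cases i <;> fin_cases j <;> simp

theorem dg_add (z z' : OO M) : dg M z + dg M z' = dg M (z + z') := by
  unfold dg
  ext i j
  fin_cases i <;> fin_cases j <;> simp

theorem dg_zero : dg M 0 = 0 := by
  unfold dg
  ext i j
  fin_cases i <;> fin_cases j <;> simp

/-- `dg` as a ring homomorphism -/
noncomputable def dgH : OO M →+* Mt M where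
  toFun := dg M
  map_one' := dg_one M
  map_mul' z z' := (dg_mul M z z').symm
  map_zero' := dg_zero M
  map_add' z z' := (dg_add M z z').symm

/-- `X₀` in the skew ring -/
noncomputable def XS : SS M := ⟨X0 M, X0_mem M⟩

/-- `ζ` in the skew ring -/
noncomputable def ZS : (SS M)ˣ where
  val := ⟨dg M (zeta M), dg_mem M _⟩
  inv := ⟨dg M (zeta' M), dg_mem M _⟩
  val_inv := by
    apply Subtype.ext
    show dg M (zeta M) * dg M (zeta' M) = 1
    rw [dg_mul, zeta_mul, dg_one]
  inv_val := by
    apply Subtype.ext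
    show dg M (zeta' M) * dg M (zeta M) = 1
    rw [dg_mul, mul_comm, zeta_mul, dg_one]

theorem ZS_pow : ((ZS M : (SS M)ˣ) : SS M) ^ M = 1 := by
  apply Subtype.ext
  rw [SubmonoidClass.coe_pow]
  show dg M (zeta M) ^ M = 1
  have h : dgH M (zeta M) ^ M = 1 := by
    rw [← map_pow, (zeta_prim M).pow_eq_one, map_one]
  exact h

theorem nn_dg (hM2 : 1 < M) : nn M (dg M (zeta M)) = 0 := by
  have h : nn M (dgH M (zeta M)) = dgH M (nn M (zeta M)) := by
    simp [nn]
  have h2 : nn M (zeta M) = 0 := (zeta_prim M).geom_sum_eq_zero hM2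
  rw [h2, map_zero] at h
  exact h

theorem nn_ZS (hM2 : 1 < M) : nn M ((ZS M : (SS M)ˣ) : SS M) = 0 := by
  apply Subtype.ext
  have h : (((nn M ((ZS M : (SS M)ˣ) : SS M)) : SS M) : Mt M) = nn M (dg M (zeta M)) := by
    simp [nn, ZS]
  rw [h, nn_dg M hM2]; rfl

/-- an element of constant reduced norm has degree zero -/
theorem deg_zero {r w : Mt M} (hw : w ∈ SS M) {q : OO M} (hq : q ≠ 0)
    (h : (r * w).det = C q) : w 1 0 = 0 ∧ ∃ α : OO M, w 0 0 = C α := by
  rw [Matrix.det_mul] at h
  have hne : r.det * w.det ≠ 0 := by rw [h]; exact C_ne_zero.2 hq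
  have hd : w.det.natDegree = 0 := by
    have h1 := natDegree_mul (left_ne_zero_of_mul hne) (right_ne_zero_of_mul hne)
    rw [h, natDegree_C] at h1
    omega
  rw [Matrix.det_fin_two, SS_01 hw, SS_11 hw] at hd
  have hinj := conj_inj M
  have ha : (w 0 0 * (w 0 0).map (conj M)).natDegree = 2 * (w 0 0).natDegree := by
    by_cases h0 : w 0 0 = 0
    · rw [h0]; simp
    · rw [natDegree_mul h0 ((Polynomial.map_ne_zero_iff hinj).2 h0),
        natDegree_map_eq_of_injective hinj]
      ring
  have hb : w 1 0 ≠ 0 → (X * (w 1 0).map (conj M) * w 1 0).natDegree = 1 + 2 * (w 1 0).natDegree := by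
    intro h0
    have h1 := (Polynomial.map_ne_zero_iff hinj).2 h0
    rw [natDegree_mul (mul_ne_zero X_ne_zero h1) h0, natDegree_mul X_ne_zero h1, natDegree_X,
      natDegree_map_eq_of_injective hinj]
    ring
  have hg : w 1 0 = 0 := by
    by_contra h0
    have hb' := hb h0
    rcases lt_or_gt_of_ne (show 2 * (w 0 0).natDegree ≠ 1 + 2 * (w 1 0).natDegree by omega)
      with h3 | h3
    · rw [natDegree_sub_eq_right_of_natDegree_lt (by rw [ha, hb']; exact h3), hb'] at hd
      omega
    · rw [natDegree_sub_eq_left_of_natDegree_lt (by rw [ha, hb']; exact h3), ha] at hd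
      omega
  refine ⟨hg, ?_⟩
  rw [hg, mul_zero, sub_zero, ha] at hd
  exact ⟨(w 0 0).coeff 0, eq_C_of_natDegree_eq_zero (by omega)⟩

end

end ExoticGen
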